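import Pool.Agent.Lib.P4a177e.Stmt
import Pool.Agent.Lib.P4a177s.UnramSum

/-!
# MODULE P4a177e.AdmE: the symbols are admissible and unramified (est. 0.7 h)

PROOF. `admissible_xi`: the blocks are the single entries (`b i = (i : ℕ)`, so
`Finset.univ.filter fun i => (i : ℕ) = k` is `{i}`), and `1 + φ (-g_s) = -(φ g_s - 1)`; use
`P4a177h.Fam.val_g A N p φ O.valuation` (the value of `-g` is that of `g`, `Valuation.map_neg`).
`unramified_xi`: `P4a177h.Fam.unramified_xi` is the same for the symbol of the `g_s` without the signs;
`2^n • symb (-g) = symb (fun s => (-g s)^2) = symb (fun s => (g s)^2) = 2^n • symb g` (`symb_mul` in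
every entry, induction over a finset of entries as in `P4a177h.unramified_symb`; or: show that
`symb (update a s (-b)) - symb (update a s b)` is killed by `2`), map with
`algebraMap (A.CoordRing N) K` (`map_symb`); `Unramified` allows a nonzero multiple.
-/

set_option autoImplicit false

namespace P4a177e

open P4a177h

variable {d : ℕ} (A : Fam d) (N : ℕ)

theorem admissible_xi (p : ∀ s, Fin (A.m s)) : P4a177s.Admissible (xi A N p) := by
  refine ⟨fun s => -A.gU N s (p s), fun i => (i : ℕ), rfl, fun K _ φ O => ?_⟩
  rcases A.val_g N p φ O.valuation with h | ⟨s, hs⟩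
  · left
    intro i
    rw [Units.val_neg, map_neg, Valuation.map_neg]
    exact h i
  · right
    refine ⟨s, Or.inl ?_⟩
    have e : (Finset.univ.filter fun i : Fin (d + 2) => (i : ℕ) = s) = {s} := by
      ext i
      simp only [Finset.mem_filter, Finset.mem_univ, true_and, Finset.mem_singleton]
      exact ⟨fun h => Fin.ext h, fun h => congrArg _ h⟩
    rw [e, Finset.sum_singleton, Units.val_neg, map_neg]
    have e2 : 1 + -φ (A.gU N s (p s) : A.CoordRing N) =
        -(φ (A.gU N s (p s) : A.CoordRing N) - 1) := by ring
    rw [e2, Valuation.map_neg]
    exact hs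

namespace AdmEAux

/-- signs do not matter -/
theorem neg_on {n : ℕ} {K : Type*} [Field K] (v : Valuation K (WithZero (Multiplicative ℤ)))
    (a : Fin n → Kˣ) (T : Finset (Fin n)) :
    Unramified v (symb fun s => if s ∈ T then -a s else a s) ↔ Unramified v (symb a) := by
  classical
  induction T using Finset.induction_on with
  | empty => simp
  | insert s T hs ih =>
    rw [← ih]
    have e1 : (fun t => if t ∈ insert s T then -a t else a t) =
        Function.update (fun t => if t ∈ T then -a t else a t) s (-a s) := by
      funext t
      by_cases ht : t = s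
      · subst ht
        rw [Function.update_self, if_pos (Finset.mem_insert_self _ _)]
      · rw [Function.update_of_ne ht]
        simp only [Finset.mem_insert, ht, false_or]
    have e2 : (fun t => if t ∈ T then -a t else a t) =
        Function.update (fun t => if t ∈ T then -a t else a t) s (a s) := by
      funext t
      by_cases ht : t = s
      · subst ht
        rw [Function.update_self, if_neg hs]
      · rw [Function.update_of_ne ht]
    rw [e1, P4a177s.us_upd_neg]
    conv_rhs => rw [e2]

end AdmEAux

theorem unramified_xi (p : ∀ s, Fin (A.m s)) : P4a177s.UnramifiedEverywhere (xi A N p) := by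
  intro K _ _ _ v
  have h := A.unramified_xi N p (algebraMap (A.CoordRing N) K) v
  unfold xi
  rw [map_symb] at h ⊢
  rw [← AdmEAux.neg_on v _ Finset.univ] at h
  convert h using 2
  funext s
  rw [if_pos (Finset.mem_univ s)]
  apply Units.ext
  simp only [Units.coe_map, MonoidHom.coe_coe, Units.val_neg, map_neg]

end P4a177e
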