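import Pool.Agent.Lib.P4a177e.Defs

/-!
# MODULE P4a177e.Circ: the functions `ph` and `lm` on the circle (est. 1.3 h; needs only the
definitions of `ph`, `lm`, `cc`)

PROOF. `z = ρ e^{it}`. For `ρ < ‖b‖`: `‖z + b‖ ≥ ‖b‖ - ρ`; `|log ‖1 + z/b‖| ≤ ‖log (1 + z/b)‖ ≤
-log (1 - ρ/‖b‖) ≤ (ρ/‖b‖)/(1 - ρ/‖b‖)` (`Complex.norm_log_one_add_le...`; or elementary:
`log x ≤ x - 1` and `-log x ≤ 1/x - 1` for `x = ‖1 + z/b‖ ∈ [1 - ρ/‖b‖, 1 + ρ/‖b‖]`).
* `integral_ph`: as `P4a177h.Est_integral_zero`, `Est_integral_ne` (Est.lean, radius 1/2 there).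
* `integral_lm`: mean value property of the holomorphic function `L_b z = Complex.log (1 + z/b)` on
  the closed disc of radius `ρ` (`1 + z/b` has positive real part), `L_b 0 = 0`:
  `∮ (z)⁻¹ L_b z = 2πi L_b 0` (`circleIntegral` Cauchy formula,
  `DiffContOnCl.circleIntegral_sub_inv_smul`), real part.
* `integral_symm`: if `b = 0` both sides are `0` (`lm ρ 0 = 0`, `ph ρ 0 = 1`, `integral_lm`); same
  for `c = 0`. Otherwise `∮ L_b(z) L_c'(z) dz = 0` (Cauchy) is `∫ L_b(ρe^{it}) ph_c(t) dt = 0`; its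
  real part: `∫ lm_b Re ph_c = ∫ arg_b Im ph_c`, `arg_b t = Im L_b(ρe^{it})`. Since
  `d/dt L_c(ρe^{it}) = i ph_c(t)`: `lm_c' = -Im ph_c`, `arg_b' = Re ph_b`. Integration by parts
  (periodic functions): `∫ arg_b Im ph_c = -∫ arg_b lm_c' = ∫ arg_b' lm_c = ∫ Re ph_b lm_c`.
-/

set_option autoImplicit false

namespace P4a177e

open MeasureTheory
open scoped Real

namespace CircAux

/-- the point of the circle -/
noncomputable def zt (ρ t : ℝ) : ℂ := ρ * Complex.exp (t * Complex.I)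

lemma zt_eq (ρ t : ℝ) : zt ρ t = circleMap 0 ρ t := by
  rw [circleMap, zero_add]
  rfl

lemma norm_zt {ρ : ℝ} (hρ : 0 < ρ) (t : ℝ) : ‖zt ρ t‖ = ρ := by
  unfold zt
  rw [norm_mul, Complex.norm_exp_ofReal_mul_I, mul_one, Complex.norm_real,
    Real.norm_of_nonneg hρ.le]

lemma zt_ne {ρ : ℝ} (hρ : 0 < ρ) (t : ℝ) : zt ρ t ≠ 0 := by
  rw [← norm_pos_iff, norm_zt hρ]
  exact hρ

lemma zt_cont (ρ : ℝ) : Continuous (zt ρ) := by
  unfold zt
  fun_prop

lemma den_ne {ρ : ℝ} (hρ : 0 < ρ) {b : ℂ} (hb : b = 0 ∨ ρ < ‖b‖) (t : ℝ) : zt ρ t + b ≠ 0 := by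
  rcases hb with rfl | hb
  · rw [add_zero]
    exact zt_ne hρ t
  · intro h
    have h1 : zt ρ t = -b := by linear_combination h
    have h2 := norm_zt hρ t
    rw [h1, norm_neg] at h2
    linarith

lemma one_add_ne {ρ : ℝ} (hρ : 0 < ρ) {b : ℂ} (hb : b = 0 ∨ ρ < ‖b‖) (t : ℝ) :
    1 + zt ρ t / b ≠ 0 := by
  by_cases h0 : b = 0
  · rw [h0, div_zero, add_zero]
    exact one_ne_zero
  · intro h
    apply den_ne hρ hb t
    field_simp at h
    linear_combination h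

lemma icc {E : Type*} [NormedAddCommGroup E] [NormedSpace ℝ E] (f : ℝ → E) :
    ∫ t in Set.Icc (0 : ℝ) (2 * π), f t = ∫ t in (0 : ℝ)..2 * π, f t := by
  rw [intervalIntegral.integral_of_le (by positivity), integral_Icc_eq_integral_Ioc]

/-- The logarithm. -/
noncomputable def Lb (b z : ℂ) : ℂ := Complex.log (1 + z / b)

lemma slit {ρ : ℝ} {b : ℂ} (hb : ρ < ‖b‖) (hρ : 0 < ρ) {z : ℂ} (hz : ‖z‖ ≤ ρ) :
    1 + z / b ∈ Complex.slitPlane := by
  left
  have h1 : ‖z / b‖ < 1 := by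
    rw [norm_div, div_lt_one (by linarith)]
    linarith
  have h2 := Complex.abs_re_le_norm (z / b)
  have h3 := neg_abs_le (z / b).re
  rw [Complex.add_re, Complex.one_re]
  linarith

lemma Lb_deriv {ρ : ℝ} {b : ℂ} (hb : ρ < ‖b‖) (hρ : 0 < ρ) {z : ℂ} (hz : ‖z‖ ≤ ρ) :
    HasDerivAt (Lb b) (z + b)⁻¹ z := by
  have hb0 : b ≠ 0 := by
    intro h
    rw [h, norm_zero] at hb
    linarith
  have h1 : HasDerivAt (fun z : ℂ => 1 + z / b) (1 / b) z :=
    ((hasDerivAt_id z).div_const b).const_add 1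
  have h2 := h1.clog (slit hb hρ hz)
  have h4 : z + b ≠ 0 := by
    intro h
    have h5 : z = -b := by linear_combination h
    rw [h5, norm_neg] at hz
    linarith
  have h3 : 1 / b / (1 + z / b) = (z + b)⁻¹ := by
    have h6 : 1 + z / b = (z + b) / b := by
      field_simp
      ring
    rw [h6]
    field_simp
  rw [h3] at h2
  exact h2

lemma dcc {ρ : ℝ} (hρ : 0 < ρ) {f : ℂ → ℂ} (hf : ∀ z, ‖z‖ ≤ ρ → DifferentiableAt ℂ f z) :
    DiffContOnCl ℂ f (Metric.ball 0 ρ) := by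
  refine DifferentiableOn.diffContOnCl ?_
  rw [closure_ball _ hρ.ne']
  intro z hz
  rw [mem_closedBall_zero_iff] at hz
  exact (hf z hz).differentiableWithinAt

lemma int_zero {ρ : ℝ} (hρ : 0 < ρ) {f : ℂ → ℂ} (hf : ∀ z, ‖z‖ ≤ ρ → DifferentiableAt ℂ f z) :
    ∫ t in (0 : ℝ)..2 * π, zt ρ t * f (zt ρ t) = 0 := by
  have h1 := (dcc hρ hf).circleIntegral_eq_zero hρ.le
  rw [circleIntegral] at h1
  have h2 : ∀ t : ℝ, deriv (circleMap 0 ρ) t • f (circleMap 0 ρ t) =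
      Complex.I * (zt ρ t * f (zt ρ t)) := by
    intro t
    rw [deriv_circleMap, ← zt_eq, smul_eq_mul]
    ring
  simp_rw [h2] at h1
  rw [intervalIntegral.integral_const_mul] at h1
  exact (mul_eq_zero.mp h1).resolve_left Complex.I_ne_zero

lemma int_mean {ρ : ℝ} (hρ : 0 < ρ) {f : ℂ → ℂ} (hf : ∀ z, ‖z‖ ≤ ρ → DifferentiableAt ℂ f z) :
    ∫ t in (0 : ℝ)..2 * π, f (zt ρ t) = 2 * π * f 0 := by
  have h1 := (dcc hρ hf).circleIntegral_sub_inv_smul (Metric.mem_ball_self hρ)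
  rw [circleIntegral] at h1
  have h2 : ∀ t : ℝ, deriv (circleMap 0 ρ) t • (circleMap 0 ρ t - 0)⁻¹ • f (circleMap 0 ρ t) =
      Complex.I * f (zt ρ t) := by
    intro t
    rw [deriv_circleMap, ← zt_eq, smul_eq_mul, smul_eq_mul, sub_zero]
    have := zt_ne hρ t
    field_simp
  simp_rw [h2] at h1
  rw [intervalIntegral.integral_const_mul, smul_eq_mul] at h1
  apply mul_left_cancel₀ Complex.I_ne_zero
  rw [h1]
  ring

lemma ph_eq (ρ : ℝ) (b : ℂ) (t : ℝ) : ph ρ b t = zt ρ t / (zt ρ t + b) := rfl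

lemma lm_eq (ρ : ℝ) (b : ℂ) (t : ℝ) : lm ρ b t = (Lb b (zt ρ t)).re := by
  unfold Lb
  rw [Complex.log_re]
  rfl

lemma zt_deriv (ρ t : ℝ) : HasDerivAt (zt ρ) (zt ρ t * Complex.I) t := by
  have h := hasDerivAt_circleMap 0 ρ t
  have h1 : circleMap 0 ρ = zt ρ := by
    ext1 s
    rw [zt_eq]
  rw [h1] at h
  exact h

lemma Lt_deriv {ρ : ℝ} (hρ : 0 < ρ) {b : ℂ} (hb : ρ < ‖b‖) (t : ℝ) :
    HasDerivAt (fun t => Lb b (zt ρ t)) (Complex.I * ph ρ b t) t := by
  have h := (Lb_deriv hb hρ (norm_zt hρ t).le).comp t (zt_deriv ρ t)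
  have h1 : (zt ρ t + b)⁻¹ * (zt ρ t * Complex.I) = Complex.I * ph ρ b t := by
    rw [ph_eq]
    ring
  rw [h1] at h
  exact h

end CircAux

open CircAux

theorem ph_zero {ρ : ℝ} (hρ : 0 < ρ) (t : ℝ) : ph ρ 0 t = 1 := by
  rw [ph_eq, add_zero, div_self (zt_ne hρ t)]

theorem lm_zero (ρ : ℝ) (t : ℝ) : lm ρ 0 t = 0 := by
  unfold lm
  rw [div_zero, add_zero, norm_one, Real.log_one]

theorem ph_continuous {ρ : ℝ} (hρ : 0 < ρ) {b : ℂ} (hb : b = 0 ∨ ρ < ‖b‖) :
    Continuous (ph ρ b) :=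
  Continuous.div (zt_cont ρ) ((zt_cont ρ).add continuous_const) (den_ne hρ hb)

theorem lm_continuous {ρ : ℝ} (hρ : 0 < ρ) {b : ℂ} (hb : b = 0 ∨ ρ < ‖b‖) :
    Continuous (lm ρ b) := by
  refine Continuous.log ?_ ?_
  · exact (continuous_const.add ((zt_cont ρ).div_const b)).norm
  · intro t
    exact norm_ne_zero_iff.mpr (one_add_ne hρ hb t)

theorem ph_norm_le {ρ : ℝ} (hρ : 0 < ρ) {b : ℂ} (hb : ρ < ‖b‖) (t : ℝ) :
    ‖ph ρ b t‖ ≤ ρ / (‖b‖ - ρ) := by
  rw [ph_eq, norm_div, norm_zt hρ]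
  have h1 : ‖b‖ - ρ ≤ ‖zt ρ t + b‖ := by
    have := norm_sub_le (zt ρ t + b) (zt ρ t)
    rw [add_sub_cancel_left, norm_zt hρ] at this
    linarith
  have h2 : 0 < ‖b‖ - ρ := by linarith
  gcongr

theorem lm_abs_le {ρ : ℝ} (hρ : 0 < ρ) {b : ℂ} (hb : ρ < ‖b‖) (t : ℝ) :
    |lm ρ b t| ≤ ρ / (‖b‖ - ρ) := by
  have hb0 : 0 < ‖b‖ := by linarith
  have h0 : 0 < ‖b‖ - ρ := by linarith
  set x : ℝ := ‖1 + zt ρ t / b‖ with hx
  have hlm : lm ρ b t = Real.log x := rfl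
  have hzb : ‖zt ρ t / b‖ = ρ / ‖b‖ := by rw [norm_div, norm_zt hρ]
  have hx1 : x ≤ 1 + ρ / ‖b‖ := by
    have := norm_add_le (1 : ℂ) (zt ρ t / b)
    rw [norm_one, hzb] at this
    exact this
  have hx2 : 1 - ρ / ‖b‖ ≤ x := by
    have := norm_sub_le (1 + zt ρ t / b) (zt ρ t / b)
    rw [add_sub_cancel_right, norm_one, hzb] at this
    linarith
  have hs : 1 - ρ / ‖b‖ = (‖b‖ - ρ) / ‖b‖ := by field_simp
  have hs0 : 0 < 1 - ρ / ‖b‖ := by
    rw [hs]
    positivity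
  have hx0 : 0 < x := by linarith
  rw [hlm, abs_le]
  constructor
  · have h1 := Real.one_sub_inv_le_log_of_pos hx0
    have h2 : x⁻¹ ≤ (1 - ρ / ‖b‖)⁻¹ := inv_anti₀ hs0 hx2
    have h3 : (1 - ρ / ‖b‖)⁻¹ = 1 + ρ / (‖b‖ - ρ) := by
      rw [hs, inv_div]
      field_simp
      ring
    linarith
  · have h1 := Real.log_le_sub_one_of_pos hx0
    have h2 : ρ / ‖b‖ ≤ ρ / (‖b‖ - ρ) := by
      apply div_le_div_of_nonneg_left hρ.le h0
      linarith
    linarith

theorem log_norm_circle {ρ : ℝ} (hρ : 0 < ρ) {b : ℂ} (hb : b = 0 ∨ ρ < ‖b‖) (t : ℝ) :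
    Real.log ‖ρ * Complex.exp (t * Complex.I) + b‖ = cc ρ b + lm ρ b t := by
  show Real.log ‖zt ρ t + b‖ = cc ρ b + lm ρ b t
  by_cases h0 : b = 0
  · rw [h0, lm_zero, cc, if_pos rfl, add_zero, norm_zt hρ, add_zero]
  · rw [cc, if_neg h0]
    show _ = Real.log ‖b‖ + Real.log ‖1 + zt ρ t / b‖
    rw [← Real.log_mul (norm_ne_zero_iff.mpr h0) (norm_ne_zero_iff.mpr (one_add_ne hρ hb t)),
      ← norm_mul]
    congr 2
    field_simp
    ring

theorem integral_ph {ρ : ℝ} (hρ : 0 < ρ) {b : ℂ} (hb : b = 0 ∨ ρ < ‖b‖) :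
    ∫ t in Set.Icc (0 : ℝ) (2 * π), ph ρ b t = if b = 0 then 2 * π else 0 := by
  rw [icc]
  by_cases h0 : b = 0
  · rw [if_pos h0, h0]
    simp_rw [ph_zero hρ]
    rw [intervalIntegral.integral_const]
    simp
  · rw [if_neg h0]
    have hb' := hb.resolve_left h0
    have h1 : ∀ z : ℂ, ‖z‖ ≤ ρ → DifferentiableAt ℂ (fun z : ℂ => (z + b)⁻¹) z := by
      intro z hz
      refine DifferentiableAt.fun_inv (differentiableAt_id.add_const b) ?_
      intro h
      have h5 : z = -b := by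
        have h6 : z + b = 0 := h
        linear_combination h6
      rw [h5, norm_neg] at hz
      linarith
    exact int_zero hρ h1

theorem integral_lm {ρ : ℝ} (hρ : 0 < ρ) {b : ℂ} (hb : b = 0 ∨ ρ < ‖b‖) :
    ∫ t in Set.Icc (0 : ℝ) (2 * π), lm ρ b t = 0 := by
  rw [icc]
  by_cases h0 : b = 0
  · rw [h0]
    simp_rw [lm_zero]
    exact intervalIntegral.integral_zero
  · have hb' := hb.resolve_left h0
    have h1 := int_mean hρ (f := Lb b) (fun z hz => (Lb_deriv hb' hρ hz).differentiableAt)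
    have h2 : Lb b 0 = 0 := by
      unfold Lb
      rw [zero_div, add_zero, Complex.log_one]
    rw [h2, mul_zero] at h1
    have hc : Continuous (fun t => Lb b (zt ρ t)) :=
      continuous_iff_continuousAt.mpr fun t => (Lt_deriv hρ hb' t).continuousAt
    have h4 : ∫ t in (0 : ℝ)..2 * π, lm ρ b t = (∫ t in (0 : ℝ)..2 * π, Lb b (zt ρ t)).re := by
      simp_rw [lm_eq]
      exact Complex.reCLM.intervalIntegral_comp_comm
        (hc.intervalIntegrable (μ := volume) 0 (2 * π))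
    rw [h4, h1, Complex.zero_re]

theorem integral_symm {ρ : ℝ} (hρ : 0 < ρ) {b c : ℂ} (hb : b = 0 ∨ ρ < ‖b‖)
    (hc : c = 0 ∨ ρ < ‖c‖) :
    ∫ t in Set.Icc (0 : ℝ) (2 * π), lm ρ b t * (ph ρ c t).re =
      ∫ t in Set.Icc (0 : ℝ) (2 * π), lm ρ c t * (ph ρ b t).re := by
  by_cases hb0 : b = 0
  · have h1 := integral_lm hρ hc
    rw [hb0]
    simp_rw [lm_zero, ph_zero hρ, zero_mul, Complex.one_re, mul_one]
    rw [h1, integral_zero]
  by_cases hc0 : c = 0
  · have h1 := integral_lm hρ hb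
    rw [hc0]
    simp_rw [lm_zero, ph_zero hρ, zero_mul, Complex.one_re, mul_one]
    rw [h1, integral_zero]
  have hb' := hb.resolve_left hb0
  have hc' := hc.resolve_left hc0
  have hLb : Continuous (fun t => Lb b (zt ρ t)) :=
    continuous_iff_continuousAt.mpr fun t => (Lt_deriv hρ hb' t).continuousAt
  have hLc : Continuous (fun t => Lb c (zt ρ t)) :=
    continuous_iff_continuousAt.mpr fun t => (Lt_deriv hρ hc' t).continuousAt
  have hpb := ph_continuous hρ hb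
  have hpc := ph_continuous hρ hc
  -- Cauchy
  have h1 : ∫ t in (0 : ℝ)..2 * π, Lb b (zt ρ t) * ph ρ c t = 0 := by
    have hd : ∀ z : ℂ, ‖z‖ ≤ ρ → DifferentiableAt ℂ (fun z : ℂ => Lb b z * (z + c)⁻¹) z := by
      intro z hz
      refine (Lb_deriv hb' hρ hz).differentiableAt.mul
        (DifferentiableAt.fun_inv (differentiableAt_id.add_const c) ?_)
      intro h
      have h5 : z = -c := by
        have h6 : z + c = 0 := h
        linear_combination h6
      rw [h5, norm_neg] at hz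
      linarith
    have h2 := int_zero hρ hd
    rw [← h2]
    refine intervalIntegral.integral_congr fun t _ => ?_
    rw [ph_eq]
    ring
  have h2 : ∫ t in (0 : ℝ)..2 * π, (lm ρ b t * (ph ρ c t).re -
      (Lb b (zt ρ t)).im * (ph ρ c t).im) = 0 := by
    have h4 : ∫ t in (0 : ℝ)..2 * π, (lm ρ b t * (ph ρ c t).re -
        (Lb b (zt ρ t)).im * (ph ρ c t).im) =
        (∫ t in (0 : ℝ)..2 * π, Lb b (zt ρ t) * ph ρ c t).re := by
      have h6 : ∀ t : ℝ, lm ρ b t * (ph ρ c t).re - (Lb b (zt ρ t)).im * (ph ρ c t).im =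
          Complex.reCLM (Lb b (zt ρ t) * ph ρ c t) := by
        intro t
        rw [Complex.reCLM_apply, Complex.mul_re, lm_eq]
      simp_rw [h6]
      exact Complex.reCLM.intervalIntegral_comp_comm
        ((hLb.mul hpc).intervalIntegrable (μ := volume) 0 (2 * π))
    rw [h4, h1, Complex.zero_re]
  -- the periodic function
  have h5 : ∫ t in (0 : ℝ)..2 * π, (lm ρ c t * (ph ρ b t).re -
      (Lb b (zt ρ t)).im * (ph ρ c t).im) = 0 := by
    have hG : ∀ t ∈ Set.uIcc (0 : ℝ) (2 * π), HasDerivAt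
        (fun t => (Lb b (zt ρ t)).im * (Lb c (zt ρ t)).re)
        (lm ρ c t * (ph ρ b t).re - (Lb b (zt ρ t)).im * (ph ρ c t).im) t := by
      intro t _
      have e1 : HasDerivAt (fun t => (Lb b (zt ρ t)).im) (Complex.I * ph ρ b t).im t :=
        (Complex.imCLM.hasFDerivAt.comp_hasDerivAt t (Lt_deriv hρ hb' t))
      have e2 : HasDerivAt (fun t => (Lb c (zt ρ t)).re) (Complex.I * ph ρ c t).re t :=
        (Complex.reCLM.hasFDerivAt.comp_hasDerivAt t (Lt_deriv hρ hc' t))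
      have e3 : HasDerivAt (fun t => (Lb b (zt ρ t)).im * (Lb c (zt ρ t)).re)
          ((Complex.I * ph ρ b t).im * (Lb c (zt ρ t)).re +
            (Lb b (zt ρ t)).im * (Complex.I * ph ρ c t).re) t := e1.mul e2
      have e4 : (Complex.I * ph ρ b t).im * (Lb c (zt ρ t)).re +
            (Lb b (zt ρ t)).im * (Complex.I * ph ρ c t).re =
          lm ρ c t * (ph ρ b t).re - (Lb b (zt ρ t)).im * (ph ρ c t).im := by
        rw [Complex.mul_im, Complex.mul_re, Complex.I_re, Complex.I_im, lm_eq]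
        ring
      rw [e4] at e3
      exact e3
    rw [intervalIntegral.integral_eq_sub_of_hasDerivAt hG]
    · have e4 : zt ρ (2 * π) = zt ρ 0 := by
        unfold zt
        simp
      rw [e4, sub_self]
    · refine Continuous.intervalIntegrable ?_ _ _
      have := lm_continuous hρ hc
      exact (this.mul (Complex.continuous_re.comp hpb)).sub
        ((Complex.continuous_im.comp hLb).mul (Complex.continuous_im.comp hpc))
  have hI1 : IntervalIntegrable (fun t => lm ρ b t * (ph ρ c t).re) volume 0 (2 * π) :=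
    ((lm_continuous hρ hb).mul (Complex.continuous_re.comp hpc)).intervalIntegrable _ _
  have hI2 : IntervalIntegrable (fun t => lm ρ c t * (ph ρ b t).re) volume 0 (2 * π) :=
    ((lm_continuous hρ hc).mul (Complex.continuous_re.comp hpb)).intervalIntegrable _ _
  have hI3 : IntervalIntegrable (fun t => (Lb b (zt ρ t)).im * (ph ρ c t).im) volume 0 (2 * π) :=
    ((Complex.continuous_im.comp hLb).mul (Complex.continuous_im.comp hpc)).intervalIntegrable _ _
  rw [intervalIntegral.integral_sub hI1 hI3] at h2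
  rw [intervalIntegral.integral_sub hI2 hI3] at h5
  rw [icc, icc]
  linarith

end P4a177e
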