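import Mathlib

/-!
# MODULE P4a177e.Crit: the critical values of a product of linear factors

PROOF. `c` IS REAL: the imaginary part of `∑ 1/(c - a i) = 0` is `-(Im c) ∑ 1/‖c - a i‖^2`. So let
`c` be real, `d i = c - a i`. Let `i₀` be the index with the smallest `|d i|`; we may assume
`σ = d i₀ > 0`. The elements with `d > 0` other than `i₀` have `d ≥ σ + g`. Let `j₀` be the element with
`d < 0` and the smallest `|d|`; the other elements with `d < 0` have `|d| ≥ |d j₀| + g`.
Case 1, `σ ≥ g/2`: `∏ |d| ≥ σ * |d j₀| * g^(k-1) ≥ g^(k+1)/4`.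
Case 2, `σ < g/2`: for all `j` with `d j < 0`: `|d j| ≥ g - σ > g/2`, and for `j ≠ j₀`:
`|d j| ≥ 2 g - σ ≥ 3g/2`. With `k'` the number of `j` with `d j < 0`: `1/σ ≤ k'/(g - σ)`, and
`∏ |d| ≥ σ (g - σ) (3g/2)^(k'-1) g^(k-k')`.
-/

set_option autoImplicit false

namespace P4a177e

open Finset

private theorem crit_aux_num (m : ℕ) : ((m : ℝ) + 2) ^ 2 ≤ 4 * (3 / 2) ^ m * (m + 1) := by
  induction m with
  | zero => norm_num
  | succ m ih =>
    have hm : (0 : ℝ) ≤ m := Nat.cast_nonneg m
    push_cast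
    have h1 : (0 : ℝ) < (m : ℝ) + 1 := by linarith
    have h2 : ((m : ℝ) + 2) ^ 2 * ((3 / 2) * (m + 1 + 1)) ≤
        4 * (3 / 2) ^ m * (m + 1) * ((3 / 2) * (m + 1 + 1)) :=
      mul_le_mul_of_nonneg_right ih (by positivity)
    have h3 : ((m : ℝ) + 1 + 2) ^ 2 * (m + 1) ≤ ((m : ℝ) + 2) ^ 2 * ((3 / 2) * (m + 1 + 1)) := by
      nlinarith [mul_nonneg hm hm, mul_nonneg (mul_nonneg hm hm) hm]
    have h4 : ((m : ℝ) + 1 + 2) ^ 2 * (m + 1) ≤
        (4 * (3 / 2) ^ (m + 1) * (m + 1 + 1)) * (m + 1) := by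
      refine (h3.trans h2).trans (le_of_eq ?_)
      rw [pow_succ]
      ring
    exact le_of_mul_le_mul_right h4 h1

private theorem crit_real {ι : Type*} [Fintype ι] [DecidableEq ι] (g : ℝ) (hg : 0 < g)
    (d : ι → ℝ) (hd : ∀ i, d i ≠ 0) (hgap : ∀ i j, i ≠ j → g ≤ |d i - d j|)
    (hs : ∑ i, 1 / d i = 0) (i0 : ι) (hi0 : 0 < d i0) (hmin : ∀ j, d i0 ≤ |d j|) :
    g ^ (Fintype.card ι) / 4 ≤ ∏ i, |d i| := by
  classical
  set S : Finset ι := univ.filter (fun j => d j < 0) with hSdef
  have hSne : S.Nonempty := by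
    by_contra hcon
    rw [Finset.not_nonempty_iff_eq_empty] at hcon
    have hpos : ∀ i, 0 < d i := by
      intro i
      rcases lt_trichotomy (d i) 0 with h | h | h
      · have : i ∈ S := by rw [hSdef]; simp [h]
        rw [hcon] at this
        simp at this
      · exact absurd h (hd i)
      · exact h
    have h1 : 0 < ∑ i, 1 / d i :=
      Finset.sum_pos (fun i _ => one_div_pos.mpr (hpos i)) ⟨i0, mem_univ _⟩
    linarith
  obtain ⟨j0, hj0S, hj0min⟩ := Finset.exists_min_image S (fun j => |d j|) hSne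
  have hj0 : d j0 < 0 := by
    rw [hSdef] at hj0S
    exact (mem_filter.mp hj0S).2
  have hne : j0 ≠ i0 := by
    rintro rfl
    linarith
  set σ := d i0 with hσ
  have habs : ∀ j, d j < 0 → |d j| = - d j := fun j h => abs_of_neg h
  have hP : ∀ i, 0 < d i → i ≠ i0 → σ + g ≤ |d i| := by
    intro i hi hii
    have h1 := hgap i i0 hii
    have h2 := hmin i
    rw [abs_of_pos hi] at h2 ⊢
    rw [abs_of_nonneg (by linarith)] at h1
    linarith
  have hN : ∀ j, d j < 0 → j ≠ j0 → |d j0| + g ≤ |d j| := by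
    intro j hj hjj
    have h1 := hgap j j0 hjj
    have h2 := hj0min j (by rw [hSdef]; simp [hj])
    rw [habs j hj, habs j0 hj0] at h2 ⊢
    rw [abs_of_nonpos (by linarith)] at h1
    linarith
  have hM : ∀ j, d j < 0 → g - σ ≤ |d j| := by
    intro j hj
    have h1 := hgap i0 j (by rintro rfl; linarith)
    rw [abs_of_pos (by linarith)] at h1
    rw [habs j hj]
    linarith
  -- the product
  set R : Finset ι := (univ.erase i0).erase j0 with hR
  have hj0e : j0 ∈ univ.erase i0 := by simp [hne]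
  have hprod : ∏ i, |d i| = σ * (|d j0| * ∏ i ∈ R, |d i|) := by
    rw [← Finset.mul_prod_erase univ (fun i => |d i|) (mem_univ i0),
      ← Finset.mul_prod_erase (univ.erase i0) (fun i => |d i|) hj0e, abs_of_pos hi0]
  have hcR : R.card + 2 = Fintype.card ι := by
    have h1 : (univ.erase i0).card + 1 = Fintype.card ι := by
      rw [Finset.card_erase_add_one (mem_univ i0), Finset.card_univ]
    have h2 : R.card + 1 = (univ.erase i0).card := Finset.card_erase_add_one hj0e
    omega
  have hRmem : ∀ i ∈ R, i ≠ i0 ∧ i ≠ j0 := by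
    intro i hi
    rw [hR] at hi
    simp only [mem_erase, mem_univ, and_true] at hi
    exact ⟨hi.2, hi.1⟩
  have hg2 : g ^ (Fintype.card ι) / 4 = g ^ 2 / 4 * g ^ R.card := by
    rw [← hcR, pow_add]
    ring
  have hRg : ∀ i ∈ R, g ≤ |d i| := by
    intro i hi
    obtain ⟨h1, h2⟩ := hRmem i hi
    rcases lt_or_gt_of_ne (hd i) with h | h
    · have := hN i h h2
      have := abs_nonneg (d j0)
      linarith
    · have := hP i h h1
      linarith
  rw [hg2, hprod]
  rcases le_or_gt (g / 2) σ with hcase | hcase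
  · have h1 : g ^ R.card ≤ ∏ i ∈ R, |d i| := by
      rw [← Finset.prod_const]
      exact Finset.prod_le_prod (fun _ _ => hg.le) hRg
    have h2 : g / 2 ≤ |d j0| := hcase.trans (hmin j0)
    have h3 : g ^ 2 / 4 ≤ σ * |d j0| := by
      have := mul_le_mul hcase h2 (by positivity) (by linarith)
      linarith [this, show g / 2 * (g / 2) = g ^ 2 / 4 by ring]
    calc g ^ 2 / 4 * g ^ R.card ≤ (σ * |d j0|) * ∏ i ∈ R, |d i| :=
          mul_le_mul h3 h1 (by positivity) (by positivity)
      _ = σ * (|d j0| * ∏ i ∈ R, |d i|) := by ring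
  · -- case 2
    set R1 := R.filter (fun i => d i < 0) with hR1
    set R2 := R.filter (fun i => ¬ d i < 0) with hR2
    have hsplit : ∏ i ∈ R, |d i| = (∏ i ∈ R1, |d i|) * ∏ i ∈ R2, |d i| := by
      rw [hR1, hR2, Finset.prod_filter_mul_prod_filter_not]
    have hcard : R1.card + R2.card = R.card := by
      rw [hR1, hR2]
      exact Finset.card_filter_add_card_filter_not _
    have hSR1 : S = insert j0 R1 := by
      ext j
      simp only [hSdef, hR1, hR, mem_filter, mem_univ, true_and, mem_insert, mem_erase, and_true]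
      constructor
      · intro h
        by_cases hj : j = j0
        · exact Or.inl hj
        · refine Or.inr ⟨⟨hj, ?_⟩, h⟩
          rintro rfl
          linarith
      · rintro (h | h)
        · rw [h]; exact hj0
        · exact h.2
    have hj0R1 : j0 ∉ R1 := by
      simp [hR1, hR]
    have hcS : S.card = R1.card + 1 := by
      rw [hSR1, Finset.card_insert_of_notMem hj0R1]
    have hgσ : 0 < g - σ := by linarith
    -- bound for σ
    have hsum : 1 / σ ≤ (S.card : ℝ) / (g - σ) := by
      have h1 : ∑ i, 1 / d i = ∑ i ∈ S, 1 / d i + ∑ i ∈ univ.filter (fun j => ¬ d j < 0), 1 / d i := by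
        rw [hSdef, Finset.sum_filter_add_sum_filter_not]
      have h2 : 1 / σ ≤ ∑ i ∈ univ.filter (fun j => ¬ d j < 0), 1 / d i := by
        refine Finset.single_le_sum (f := fun i => 1 / d i) ?_ ?_
        · intro i hi
          have := (mem_filter.mp hi).2
          exact one_div_nonneg.mpr (not_lt.mp this)
        · simp only [mem_filter, mem_univ, true_and, not_lt]
          exact hi0.le
      have h3 : - ∑ i ∈ S, 1 / d i ≤ (S.card : ℝ) / (g - σ) := by
        rw [← Finset.sum_neg_distrib]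
        have h4 : ∀ i ∈ S, -(1 / d i) ≤ 1 / (g - σ) := by
          intro i hi
          have hi' : d i < 0 := by
            rw [hSdef] at hi
            exact (mem_filter.mp hi).2
          have h5 := hM i hi'
          rw [habs i hi'] at h5
          have h6 : -(1 / d i) = 1 / (- d i) := by rw [one_div_neg_eq_neg_one_div]
          rw [h6]
          exact one_div_le_one_div_of_le hgσ h5
        refine (Finset.sum_le_card_nsmul S _ _ h4).trans (le_of_eq ?_)
        rw [nsmul_eq_mul]
        ring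
      rw [hs] at h1
      linarith
    set m := R1.card with hm
    have hσm : g - σ ≤ ((m : ℝ) + 1) * σ := by
      rw [hcS] at hsum
      push_cast at hsum
      rw [div_le_div_iff₀ hi0 hgσ] at hsum
      linarith
    have h32 : ∀ i ∈ R1, 3 * g / 2 ≤ |d i| := by
      intro i hi
      have h1 := mem_filter.mp hi
      have h2 := hN i h1.2 (hRmem i h1.1).2
      have h3 := hM j0 hj0
      linarith
    have hp1 : (3 * g / 2) ^ m ≤ ∏ i ∈ R1, |d i| := by
      rw [hm, ← Finset.prod_const]
      exact Finset.prod_le_prod (fun _ _ => by positivity) h32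
    have hp2 : g ^ R2.card ≤ ∏ i ∈ R2, |d i| := by
      rw [← Finset.prod_const]
      exact Finset.prod_le_prod (fun _ _ => hg.le) (fun i hi => hRg i (mem_filter.mp hi).1)
    have hkey : g ^ 2 / 4 ≤ σ * (g - σ) * (3 / 2) ^ m := by
      have hm0 : (0 : ℝ) ≤ m := Nat.cast_nonneg m
      have h1 := crit_aux_num m
      -- (m+2)^2 σ (g-σ) ≥ g^2 (m+1)
      have h2 : g ^ 2 * (m + 1) ≤ ((m : ℝ) + 2) ^ 2 * (σ * (g - σ)) := by
        have h3 : 0 ≤ ((m : ℝ) + 2) * σ - g := by linarith
        have h4 : 0 ≤ ((m : ℝ) + 1) * g - ((m : ℝ) + 2) * σ := by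
          nlinarith
        nlinarith [mul_nonneg h3 h4]
      have h5 : (0 : ℝ) < σ * (g - σ) := mul_pos hi0 hgσ
      have h6 : ((m : ℝ) + 2) ^ 2 * (σ * (g - σ)) ≤
          4 * (3 / 2) ^ m * (m + 1) * (σ * (g - σ)) := mul_le_mul_of_nonneg_right h1 h5.le
      have h7 : g ^ 2 * ((m : ℝ) + 1) ≤ (4 * (σ * (g - σ) * (3 / 2) ^ m)) * (m + 1) := by
        refine (h2.trans h6).trans (le_of_eq ?_)
        ring
      have h8 := le_of_mul_le_mul_right h7 (by linarith)
      linarith
    have hj0' := hM j0 hj0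
    calc g ^ 2 / 4 * g ^ R.card
        ≤ (σ * (g - σ) * (3 / 2) ^ m) * g ^ R.card :=
          mul_le_mul_of_nonneg_right hkey (by positivity)
      _ = σ * ((g - σ) * ((3 * g / 2) ^ m * g ^ R2.card)) := by
          rw [← hcard, pow_add, show (3 * g / 2) ^ m = (3 / 2) ^ m * g ^ m by
            rw [← mul_pow]; ring_nf]
          ring
      _ ≤ σ * (|d j0| * ∏ i ∈ R, |d i|) := by
          rw [hsplit]
          apply mul_le_mul_of_nonneg_left _ hi0.le
          apply mul_le_mul hj0' _ (by positivity) (abs_nonneg _)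
          exact mul_le_mul hp1 hp2 (by positivity) (by positivity)

theorem crit_bound {k : ℕ} (hk : 1 ≤ k) (g : ℕ) (hg : 1 ≤ g) (a : Fin (k + 1) → ℤ)
    (ha : ∀ i j, i ≠ j → (g : ℤ) ≤ |a i - a j|) (c : ℂ) (hc : ∀ i, c ≠ (a i : ℂ))
    (hs : ∑ i, 1 / (c - (a i : ℂ)) = 0) :
    (g : ℝ) ^ (k + 1) / 4 ≤ ‖∏ i, (c - (a i : ℂ))‖ := by
  have hg0 : (0 : ℝ) < g := by exact_mod_cast hg
  have hci : ∀ i, c - (a i : ℂ) ≠ 0 := fun i => sub_ne_zero.mpr (hc i)
  have him : c.im = 0 := by
    have h1 := congrArg Complex.im hs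
    rw [Complex.im_sum, Complex.zero_im] at h1
    have h2 : ∀ i, (1 / (c - (a i : ℂ))).im = - c.im * (1 / Complex.normSq (c - (a i : ℂ))) := by
      intro i
      rw [one_div, Complex.inv_im]
      simp
      ring
    simp only [h2] at h1
    rw [← Finset.mul_sum] at h1
    rcases mul_eq_zero.mp h1 with h3 | h3
    · linarith
    · exfalso
      have h4 : 0 < ∑ i, 1 / Complex.normSq (c - (a i : ℂ)) :=
        Finset.sum_pos (fun i _ => one_div_pos.mpr (Complex.normSq_pos.mpr (hci i)))
          ⟨0, mem_univ _⟩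
      linarith
  have hcr : c = (c.re : ℂ) := by
    apply Complex.ext
    · simp
    · simp [him]
  set x := c.re with hx
  have hd : ∀ i, c - (a i : ℂ) = ((x - a i : ℝ) : ℂ) := by
    intro i
    rw [hcr]
    push_cast
    rfl
  have hnorm : ‖∏ i, (c - (a i : ℂ))‖ = ∏ i, |x - a i| := by
    rw [norm_prod]
    refine Finset.prod_congr rfl fun i _ => ?_
    rw [hd, Complex.norm_real, Real.norm_eq_abs]
  have hdne : ∀ i, x - (a i : ℝ) ≠ 0 := by
    intro i h
    apply hci i
    rw [hd, h]
    simp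
  have hs' : ∑ i, 1 / (x - (a i : ℝ)) = 0 := by
    have h1 : ((∑ i, 1 / (x - (a i : ℝ)) : ℝ) : ℂ) = 0 := by
      rw [← hs]
      push_cast
      refine Finset.sum_congr rfl fun i _ => ?_
      rw [hd]
      push_cast
      rfl
    exact_mod_cast h1
  have hgap : ∀ i j, i ≠ j → (g : ℝ) ≤ |(x - a i) - (x - a j)| := by
    intro i j hij
    have h1 := ha j i (Ne.symm hij)
    have h2 : (x - (a i : ℝ)) - (x - a j) = ((a j - a i : ℤ) : ℝ) := by push_cast; ring
    rw [h2, ← Int.cast_abs]
    exact_mod_cast h1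
  rw [hnorm]
  obtain ⟨i0, _, hi0⟩ := Finset.exists_min_image (univ : Finset (Fin (k + 1)))
    (fun i => |x - (a i : ℝ)|) ⟨0, mem_univ _⟩
  rcases lt_or_gt_of_ne (hdne i0) with hlt | hgt
  · have h := crit_real (g : ℝ) hg0 (fun i => - (x - (a i : ℝ))) (fun i => neg_ne_zero.mpr (hdne i))
      (fun i j hij => by
        have := hgap j i (Ne.symm hij)
        have h2 : -(x - (a i : ℝ)) - -(x - (a j : ℝ)) = (x - a j) - (x - a i) := by ring
        rw [h2]
        exact this)
      (by
        have : ∀ i, 1 / (-(x - (a i : ℝ))) = -(1 / (x - (a i : ℝ))) :=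
          fun i => one_div_neg_eq_neg_one_div _
        simp only [this, Finset.sum_neg_distrib, hs', neg_zero])
      i0 (by linarith)
      (fun j => by
        rw [abs_neg]
        have := hi0 j (mem_univ _)
        rw [abs_of_neg hlt] at this
        exact this)
    simp only [abs_neg, Fintype.card_fin] at h
    exact h
  · have h := crit_real (g : ℝ) hg0 (fun i => x - (a i : ℝ)) hdne hgap hs' i0 hgt
      (fun j => by
        have := hi0 j (mem_univ _)
        rw [abs_of_pos hgt] at this
        exact this)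
    simp only [Fintype.card_fin] at h
    exact h

end P4a177e
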