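import Pool.Agent.Lib.P4a177h.Main
import Pool.Agent.Lib.P4a177s.Terms
import Pool.Agent.Lib.P4a177s.Adm

/-!
# Every member of the families `N * ∏_s ∏_i (x_s - a_{s,i}) = 1`: definitions

The notation of the proof. `A : Fam d` consists of `d + 2` lists of distinct integers `a_{s,i}`,
`i : Fin (m s + 1)`. We fix an index `q s` in every list (the point of the hypersurface at which all
the `x_s - a_{s,q s}` but the one with `s = 0` are of absolute value `ρ = g / 3`). The torus has the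
coordinates `x_{j+1} = a_{j+1,q} + ρ e^{i θ_j}`, `j : Fin (d + 1)`, and `x_0 = a_{0,q} + z(θ)`.
-/

set_option autoImplicit false

namespace P4a177e

open P4a177h Function MeasureTheory
open scoped Real

noncomputable section

/-- The radius `ρ` of the circles. -/
def rad (g : ℕ) : ℝ := g / 3

/-- The function `ρ e^{it} / (ρ e^{it} + b)`, that is, `-i d/dt log (ρ e^{it} + b)`. -/
def ph (ρ : ℝ) (b : ℂ) (t : ℝ) : ℂ :=
  ρ * Complex.exp (t * Complex.I) / (ρ * Complex.exp (t * Complex.I) + b)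

/-- The function `log |1 + ρ e^{it} / b|` (zero for `b = 0`). -/
def lm (ρ : ℝ) (b : ℂ) (t : ℝ) : ℝ := Real.log ‖1 + ρ * Complex.exp (t * Complex.I) / b‖

/-- The constant term of `log |ρ e^{it} + b|`. -/
def cc (ρ : ℝ) (b : ℂ) : ℝ := if b = 0 then Real.log ρ else Real.log ‖b‖

variable {d : ℕ} (A : Fam d) (g N : ℕ) (q : ∀ s, Fin (A.m s + 1))

/-- Any two numbers of the same list differ by at least `g`. -/
def Gap : Prop := ∀ (s : Fin (d + 2)) (i j : Fin (A.m s + 1)), i ≠ j → (g : ℤ) ≤ |A.a s i - A.a s j|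

/-- The assumptions. -/
structure Good : Prop where
  one_le_m : ∀ s, 1 ≤ A.m s
  one_le_g : 1 ≤ g
  g_le : g ≤ 3
  one_le_N : 1 ≤ N
  gap : Gap A g
  big : 16 ^ (d + 2) ≤ N * (g ^ 3) ^ (d + 2)

/-- The difference `a_{s,q s} - a_{s,i}`. -/
def df (s : Fin (d + 2)) (i : Fin (A.m s + 1)) : ℤ := A.a s (q s) - A.a s i

/-- The bound `ρ / (|a_{s,q s} - a_{s,i}| - ρ)` for the functions `ph` and `lm`. -/
def fb (s : Fin (d + 2)) (i : Fin (A.m s + 1)) : ℝ := rad g / (|(df A q s i : ℝ)| - rad g)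

/-- The bound of `ph`: it is `1` for `i = q s`. -/
def fF (s : Fin (d + 2)) (i : Fin (A.m s + 1)) : ℝ := if i = q s then 1 else fb A g q s i

/-- The bound of `lm`: it is `0` for `i = q s`. -/
def fG (s : Fin (d + 2)) (i : Fin (A.m s + 1)) : ℝ := if i = q s then 0 else fb A g q s i

/-- The sum of the bounds. -/
def SS (s : Fin (d + 2)) : ℝ := ∑ i, fF A g q s i

/-- A lower bound of `|∏_i (x_s - a_{s,i})|` on the circle. -/
def DD (s : Fin (d + 2)) : ℝ :=
  rad g * ∏ i ∈ Finset.univ.erase (q s), (|(df A q s i : ℝ)| - rad g)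

/-- The bound of `|z| / ρ`. -/
def rr : ℝ := 1 / (N * ∏ s, DD A g q s)

/-- The constant in the bound of the logarithmic derivative of `z`. -/
def kk : ℝ := 1 / (1 - rr A g N q * (SS A g q 0 - 1))

/-- The bound of `WW`. -/
def wB (i : Fin (A.m 0 + 1)) : ℝ :=
  rr A g N q * if i = q 0 then SS A g q 0 - 1 else fb A g q 0 i

/-- The bound of the error term of the regulator with the entries `x_s - a_{s,i s}`. -/
def EB (i : ∀ s, Fin (A.m s + 1)) : ℝ :=
  wB A g N q (i 0) * ∏ j : Fin (d + 1), fF A g q j.succ (i j.succ) +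
    ∑ j : Fin (d + 1), wB A g N q (i 0) * kk A g N q * SS A g q j.succ *
      fG A g q j.succ (i j.succ) *
      ∏ l ∈ Finset.univ.erase j, fF A g q (Fin.succ l) (i (Fin.succ l))

/-- The Laplacian of the complete graph on the list with the weights `log |a_{s,i} - a_{s,j}|`. -/
def lap (s : Fin (d + 2)) (i : Fin (A.m s + 1)) : ℝ :=
  if i = q s then ∑ k ∈ Finset.univ.erase (q s), Real.log |(df A q s k : ℝ)|
  else -Real.log |(df A q s i : ℝ)|

/-- The main term of the regulator, divided by `(2π)^(d+1)`. -/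
def mm (i : ∀ s, Fin (A.m s + 1)) : ℝ :=
  -(Real.log N * (∏ s, if i s = q s then 1 else 0) +
    ∑ s, lap A q s (i s) * ∏ t ∈ Finset.univ.erase s, if i t = q t then 1 else 0)

/-- The torus around the roots `a_{s,q s}`. -/
structure Tor where
  /-- the torus -/
  γ : Torus (d + 1) (A.CoordRing N)
  /-- the function `x_0 - a_{0,q 0}` -/
  z : (Fin (d + 1) → ℝ) → ℂ
  z_le : ∀ θ, ‖z θ‖ ≤ rad g * rr A g N q
  emb_zero : ∀ (θ : Fin (d + 1) → ℝ) (i : Fin (A.m 0 + 1)),
    γ.emb θ (A.lin N 0 i) = z θ + (df A q 0 i : ℂ)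
  emb_succ : ∀ (θ : Fin (d + 1) → ℝ) (j : Fin (d + 1)) (i : Fin (A.m j.succ + 1)),
    γ.emb θ (A.lin N j.succ i) =
      rad g * Complex.exp (θ j * Complex.I) + (df A q j.succ i : ℂ)

variable {A g N q}

/-- The function `log (1 + z / (a_{0,q} - a_{0,i}))`; it is `0` for `i = q 0`. -/
def VV (T : Tor A g N q) (i : Fin (A.m 0 + 1)) (θ : Fin (d + 1) → ℝ) : ℂ :=
  Complex.log (1 + T.z θ / (df A q 0 i : ℂ))

/-- The variable part of `log (x_0 - a_{0,i})`. -/
def WW (T : Tor A g N q) (i : Fin (A.m 0 + 1)) (θ : Fin (d + 1) → ℝ) : ℂ :=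
  if i = q 0 then -∑ k, VV T k θ else VV T i θ

end

end P4a177e
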