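import Pool.Agent.Lib.P4a177e.Num

/-!
# MODULE P4a177e.DerivA: the function `WW` (est. 1.0 h)

PROOF. `T.z θ = T.γ.emb θ (A.lin N 0 (q 0))` (`emb_zero`, `df A q 0 (q 0) = 0`), so `T.z` is `C²` and
periodic (`Torus.contDiff`, `Torus.periodic`). For `i ≠ q 0`, `b = df A q 0 i`:
`‖T.z θ / b‖ ≤ ρ rr / |b| < 1` (`rad_lt`, `rr_lt_one`), so `1 + z/b` has positive real part, is in
`Complex.slitPlane`, and `VV T i` is `C²` (`ContDiffAt.clog`). For `i = q 0`: `z / 0 = 0`,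
`VV T (q 0) = 0`.
BOUND. `‖log (1 + u)‖ ≤ -log (1 - ‖u‖) ≤ ‖u‖ / (1 - ‖u‖)` for `‖u‖ < 1`
(Mathlib: `Complex.norm_log_one_add_sub_self_le`… search `norm_log_one_add`; e.g.
`Complex.norm_log_sub_logTaylor_le`, or the integral of `1/(1+tu)`), so with
`‖z‖ ≤ ρ rr`: `‖VV T i θ‖ ≤ ‖z‖/(|b| - ‖z‖) ≤ ρ rr/(|b| - ρ rr) ≤ rr * ρ/(|b| - ρ) = rr * fb`.
Sum over `i ≠ q 0`: `∑_{i≠q 0} fb = SS 0 - 1`.
-/

set_option autoImplicit false

namespace P4a177e

open P4a177h Function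
open scoped Real

variable {d : ℕ} {A : Fam d} {g N : ℕ} {q : ∀ s, Fin (A.m s + 1)}

namespace DerivAAux

theorem df_self (A : Fam d) (q : ∀ s, Fin (A.m s + 1)) (s : Fin (d + 2)) :
    df A q s (q s) = 0 := by
  simp [df]

theorem z_eq (T : Tor A g N q) : T.z = fun θ => T.γ.emb θ (A.lin N 0 (q 0)) := by
  funext θ
  rw [T.emb_zero, df_self]
  simp

theorem norm_log_le {u : ℂ} (hu : ‖u‖ < 1) : ‖Complex.log (1 + u)‖ ≤ ‖u‖ / (1 - ‖u‖) := by
  have h := Complex.norm_log_one_add_le hu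
  have h1 : 0 < 1 - ‖u‖ := by linarith
  have h2 : ‖u‖ / (1 - ‖u‖) = ‖u‖ ^ 2 * (1 - ‖u‖)⁻¹ + ‖u‖ := by
    field_simp
    ring
  rw [h2]
  have h3 : 0 ≤ ‖u‖ ^ 2 * (1 - ‖u‖)⁻¹ := by positivity
  linarith

theorem norm_div_lt (h : Good A g N) (T : Tor A g N q) (i : Fin (A.m 0 + 1)) (hi : i ≠ q 0)
    (θ : Fin (d + 1) → ℝ) : ‖T.z θ‖ < |(df A q 0 i : ℝ)| := by
  have h1 := T.z_le θ
  have h2 := rr_lt_one h q
  have h3 := rad_pos h
  have h4 := rad_lt h q 0 i hi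
  nlinarith

theorem norm_u_lt (h : Good A g N) (T : Tor A g N q) (i : Fin (A.m 0 + 1)) (hi : i ≠ q 0)
    (θ : Fin (d + 1) → ℝ) : ‖T.z θ / (df A q 0 i : ℂ)‖ < 1 := by
  have h1 := norm_div_lt h T i hi θ
  have h2 : 0 < |(df A q 0 i : ℝ)| := lt_of_le_of_lt (norm_nonneg _) h1
  rw [norm_div, Complex.norm_intCast, div_lt_one h2]
  exact h1

theorem VV_self (T : Tor A g N q) (θ : Fin (d + 1) → ℝ) : VV T (q 0) θ = 0 := by
  unfold VV
  rw [df_self]
  simp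

theorem VV_norm_le (h : Good A g N) (T : Tor A g N q) (i : Fin (A.m 0 + 1)) (hi : i ≠ q 0)
    (θ : Fin (d + 1) → ℝ) : ‖VV T i θ‖ ≤ rr A g N q * fb A g q 0 i := by
  have hu := norm_u_lt h T i hi θ
  have h0 := norm_log_le hu
  refine le_trans h0 ?_
  rw [norm_div, Complex.norm_intCast]
  have h1 := norm_div_lt h T i hi θ
  have h2 : 0 < |(df A q 0 i : ℝ)| := lt_of_le_of_lt (norm_nonneg _) h1
  have h3 := rad_pos h
  have h4 := rad_lt h q 0 i hi
  have h5 := rr_lt_one h q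
  have h6 := rr_pos h q
  have h7 := T.z_le θ
  set b : ℝ := |(df A q 0 i : ℝ)| with hb
  have e1 : ‖T.z θ‖ / b / (1 - ‖T.z θ‖ / b) = ‖T.z θ‖ / (b - ‖T.z θ‖) := by
    have : b - ‖T.z θ‖ ≠ 0 := by linarith [h1]
    field_simp
  rw [e1]
  unfold fb
  rw [← hb, ← mul_div_assoc, div_le_div_iff₀ (by linarith) (by linarith)]
  have h8 : 0 ≤ ‖T.z θ‖ := norm_nonneg _
  have h9 : rad g * rr A g N q ≤ rad g := by nlinarith
  nlinarith [mul_nonneg (sub_nonneg.2 h7) (sub_pos.2 h4).le,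
    mul_nonneg (mul_pos h6 h3).le (sub_nonneg.2 (h7.trans h9))]

theorem SS_sub_one (A : Fam d) (g : ℕ) (q : ∀ s, Fin (A.m s + 1)) (s : Fin (d + 2)) :
    SS A g q s - 1 = ∑ i ∈ Finset.univ.erase (q s), fb A g q s i := by
  unfold SS
  rw [← Finset.add_sum_erase _ _ (Finset.mem_univ (q s))]
  have h1 : fF A g q s (q s) = 1 := by simp [fF]
  rw [h1, add_sub_cancel_left]
  refine Finset.sum_congr rfl fun i hi => ?_
  unfold fF
  rw [if_neg (Finset.ne_of_mem_erase hi)]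

end DerivAAux

open DerivAAux

theorem z_contDiff (T : Tor A g N q) : ContDiff ℝ 2 T.z := by
  rw [z_eq]
  exact T.γ.contDiff _

theorem z_periodic (T : Tor A g N q) (θ : Fin (d + 1) → ℝ) (l : Fin (d + 1)) :
    T.z (update θ l (θ l + 2 * π)) = T.z θ := by
  rw [z_eq]
  exact T.γ.periodic _ _ _

theorem one_add_slit (h : Good A g N) (T : Tor A g N q) (i : Fin (A.m 0 + 1))
    (θ : Fin (d + 1) → ℝ) : 1 + T.z θ / (df A q 0 i : ℂ) ∈ Complex.slitPlane := by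
  by_cases hi : i = q 0
  · subst hi
    rw [df_self]
    simp
  · exact Complex.mem_slitPlane_of_norm_lt_one (norm_u_lt h T i hi θ)

theorem VV_contDiff (h : Good A g N) (T : Tor A g N q) (i : Fin (A.m 0 + 1)) :
    ContDiff ℝ 2 (VV T i) := by
  rw [contDiff_iff_contDiffAt]
  intro θ
  have h1 : ContDiffAt ℝ 2 (fun θ => 1 + T.z θ / (df A q 0 i : ℂ)) θ :=
    contDiffAt_const.add ((z_contDiff T).contDiffAt.div_const _)
  exact ContDiffAt.comp θ (g := Complex.log)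
    ((Complex.contDiffAt_log (one_add_slit h T i θ)).restrict_scalars ℝ) h1

theorem WW_contDiff (h : Good A g N) (T : Tor A g N q) (i : Fin (A.m 0 + 1)) :
    ContDiff ℝ 2 (WW T i) := by
  by_cases hi : i = q 0
  · have : WW T i = fun θ => -∑ k, VV T k θ := by
      funext θ
      simp [WW, hi]
    rw [this]
    exact (ContDiff.sum fun k _ => VV_contDiff h T k).neg
  · have : WW T i = VV T i := by
      funext θ
      simp [WW, hi]
    rw [this]
    exact VV_contDiff h T i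

theorem WW_periodic (T : Tor A g N q) (i : Fin (A.m 0 + 1)) (θ : Fin (d + 1) → ℝ)
    (l : Fin (d + 1)) : WW T i (update θ l (θ l + 2 * π)) = WW T i θ := by
  unfold WW VV
  rw [z_periodic]

theorem WW_norm_le (h : Good A g N) (T : Tor A g N q) (i : Fin (A.m 0 + 1))
    (θ : Fin (d + 1) → ℝ) : ‖WW T i θ‖ ≤ wB A g N q i := by
  unfold WW wB
  split_ifs with hi
  · rw [norm_neg, SS_sub_one, Finset.mul_sum, ← Finset.add_sum_erase _ _ (Finset.mem_univ (q 0)),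
      VV_self, zero_add]
    exact (norm_sum_le _ _).trans
      (Finset.sum_le_sum fun k hk => VV_norm_le h T k (Finset.ne_of_mem_erase hk) θ)
  · exact VV_norm_le h T i hi θ

end P4a177e
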