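import Pool.Agent.Lib.P4a177e.DerivA
import Pool.Agent.Lib.P4a177e.Circ

/-!
# MODULE P4a177e.DerivB: the logarithmic derivatives (est. 1.5 h)

PROOF. Let `D = fderiv ℝ T.z θ (Pi.single j 1)`, `ρ = rad g`, `ph_k = ph ρ (df A q j.succ k) (θ j)`.
The image of `A.eqn_lin N` under `T.γ.emb` is (`emb_zero`, `emb_succ`, `Fin.prod_univ_succ`)
`N * (∏_k (z θ + df 0 k)) * ∏_j ∏_k (ρ e^{iθ_j} + df j.succ k) = 1` for all `θ`. All the factors are
nonzero; the logarithmic derivative in the direction `Pi.single j 1`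
(`P4a177h.TorPts_logDeriv_prod`) is
`(*)  ∑_k D / (z + df 0 k) + ∑_k I * ph_k = 0`
(the derivative of `ρ e^{iθ_l} + b` is `0` for `l ≠ j` and `I ρ e^{iθ_j}` for `l = j`; see
`P4a177h.TorPts_L_fderiv` and `P4a177s.fderiv_circle`). Also
`fderiv ℝ (VV T k) θ (Pi.single j 1) = D / (z + df 0 k)` for `k ≠ q 0` and `0` for `k = q 0`.
* `dlogRow_zero`, `i ≠ q 0`: `dlogRow = -I * D / (z + df 0 i)`.
  `i = q 0`: `df 0 i = 0` and `(*)`: `D / z = -I ∑ ph_k - ∑_{k≠q 0} D/(z + df 0 k)
  = -I ∑ ph_k + fderiv (WW T (q 0))`; multiply by `-I`.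
* `WW_fderiv_le`: `(*)` reads `(D / z) (1 + ∑_{k≠q 0} z/(z + df 0 k)) = -I ∑_k ph_k`. Here
  `‖z/(z + df 0 k)‖ ≤ ρ rr/(|df| - ρ rr) ≤ rr * fb 0 k`, so the second factor has norm
  `≥ 1 - rr (SS 0 - 1) > 0`, and `‖∑_k ph_k‖ ≤ SS j.succ` (`ph_zero`, `ph_norm_le`), hence
  `‖D / z‖ ≤ kk * SS j.succ`, `‖D/(z + df 0 k)‖ ≤ kk * SS j.succ * rr * fb 0 k`. Sum for `i = q 0`.
* `emb_succ` entries: `log_norm_circle`; `dlogRow` of `ρ e^{iθ_j} + b` is `ph ρ b (θ j)` in the
  direction `j` and `0` in the others.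
-/

set_option autoImplicit false

namespace P4a177e

open P4a177h Function
open scoped Real

variable {d : ℕ} {A : Fam d} {g N : ℕ} {q : ∀ s, Fin (A.m s + 1)}

namespace DerivBAux

theorem df_cases (h : Good A g N) (s : Fin (d + 2)) (i : Fin (A.m s + 1)) :
    (df A q s i : ℂ) = 0 ∨ rad g < ‖(df A q s i : ℂ)‖ := by
  by_cases hi : i = q s
  · left; subst hi; simp [df]
  · right
    rw [Complex.norm_intCast]
    exact rad_lt h q s i hi

theorem fderiv_circ (j : Fin (d + 1)) (ρ b : ℂ) (θ : Fin (d + 1) → ℝ) (l : Fin (d + 1)) :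
    fderiv ℝ (fun θ : Fin (d + 1) → ℝ => ρ * Complex.exp (θ j * Complex.I) + b) θ
      (Pi.single l 1) = if l = j then Complex.I * (ρ * Complex.exp (θ j * Complex.I)) else 0 := by
  have h1 : HasFDerivAt (fun θ : Fin (d + 1) → ℝ => ((θ j : ℝ) : ℂ))
      (Complex.ofRealCLM.comp
        (ContinuousLinearMap.proj (R := ℝ) (φ := fun _ : Fin (d + 1) => ℝ) j)) θ :=
    (Complex.ofRealCLM.comp
      (ContinuousLinearMap.proj (R := ℝ) (φ := fun _ : Fin (d + 1) => ℝ) j)).hasFDerivAt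
  have h2 := (((h1.mul_const Complex.I).cexp).const_mul ρ).add_const b
  rw [h2.fderiv]
  simp only [smul_apply, ContinuousLinearMap.comp_apply,
    ContinuousLinearMap.proj_apply, smul_eq_mul, Complex.ofRealCLM_apply]
  by_cases hl : l = j
  · subst hl
    rw [if_pos rfl, Pi.single_eq_same, Complex.ofReal_one, mul_one]
    ring
  · rw [if_neg hl, Pi.single_eq_of_ne (Ne.symm hl)]
    simp

theorem emb_ne (T : Tor A g N q) (s : Fin (d + 2)) (i : Fin (A.m s + 1))
    (θ : Fin (d + 1) → ℝ) : T.γ.emb θ (A.lin N s i) ≠ 0 :=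
  ((A.isUnit_lin N s i).map (T.γ.emb θ)).ne_zero

theorem star (h : Good A g N) (T : Tor A g N q) (θ : Fin (d + 1) → ℝ) (j : Fin (d + 1)) :
    ∑ k, fderiv ℝ T.z θ (Pi.single j 1) / (T.z θ + (df A q 0 k : ℂ)) +
      Complex.I * ∑ k, ph (rad g) (df A q j.succ k : ℂ) (θ j) = 0 := by
  classical
  set v : Fin (d + 1) → ℝ := Pi.single j 1 with hv
  have hN : (N : ℂ) ≠ 0 := by
    have := h.one_le_N
    exact_mod_cast (by omega : N ≠ 0)
  have hd : ∀ (s : Fin (d + 2)) (i : Fin (A.m s + 1)),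
      DifferentiableAt ℝ (fun θ => T.γ.emb θ (A.lin N s i)) θ := fun s i =>
    ((T.γ.contDiff (A.lin N s i)).differentiable (by norm_num)).differentiableAt
  have hd2 : ∀ (s : Fin (d + 2)),
      DifferentiableAt ℝ (fun θ => ∏ i, T.γ.emb θ (A.lin N s i)) θ := fun s =>
    (HasFDerivAt.finsetProd fun i _ => (hd s i).hasFDerivAt).differentiableAt
  have hconst : (fun θ => ∏ s, ∏ i, T.γ.emb θ (A.lin N s i)) = fun _ => (N : ℂ)⁻¹ := by
    funext θ
    have h1 := congrArg (T.γ.emb θ) (A.eqn_lin N)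
    rw [map_mul, map_natCast, map_prod, map_one] at h1
    simp only [map_prod] at h1
    exact eq_inv_of_mul_eq_one_right h1
  have h2 := TorPts_logDeriv_prod Finset.univ (fun s θ => ∏ i, T.γ.emb θ (A.lin N s i)) θ v
    (fun s _ => hd2 s) (fun s _ => Finset.prod_ne_zero_iff.2 fun i _ => emb_ne T s i θ)
  rw [hconst] at h2
  simp only [fderiv_fun_const, Pi.zero_apply, zero_apply, zero_div] at h2
  have h3 : ∀ s, fderiv ℝ (fun θ => ∏ i, T.γ.emb θ (A.lin N s i)) θ v /
      (∏ i, T.γ.emb θ (A.lin N s i)) =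
      ∑ i, fderiv ℝ (fun θ => T.γ.emb θ (A.lin N s i)) θ v / T.γ.emb θ (A.lin N s i) := fun s =>
    TorPts_logDeriv_prod Finset.univ (fun i θ => T.γ.emb θ (A.lin N s i)) θ v
      (fun i _ => hd s i) (fun i _ => emb_ne T s i θ)
  simp only [h3] at h2
  rw [Fin.sum_univ_succ] at h2
  have h4 : ∀ l : Fin (d + 1), ∑ i, fderiv ℝ (fun θ => T.γ.emb θ (A.lin N l.succ i)) θ v /
      T.γ.emb θ (A.lin N l.succ i) =
      if l = j then Complex.I * ∑ k, ph (rad g) (df A q j.succ k : ℂ) (θ j) else 0 := by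
    intro l
    have h5 : ∀ i, fderiv ℝ (fun θ => T.γ.emb θ (A.lin N l.succ i)) θ v =
        if j = l then Complex.I * ((rad g : ℂ) * Complex.exp (θ l * Complex.I)) else 0 := by
      intro i
      have : (fun θ => T.γ.emb θ (A.lin N l.succ i)) = fun θ : Fin (d + 1) → ℝ =>
          (rad g : ℂ) * Complex.exp (θ l * Complex.I) + (df A q l.succ i : ℂ) :=
        funext fun θ => T.emb_succ θ l i
      rw [this, hv, fderiv_circ]
    by_cases hl : l = j
    · subst hl
      rw [if_pos rfl, Finset.mul_sum]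
      refine Finset.sum_congr rfl fun i _ => ?_
      rw [h5, if_pos rfl, T.emb_succ]
      unfold ph
      rw [mul_div_assoc]
    · rw [if_neg hl]
      refine Finset.sum_eq_zero fun i _ => ?_
      rw [h5, if_neg (Ne.symm hl), zero_div]
  simp only [h4] at h2
  rw [Finset.sum_ite_eq' Finset.univ j, if_pos (Finset.mem_univ _)] at h2
  rw [h2]
  congr 1
  refine Finset.sum_congr rfl fun k _ => ?_
  have h6 : fderiv ℝ (fun θ => T.γ.emb θ (A.lin N 0 k)) θ = fderiv ℝ T.z θ := by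
    have : (fun θ => T.γ.emb θ (A.lin N 0 k)) = fun θ => T.z θ + (df A q 0 k : ℂ) :=
      funext fun θ => T.emb_zero θ k
    rw [this]
    exact fderiv_add_const _
  rw [h6, T.emb_zero]

theorem df_self : (df A q 0 (q 0) : ℂ) = 0 := by simp [df]

theorem fderiv_VV (h : Good A g N) (T : Tor A g N q) (k : Fin (A.m 0 + 1))
    (θ : Fin (d + 1) → ℝ) (v : Fin (d + 1) → ℝ) :
    fderiv ℝ (VV T k) θ v =
      if k = q 0 then 0 else fderiv ℝ T.z θ v / (T.z θ + (df A q 0 k : ℂ)) := by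
  by_cases hk : k = q 0
  · rw [if_pos hk]
    have : VV T k = fun _ => 0 := by
      funext θ
      unfold VV
      rw [hk, df_self, div_zero, add_zero, Complex.log_one]
    rw [this]
    simp
  · rw [if_neg hk]
    set b : ℂ := (df A q 0 k : ℂ) with hb
    have hb0 : b ≠ 0 := by
      intro h0
      have h1 := rad_lt h q 0 k hk
      rw [hb] at h0
      have h2 : df A q 0 k = 0 := by exact_mod_cast h0
      rw [h2] at h1
      have h3 := rad_pos h
      simp at h1
      linarith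
    have hs := one_add_slit h T k θ
    rw [← hb] at hs
    have h1 : HasFDerivAt T.z (fderiv ℝ T.z θ) θ :=
      ((z_contDiff T).differentiable (by norm_num)).differentiableAt.hasFDerivAt
    have h2 : HasFDerivAt (fun θ => 1 + T.z θ / b) (b⁻¹ • fderiv ℝ T.z θ) θ := by
      have := (h1.mul_const b⁻¹).const_add 1
      simpa only [div_eq_mul_inv] using this
    have h3 := (Complex.hasStrictDerivAt_log hs).hasDerivAt.hasFDerivAt.restrictScalars ℝ
    have h4 := HasFDerivAt.comp (g := Complex.log) (f := fun θ => 1 + T.z θ / b) θ h3 h2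
    have h5 : fderiv ℝ (VV T k) θ = _ := HasFDerivAt.fderiv h4
    rw [h5]
    simp only [ContinuousLinearMap.comp_apply, ContinuousLinearMap.coe_restrictScalars',
      smul_apply, smul_eq_mul]
    have h6 : T.z θ + b ≠ 0 := by
      have := emb_ne T 0 k θ
      rwa [T.emb_zero] at this
    have h7 : 1 + T.z θ / b ≠ 0 := Complex.slitPlane_ne_zero hs
    simp
    have h8 : b + T.z θ ≠ 0 := by rwa [add_comm]
    field_simp
    ring

theorem fderiv_WW (h : Good A g N) (T : Tor A g N q) (i : Fin (A.m 0 + 1))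
    (θ : Fin (d + 1) → ℝ) (v : Fin (d + 1) → ℝ) :
    fderiv ℝ (WW T i) θ v =
      if i = q 0 then -∑ k ∈ Finset.univ.erase (q 0),
        fderiv ℝ T.z θ v / (T.z θ + (df A q 0 k : ℂ))
      else fderiv ℝ T.z θ v / (T.z θ + (df A q 0 i : ℂ)) := by
  classical
  by_cases hi : i = q 0
  · rw [if_pos hi]
    have h0 : WW T i = fun θ => -∑ k, VV T k θ := by
      funext θ
      unfold WW
      rw [if_pos hi]
    have hd : ∀ k, HasFDerivAt (VV T k) (fderiv ℝ (VV T k) θ) θ := fun k =>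
      ((VV_contDiff h T k).differentiable (by norm_num)).differentiableAt.hasFDerivAt
    have h1 : HasFDerivAt (fun θ => -∑ k, VV T k θ) (-∑ k, fderiv ℝ (VV T k) θ) θ :=
      (HasFDerivAt.fun_sum fun k _ => hd k).neg
    rw [h0, h1.fderiv, neg_apply, sum_apply]
    simp only [fderiv_VV h T]
    rw [← Finset.add_sum_erase _ _ (Finset.mem_univ (q 0)), if_pos rfl, zero_add]
    congr 1
    refine Finset.sum_congr rfl fun k hk => ?_
    rw [if_neg (Finset.ne_of_mem_erase hk)]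
  · rw [if_neg hi]
    have h0 : WW T i = VV T i := by
      funext θ
      unfold WW
      rw [if_neg hi]
    rw [h0, fderiv_VV h T, if_neg hi]

theorem SS_eq (s : Fin (d + 2)) :
    SS A g q s = 1 + ∑ i ∈ Finset.univ.erase (q s), fb A g q s i := by
  classical
  unfold SS
  rw [← Finset.add_sum_erase _ _ (Finset.mem_univ (q s))]
  congr 1
  · simp [fF]
  · refine Finset.sum_congr rfl fun k hk => ?_
    simp [fF, Finset.ne_of_mem_erase hk]

theorem z_ne (T : Tor A g N q) (θ : Fin (d + 1) → ℝ) : T.z θ ≠ 0 := by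
  have := emb_ne T 0 (q 0) θ
  rwa [T.emb_zero, df_self, add_zero] at this

theorem z_div_le (h : Good A g N) (T : Tor A g N q) (θ : Fin (d + 1) → ℝ)
    (k : Fin (A.m 0 + 1)) (hk : k ≠ q 0) :
    ‖T.z θ / (T.z θ + (df A q 0 k : ℂ))‖ ≤ rr A g N q * fb A g q 0 k := by
  have h1 := rad_lt h q 0 k hk
  have h2 := T.z_le θ
  have h3 := rr_lt_one h q
  have h4 := rr_pos h q
  have h5 := rad_pos h
  have h6 : ‖T.z θ‖ ≤ rad g := by
    refine h2.trans ?_
    have := mul_le_mul_of_nonneg_left h3.le h5.le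
    linarith
  have h7 : |(df A q 0 k : ℝ)| - rad g ≤ ‖T.z θ + (df A q 0 k : ℂ)‖ := by
    have h8 := norm_sub_le (T.z θ + (df A q 0 k : ℂ)) (T.z θ)
    rw [add_sub_cancel_left, Complex.norm_intCast] at h8
    linarith
  have h9 : 0 < |(df A q 0 k : ℝ)| - rad g := by linarith
  rw [norm_div]
  unfold fb
  rw [← mul_div_assoc]
  refine div_le_div₀ (by positivity) ?_ h9 h7
  linarith

theorem ph_le (h : Good A g N) (s : Fin (d + 2)) (i : Fin (A.m s + 1)) (t : ℝ) :
    ‖ph (rad g) (df A q s i : ℂ) t‖ ≤ fF A g q s i := by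
  unfold fF
  by_cases hi : i = q s
  · rw [if_pos hi]
    have : (df A q s i : ℂ) = 0 := by subst hi; simp [df]
    rw [this, ph_zero (rad_pos h)]
    simp
  · rw [if_neg hi]
    have h1 : rad g < ‖(df A q s i : ℂ)‖ := by
      rw [Complex.norm_intCast]; exact rad_lt h q s i hi
    have h2 := ph_norm_le (rad_pos h) h1 t
    rw [Complex.norm_intCast] at h2
    exact h2

/-- The bound of the logarithmic derivative of `z`. -/
theorem logz_le (h : Good A g N) (T : Tor A g N q) (θ : Fin (d + 1) → ℝ) (j : Fin (d + 1)) :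
    ‖fderiv ℝ T.z θ (Pi.single j 1) / T.z θ‖ ≤ kk A g N q * SS A g q j.succ := by
  classical
  set D := fderiv ℝ T.z θ (Pi.single j 1) with hD
  have hz := z_ne T θ
  have h1 := star h T θ j
  rw [← hD, ← Finset.add_sum_erase _ _ (Finset.mem_univ (q 0)), df_self, add_zero] at h1
  have h2 : D / T.z θ * (1 + ∑ k ∈ Finset.univ.erase (q 0),
      T.z θ / (T.z θ + (df A q 0 k : ℂ))) =
      -(Complex.I * ∑ k, ph (rad g) (df A q j.succ k : ℂ) (θ j)) := by
    rw [mul_add, mul_one, Finset.mul_sum]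
    have h3 : ∑ k ∈ Finset.univ.erase (q 0), D / T.z θ * (T.z θ / (T.z θ + (df A q 0 k : ℂ))) =
        ∑ k ∈ Finset.univ.erase (q 0), D / (T.z θ + (df A q 0 k : ℂ)) := by
      refine Finset.sum_congr rfl fun k _ => ?_
      rw [div_mul_div_cancel₀ hz]
    rw [h3]
    linear_combination h1
  have h4 : ‖∑ k ∈ Finset.univ.erase (q 0), T.z θ / (T.z θ + (df A q 0 k : ℂ))‖ ≤
      rr A g N q * (SS A g q 0 - 1) := by
    rw [SS_eq, add_sub_cancel_left, Finset.mul_sum]
    exact (norm_sum_le _ _).trans (Finset.sum_le_sum fun k hk =>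
      z_div_le h T θ k (Finset.ne_of_mem_erase hk))
  have h5 : 1 - rr A g N q * (SS A g q 0 - 1) ≤ ‖1 + ∑ k ∈ Finset.univ.erase (q 0),
      T.z θ / (T.z θ + (df A q 0 k : ℂ))‖ := by
    have h6 := norm_sub_le (1 + ∑ k ∈ Finset.univ.erase (q 0),
      T.z θ / (T.z θ + (df A q 0 k : ℂ))) (∑ k ∈ Finset.univ.erase (q 0),
      T.z θ / (T.z θ + (df A q 0 k : ℂ)))
    rw [add_sub_cancel_right, norm_one] at h6
    linarith
  have h7 := rr_mul_lt h q
  have h8 : ‖∑ k, ph (rad g) (df A q j.succ k : ℂ) (θ j)‖ ≤ SS A g q j.succ := by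
    unfold SS
    exact (norm_sum_le _ _).trans (Finset.sum_le_sum fun k _ => ph_le h _ k _)
  have h9 := congrArg norm h2
  rw [norm_mul, norm_neg, norm_mul, Complex.norm_I, one_mul] at h9
  unfold kk
  rw [one_div, inv_mul_eq_div, le_div_iff₀ (by linarith)]
  calc ‖D / T.z θ‖ * (1 - rr A g N q * (SS A g q 0 - 1)) ≤ _ :=
        mul_le_mul_of_nonneg_left h5 (norm_nonneg _)
    _ = _ := h9
    _ ≤ _ := h8

theorem fd_div_le (h : Good A g N) (T : Tor A g N q) (θ : Fin (d + 1) → ℝ) (j : Fin (d + 1))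
    (k : Fin (A.m 0 + 1)) (hk : k ≠ q 0) :
    ‖fderiv ℝ T.z θ (Pi.single j 1) / (T.z θ + (df A q 0 k : ℂ))‖ ≤
      rr A g N q * fb A g q 0 k * (kk A g N q * SS A g q j.succ) := by
  have hz := z_ne T θ
  rw [← div_mul_div_cancel₀ hz, norm_mul, mul_comm]
  exact mul_le_mul (z_div_le h T θ k hk) (logz_le h T θ j) (norm_nonneg _)
    (mul_nonneg (rr_pos h q).le (fb_nonneg h q 0 k hk))

end DerivBAux

open DerivBAux

theorem dlogRow_succ (h : Good A g N) (T : Tor A g N q) (j : Fin (d + 1))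
    (i : Fin (A.m j.succ + 1)) (θ : Fin (d + 1) → ℝ) (l : Fin (d + 1)) :
    dlogRow T.γ (A.linU N j.succ i) θ l =
      if l = j then ph (rad g) (df A q j.succ i : ℂ) (θ j) else 0 := by
  unfold dlogRow
  have h1 : (fun θ => T.γ.emb θ (A.linU N j.succ i : A.CoordRing N)) =
      fun θ : Fin (d + 1) → ℝ =>
        (rad g : ℂ) * Complex.exp (θ j * Complex.I) + (df A q j.succ i : ℂ) :=
    funext fun θ => T.emb_succ θ j i
  rw [h1, fderiv_circ]
  rw [show T.γ.emb θ (A.linU N j.succ i : A.CoordRing N) =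
    (rad g : ℂ) * Complex.exp (θ j * Complex.I) + (df A q j.succ i : ℂ) from T.emb_succ θ j i]
  by_cases hl : l = j
  · rw [if_pos hl, if_pos hl]
    unfold ph
    rw [mul_div_assoc, ← mul_assoc, neg_mul, Complex.I_mul_I, neg_neg, one_mul]
  · rw [if_neg hl, if_neg hl]
    simp

theorem log_emb_succ (h : Good A g N) (T : Tor A g N q) (j : Fin (d + 1))
    (i : Fin (A.m j.succ + 1)) (θ : Fin (d + 1) → ℝ) :
    Real.log ‖T.γ.emb θ (A.linU N j.succ i : A.CoordRing N)‖ =
      cc (rad g) (df A q j.succ i : ℂ) + lm (rad g) (df A q j.succ i : ℂ) (θ j) := by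
  rw [show T.γ.emb θ (A.linU N j.succ i : A.CoordRing N) =
    (rad g : ℂ) * Complex.exp (θ j * Complex.I) + (df A q j.succ i : ℂ) from T.emb_succ θ j i]
  exact log_norm_circle (rad_pos h) (df_cases h _ _) _

theorem dlogRow_zero (h : Good A g N) (T : Tor A g N q) (i : Fin (A.m 0 + 1))
    (θ : Fin (d + 1) → ℝ) (j : Fin (d + 1)) :
    dlogRow T.γ (A.linU N 0 i) θ j =
      (if i = q 0 then -∑ k, ph (rad g) (df A q j.succ k : ℂ) (θ j) else 0) +
        -Complex.I * fderiv ℝ (WW T i) θ (Pi.single j 1) := by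
  classical
  unfold dlogRow
  have h1 : (fun θ => T.γ.emb θ (A.linU N 0 i : A.CoordRing N)) =
      fun θ => T.z θ + (df A q 0 i : ℂ) :=
    funext fun θ => T.emb_zero θ i
  rw [h1, fderiv_add_const]
  rw [show T.γ.emb θ (A.linU N 0 i : A.CoordRing N) = T.z θ + (df A q 0 i : ℂ) from
    T.emb_zero θ i, fderiv_WW h T]
  by_cases hi : i = q 0
  · subst hi
    rw [if_pos rfl, if_pos rfl, df_self, add_zero]
    have h2 := star h T θ j
    rw [← Finset.add_sum_erase _ _ (Finset.mem_univ (q 0)), df_self, add_zero] at h2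
    linear_combination (-Complex.I) * h2 +
      (∑ k, ph (rad g) (df A q j.succ k : ℂ) (θ j)) * Complex.I_mul_I
  · rw [if_neg hi, if_neg hi, zero_add]

theorem WW_fderiv_le (h : Good A g N) (T : Tor A g N q) (i : Fin (A.m 0 + 1))
    (θ : Fin (d + 1) → ℝ) (j : Fin (d + 1)) :
    ‖fderiv ℝ (WW T i) θ (Pi.single j 1)‖ ≤
      wB A g N q i * kk A g N q * SS A g q j.succ := by
  classical
  rw [fderiv_WW h T]
  unfold wB
  by_cases hi : i = q 0
  · rw [if_pos hi, if_pos hi, norm_neg]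
    rw [SS_eq 0, add_sub_cancel_left, Finset.mul_sum, mul_assoc, Finset.sum_mul]
    exact (norm_sum_le _ _).trans (Finset.sum_le_sum fun k hk =>
      fd_div_le h T θ j k (Finset.ne_of_mem_erase hk))
  · rw [if_neg hi, if_neg hi, mul_assoc]
    exact fd_div_le h T θ j i hi

end P4a177e
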