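import Pool.Agent.Lib.P4a177e.DerivA
import Pool.Agent.Lib.P4a177e.Circ

/-!
# MODULE P4a177e.DerivC: the logarithm of the entry number zero (est. 0.8 h)

PROOF. `ρ = rad g`. `i ≠ q 0`: `T.γ.emb θ (linU 0 i) = z + b`, `b = df A q 0 i ≠ 0`, is
`b (1 + z/b)`, and `log ‖1 + z/b‖ = Re (Complex.log (1 + z/b))` (`Complex.log_re`).
`i = q 0`: the image of `A.eqn_lin N` under `T.γ.emb θ` is (`emb_zero`, `emb_succ`,
`Fin.prod_univ_succ`) `N * (∏_k (z + df 0 k)) * ∏_j ∏_k (ρ e^{iθ_j} + df j.succ k) = 1`; take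
`Real.log ‖·‖` (all factors are nonzero, being values of units), separate the factor `k = q 0`
(`Finset.add_sum_erase`), use the case `i ≠ q 0` for the others and `log_norm_circle` for the
circles; `WW T (q 0) = -∑_k VV T k` and `VV T (q 0) = 0`.
-/

set_option autoImplicit false

namespace P4a177e

open P4a177h Function
open scoped Real

variable {d : ℕ} {A : Fam d} {g N : ℕ} {q : ∀ s, Fin (A.m s + 1)}

theorem DerivC_df_self (s : Fin (d + 2)) : df A q s (q s) = 0 := by
  unfold df
  ring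

theorem DerivC_log_emb_ne (h : Good A g N) (T : Tor A g N q) (i : Fin (A.m 0 + 1)) (hi : i ≠ q 0)
    (θ : Fin (d + 1) → ℝ) :
    Real.log ‖T.γ.emb θ (A.lin N 0 i)‖ = Real.log |(df A q 0 i : ℝ)| + (VV T i θ).re := by
  have hb : (df A q 0 i : ℂ) ≠ 0 := by
    have h1 := (rad_pos h).trans (rad_lt h q 0 i hi)
    intro h2
    have h3 : df A q 0 i = 0 := by exact_mod_cast h2
    rw [h3] at h1
    simp at h1
  have hu : T.γ.emb θ (A.lin N 0 i) ≠ 0 := ((A.isUnit_lin N 0 i).map (T.γ.emb θ)).ne_zero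
  have he : T.γ.emb θ (A.lin N 0 i) = (df A q 0 i : ℂ) * (1 + T.z θ / (df A q 0 i : ℂ)) := by
    rw [T.emb_zero]
    field_simp
    ring
  have h1 : 1 + T.z θ / (df A q 0 i : ℂ) ≠ 0 := by
    intro h2
    rw [he, h2, mul_zero] at hu
    exact hu rfl
  rw [he, norm_mul, Real.log_mul (norm_ne_zero_iff.2 hb) (norm_ne_zero_iff.2 h1),
    Complex.norm_intCast]
  unfold VV
  rw [Complex.log_re]

theorem log_emb_zero (h : Good A g N) (T : Tor A g N q) (i : Fin (A.m 0 + 1))
    (θ : Fin (d + 1) → ℝ) :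
    Real.log ‖T.γ.emb θ (A.linU N 0 i : A.CoordRing N)‖ =
      (if i = q 0 then
        -Real.log N - ∑ k ∈ Finset.univ.erase (q 0), Real.log |(df A q 0 k : ℝ)| -
          ∑ j : Fin (d + 1), ∑ k, (cc (rad g) (df A q j.succ k : ℂ) +
            lm (rad g) (df A q j.succ k : ℂ) (θ j))
      else Real.log |(df A q 0 i : ℝ)|) + (WW T i θ).re := by
  rw [A.linU_val]
  by_cases hi : i = q 0
  · subst hi
    rw [if_pos rfl]
    have hne : ∀ (s : Fin (d + 2)) (k : Fin (A.m s + 1)), T.γ.emb θ (A.lin N s k) ≠ 0 :=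
      fun s k => ((A.isUnit_lin N s k).map (T.γ.emb θ)).ne_zero
    have hN : (N : ℂ) ≠ 0 := by
      have := h.one_le_N
      exact_mod_cast (by omega : N ≠ 0)
    have h1 := congrArg (T.γ.emb θ) (A.eqn_lin N)
    rw [map_mul, map_natCast, map_prod, map_one] at h1
    simp only [map_prod] at h1
    have h2 := congrArg (fun x : ℂ => Real.log ‖x‖) h1
    simp only [norm_mul, norm_prod, norm_one, Real.log_one, Complex.norm_natCast] at h2
    rw [Real.log_mul (by exact_mod_cast hN) (Finset.prod_ne_zero_iff.2 fun s _ =>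
      Finset.prod_ne_zero_iff.2 fun k _ => norm_ne_zero_iff.2 (hne s k)),
      Real.log_prod (fun s _ => Finset.prod_ne_zero_iff.2 fun k _ =>
        norm_ne_zero_iff.2 (hne s k)), Fin.sum_univ_succ] at h2
    have h3 : ∀ s : Fin (d + 2), Real.log (∏ k, ‖T.γ.emb θ (A.lin N s k)‖) =
        ∑ k, Real.log ‖T.γ.emb θ (A.lin N s k)‖ := fun s =>
      Real.log_prod (fun k _ => norm_ne_zero_iff.2 (hne s k))
    simp only [h3] at h2
    have h4 : ∀ (j : Fin (d + 1)) (k : Fin (A.m j.succ + 1)),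
        Real.log ‖T.γ.emb θ (A.lin N j.succ k)‖ = cc (rad g) (df A q j.succ k : ℂ) +
          lm (rad g) (df A q j.succ k : ℂ) (θ j) := by
      intro j k
      rw [T.emb_succ]
      apply log_norm_circle (rad_pos h)
      by_cases hk : k = q j.succ
      · left
        rw [hk, DerivC_df_self]
        simp
      · right
        rw [Complex.norm_intCast]
        exact rad_lt h q _ _ hk
    simp only [h4] at h2
    rw [← Finset.add_sum_erase _ _ (Finset.mem_univ (q 0))] at h2
    have h5 : ∑ k ∈ Finset.univ.erase (q 0), Real.log ‖T.γ.emb θ (A.lin N 0 k)‖ =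
        ∑ k ∈ Finset.univ.erase (q 0), Real.log |(df A q 0 k : ℝ)| +
          ∑ k ∈ Finset.univ.erase (q 0), (VV T k θ).re := by
      rw [← Finset.sum_add_distrib]
      exact Finset.sum_congr rfl fun k hk => DerivC_log_emb_ne h T k (Finset.ne_of_mem_erase hk) θ
    rw [h5] at h2
    have h6 : (WW T (q 0) θ).re = -∑ k ∈ Finset.univ.erase (q 0), (VV T k θ).re := by
      unfold WW
      rw [if_pos rfl, Complex.neg_re, Complex.re_sum,
        ← Finset.add_sum_erase _ _ (Finset.mem_univ (q 0))]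
      have h7 : VV T (q 0) θ = 0 := by
        unfold VV
        rw [DerivC_df_self]
        simp
      rw [h7, Complex.zero_re, zero_add]
    rw [h6]
    linarith
  · rw [if_neg hi, DerivC_log_emb_ne h T i hi θ]
    unfold WW
    rw [if_neg hi]

end P4a177e
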