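import Pool.Agent.Lib.P4a177e.Stmt
import Pool.Agent.Lib.P4a177h.Prime

/-!
# The hypersurface is irreducible over the complex numbers

The proof is the one of `P4a177h/Prime.lean` with the complex numbers instead of the rational
numbers.
-/

set_option autoImplicit false

namespace P4a177e

open P4a177h MvPolynomial

variable {d : ℕ} (A : Fam d)

namespace GeomIrrAux

/-- The equation over the complex numbers. -/
noncomputable def eqnC (N : ℕ) : MvPolynomial (Fin (d + 2)) ℂ :=
  (N : MvPolynomial (Fin (d + 2)) ℂ) * ∏ s, ∏ i, (X s - C (A.a s i : ℂ)) - 1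

/-- The linear form `x_s - a_{s,i}`. -/
noncomputable def form (s : Fin (d + 2)) (i : Fin (A.m s + 1)) : MvPolynomial (Fin (d + 2)) ℂ :=
  X s - C (A.a s i : ℂ)

/-- The substitution `x_s ↦ c`. -/
noncomputable def rho (s : Fin (d + 2)) (c : ℂ) :
    MvPolynomial (Fin (d + 2)) ℂ →ₐ[ℂ] MvPolynomial (Fin (d + 2)) ℂ :=
  aeval (Function.update X s (C c))

theorem rho_X_self (s : Fin (d + 2)) (c : ℂ) : rho s c (X s) = C c := by
  simp [rho]

theorem rho_X_ne (s t : Fin (d + 2)) (h : t ≠ s) (c : ℂ) : rho s c (X t) = X t := by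
  simp [rho, Function.update_of_ne h]

theorem rho_C (s : Fin (d + 2)) (c r : ℂ) : rho s c (C r) = C r := by
  have := (rho s c).commutes r
  simpa using this

theorem rho_form_self (s : Fin (d + 2)) (i : Fin (A.m s + 1)) :
    rho s (A.a s i : ℂ) (form A s i) = 0 := by
  unfold form
  rw [map_sub, rho_X_self, rho_C, sub_self]

theorem dvd_sub_rho (s : Fin (d + 2)) (c : ℂ) (p : MvPolynomial (Fin (d + 2)) ℂ) :
    (X s - C c : MvPolynomial (Fin (d + 2)) ℂ) ∣ p - rho s c p := by
  let I : Ideal (MvPolynomial (Fin (d + 2)) ℂ) := Ideal.span {X s - C c}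
  have hφ : (Ideal.Quotient.mkₐ ℂ I).comp (rho s c) = Ideal.Quotient.mkₐ ℂ I := by
    apply MvPolynomial.algHom_ext
    intro k
    rw [AlgHom.comp_apply]
    by_cases hk : k = s
    · subst hk
      rw [rho_X_self, Ideal.Quotient.mkₐ_eq_mk, Ideal.Quotient.eq, Ideal.mem_span_singleton]
      exact ⟨-1, by ring⟩
    · rw [rho_X_ne s k hk]
  have h1 := DFunLike.congr_fun hφ p
  rw [AlgHom.comp_apply, Ideal.Quotient.mkₐ_eq_mk] at h1
  rw [← Ideal.mem_span_singleton, ← Ideal.Quotient.eq]
  exact h1.symm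

theorem isUnit_of_totalDegree_eq_zero {p : MvPolynomial (Fin (d + 2)) ℂ} (hp : p ≠ 0)
    (h : p.totalDegree = 0) : IsUnit p := by
  rw [isUnit_iff_eq_C_of_isReduced]
  rw [totalDegree_eq_zero_iff_eq_C] at h
  refine ⟨coeff 0 p, ?_, h⟩
  rw [isUnit_iff_ne_zero]
  intro h0
  rw [h0, map_zero] at h
  exact hp h

theorem form_ne_zero (s : Fin (d + 2)) (i : Fin (A.m s + 1)) : form A s i ≠ 0 := by
  intro h
  have h1 := congrArg (rho s ((A.a s i : ℂ) + 1)) h
  unfold form at h1
  rw [map_sub, rho_X_self, rho_C, map_zero, ← C_sub] at h1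
  have : ((A.a s i : ℂ) + 1 - (A.a s i : ℂ)) = 0 := by
    have h2 : C ((A.a s i : ℂ) + 1 - (A.a s i : ℂ)) =
        (C 0 : MvPolynomial (Fin (d + 2)) ℂ) := by rw [h1, C_0]
    exact C_injective _ _ h2
  norm_num at this

theorem form_totalDegree_le (s : Fin (d + 2)) (i : Fin (A.m s + 1)) :
    (form A s i).totalDegree ≤ 1 := by
  unfold form
  refine (totalDegree_sub _ _).trans (max_le ?_ ?_)
  · exact (totalDegree_X s).le
  · rw [totalDegree_C]
    exact Nat.zero_le _

theorem form_totalDegree (s : Fin (d + 2)) (i : Fin (A.m s + 1)) :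
    (form A s i).totalDegree = 1 := by
  refine le_antisymm (form_totalDegree_le A s i) ?_
  by_contra hlt
  have h0 : (form A s i).totalDegree = 0 := by omega
  have hu := isUnit_of_totalDegree_eq_zero (form_ne_zero A s i) h0
  have h1 := hu.map (rho s (A.a s i : ℂ))
  rw [rho_form_self A s i] at h1
  exact not_isUnit_zero h1

theorem rho_form_ne_zero (p q : Σ s : Fin (d + 2), Fin (A.m s + 1)) (hpq : p ≠ q) :
    rho p.1 (A.a p.1 p.2 : ℂ) (form A q.1 q.2) ≠ 0 := by
  obtain ⟨s, i⟩ := p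
  obtain ⟨t, j⟩ := q
  by_cases h : t = s
  · subst h
    have hij : i ≠ j := by
      rintro rfl
      exact hpq rfl
    dsimp only
    unfold form
    rw [map_sub, rho_X_self, rho_C, ← C_sub]
    intro h0
    have h2 : C ((A.a t i : ℂ) - (A.a t j : ℂ)) =
        (C 0 : MvPolynomial (Fin (d + 2)) ℂ) := by rw [h0, C_0]
    have h3 := C_injective _ _ h2
    apply hij
    apply A.inj t
    have h4 : (A.a t i : ℂ) = (A.a t j : ℂ) := sub_eq_zero.1 h3
    exact_mod_cast h4
  · dsimp only
    have h1 : rho s (A.a s i : ℂ) (form A t j) = form A t j := by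
      unfold form
      rw [map_sub, rho_X_ne s t h, rho_C]
    rw [h1]
    exact form_ne_zero A t j

theorem isRelPrime_form (p q : Σ s : Fin (d + 2), Fin (A.m s + 1)) (hpq : p ≠ q) :
    IsRelPrime (form A p.1 p.2) (form A q.1 q.2) := by
  intro e hdi hdj
  obtain ⟨f, hf⟩ := hdi
  have hd0 : e ≠ 0 := by
    rintro rfl
    rw [zero_mul] at hf
    exact form_ne_zero A _ _ hf
  have he0 : f ≠ 0 := by
    rintro rfl
    rw [mul_zero] at hf
    exact form_ne_zero A _ _ hf
  have hdeg := congrArg totalDegree hf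
  rw [form_totalDegree, totalDegree_mul_of_isDomain hd0 he0] at hdeg
  rcases Nat.eq_zero_or_pos e.totalDegree with h | h
  · exact isUnit_of_totalDegree_eq_zero hd0 h
  · exfalso
    have he1 : f.totalDegree = 0 := by omega
    have hu := isUnit_of_totalDegree_eq_zero he0 he1
    have hdvd : form A p.1 p.2 ∣ form A q.1 q.2 := by
      rw [hf]
      exact (hu.mul_right_dvd).2 hdj
    obtain ⟨f', hf'⟩ := hdvd
    apply rho_form_ne_zero A p q hpq
    rw [hf', map_mul, rho_form_self A, zero_mul]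

/-- The product of all forms as a product over pairs. -/
theorem eqn_eq (N : ℕ) : eqnC A N =
    (N : MvPolynomial (Fin (d + 2)) ℂ) *
      ∏ p : (Σ s : Fin (d + 2), Fin (A.m s + 1)), form A p.1 p.2 - 1 := by
  unfold eqnC
  rw [Fintype.prod_sigma]
  rfl

theorem rho_eqn (N : ℕ) (p : Σ s : Fin (d + 2), Fin (A.m s + 1)) :
    rho p.1 (A.a p.1 p.2 : ℂ) (eqnC A N) = -1 := by
  classical
  rw [eqn_eq]
  have : ∏ q : (Σ s : Fin (d + 2), Fin (A.m s + 1)), form A q.1 q.2 =
      form A p.1 p.2 * ∏ q ∈ Finset.univ.erase p, form A q.1 q.2 :=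
    (Finset.mul_prod_erase _ _ (Finset.mem_univ p)).symm
  rw [this, map_sub, map_mul, map_mul, rho_form_self A]
  simp

theorem eqn_totalDegree_le (N : ℕ) : (eqnC A N).totalDegree ≤
    Fintype.card (Σ s : Fin (d + 2), Fin (A.m s + 1)) := by
  rw [eqn_eq]
  refine (totalDegree_sub _ _).trans (max_le ?_ (by simp))
  refine (totalDegree_mul _ _).trans ?_
  have h1 : ((N : MvPolynomial (Fin (d + 2)) ℂ)).totalDegree = 0 := by
    have : (N : MvPolynomial (Fin (d + 2)) ℂ) = C (N : ℂ) := by simp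
    rw [this, totalDegree_C]
  rw [h1, zero_add]
  refine (totalDegree_finsetProd _ _).trans ?_
  refine (Finset.sum_le_sum fun p _ => form_totalDegree_le A p.1 p.2).trans ?_
  simp

theorem prod_totalDegree (u : Finset (Σ s : Fin (d + 2), Fin (A.m s + 1))) :
    (∏ p ∈ u, form A p.1 p.2).totalDegree = u.card := by
  classical
  induction u using Finset.induction_on with
  | empty => simp
  | insert a u ha ih =>
    rw [Finset.prod_insert ha, totalDegree_mul_of_isDomain (form_ne_zero A _ _)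
      (Finset.prod_ne_zero_iff.2 fun p _ => form_ne_zero A p.1 p.2), ih, form_totalDegree,
      Finset.card_insert_of_notMem ha, add_comm]

/-- A factor of the equation is constant on every hyperplane. -/
theorem factor_const (N : ℕ) (G H : MvPolynomial (Fin (d + 2)) ℂ) (hGH : eqnC A N = G * H)
    (p : Σ s : Fin (d + 2), Fin (A.m s + 1)) : ∃ g : ℂ, form A p.1 p.2 ∣ G - C g := by
  have h1 : rho p.1 (A.a p.1 p.2 : ℂ) G * rho p.1 (A.a p.1 p.2 : ℂ) H = -1 := by
    rw [← map_mul, ← hGH, rho_eqn A N p]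
  have hu : IsUnit (rho p.1 (A.a p.1 p.2 : ℂ) G) := by
    apply IsUnit.of_mul_eq_one (-(rho p.1 (A.a p.1 p.2 : ℂ) H))
    rw [mul_neg, h1, neg_neg]
  rw [isUnit_iff_eq_C_of_isReduced] at hu
  obtain ⟨g, -, hg⟩ := hu
  refine ⟨g, ?_⟩
  rw [← hg]
  exact dvd_sub_rho p.1 _ G

theorem eval_eq_of_dvd (p : Σ s : Fin (d + 2), Fin (A.m s + 1))
    (G : MvPolynomial (Fin (d + 2)) ℂ) (g : ℂ)
    (h : form A p.1 p.2 ∣ G - C g) (x : Fin (d + 2) → ℂ)
    (hx : x p.1 = (A.a p.1 p.2 : ℂ)) : aeval x G = g := by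
  obtain ⟨f, hf⟩ := h
  have h1 := congrArg (aeval x) hf
  rw [map_sub, map_mul] at h1
  have h2 : aeval x (form A p.1 p.2) = 0 := by
    unfold form
    simp [hx]
  rw [h2, zero_mul] at h1
  have h4 : aeval x (C g : MvPolynomial (Fin (d + 2)) ℂ) = g := by simp
  rw [h4] at h1
  exact sub_eq_zero.1 h1

theorem const_eq (N : ℕ) (G H : MvPolynomial (Fin (d + 2)) ℂ) (hGH : eqnC A N = G * H) :
    ∃ g : ℂ, ∀ p : (Σ s : Fin (d + 2), Fin (A.m s + 1)), form A p.1 p.2 ∣ G - C g := by
  choose g hg using factor_const A N G H hGH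
  have key : ∀ p q : (Σ s : Fin (d + 2), Fin (A.m s + 1)), p.1 ≠ q.1 → g p = g q := by
    intro p q hpq
    let x : Fin (d + 2) → ℂ := Function.update (Function.update 0 p.1 (A.a p.1 p.2 : ℂ)) q.1
      (A.a q.1 q.2 : ℂ)
    have hx1 : x p.1 = (A.a p.1 p.2 : ℂ) := by
      simp [x, Function.update_of_ne hpq]
    have hx2 : x q.1 = (A.a q.1 q.2 : ℂ) := by
      simp [x]
    rw [← eval_eq_of_dvd A p G (g p) (hg p) x hx1, ← eval_eq_of_dvd A q G (g q) (hg q) x hx2]
  let p0 : Σ s : Fin (d + 2), Fin (A.m s + 1) := ⟨0, 0⟩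
  let p1 : Σ s : Fin (d + 2), Fin (A.m s + 1) := ⟨1, 0⟩
  have h01 : p0.1 ≠ p1.1 := by
    intro h
    have : (0 : Fin (d + 2)) = 1 := h
    simp [Fin.ext_iff] at this
  refine ⟨g p0, fun p => ?_⟩
  have : g p = g p0 := by
    by_cases h : p.1 = p0.1
    · have h1 : p.1 ≠ p1.1 := by
        rw [h]
        exact h01
      rw [key p p1 h1, key p0 p1 h01]
    · exact key p p0 h
  rw [← this]
  exact hg p

end GeomIrrAux

theorem GeomIrrAux.irreducible_eqnC (N : ℕ) (hN : 0 < N) : Irreducible (eqnC A N) := by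
  let p0 : Σ s : Fin (d + 2), Fin (A.m s + 1) := ⟨0, 0⟩
  have hne : eqnC A N ≠ 0 := by
    intro h
    have := rho_eqn A N p0
    rw [h, map_zero] at this
    exact one_ne_zero (neg_eq_zero.1 this.symm)
  constructor
  · intro hu
    rw [isUnit_iff_eq_C_of_isReduced] at hu
    obtain ⟨r, -, hr⟩ := hu
    have h1 := rho_eqn A N p0
    rw [hr, rho_C] at h1
    have h3 : r = -1 := by
      have : (C r : MvPolynomial (Fin (d + 2)) ℂ) = C (-1) := by
        rw [h1]; simp
      exact C_injective _ _ this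
    have h4 : (N : MvPolynomial (Fin (d + 2)) ℂ) *
        ∏ p : (Σ s : Fin (d + 2), Fin (A.m s + 1)), form A p.1 p.2 = 0 := by
      have : eqnC A N = C (-1) := by rw [hr, h3]
      rw [eqn_eq] at this
      simpa [sub_eq_iff_eq_add] using this
    rcases mul_eq_zero.1 h4 with h5 | h5
    · rw [Nat.cast_eq_zero] at h5
      omega
    · rw [Finset.prod_eq_zero_iff] at h5
      obtain ⟨i, -, hi⟩ := h5
      exact form_ne_zero A _ _ hi
  · intro G H hGH
    have hG : G ≠ 0 := by
      rintro rfl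
      rw [zero_mul] at hGH
      exact hne hGH
    have hH : H ≠ 0 := by
      rintro rfl
      rw [mul_zero] at hGH
      exact hne hGH
    obtain ⟨g, hg⟩ := const_eq A N G H hGH
    have hdvd : ∏ p : (Σ s : Fin (d + 2), Fin (A.m s + 1)), form A p.1 p.2 ∣ G - C g :=
      Fintype.prod_dvd_of_isRelPrime (fun i j hij => isRelPrime_form A i j hij) hg
    by_cases h0 : G - C g = 0
    · left
      have : G = C g := sub_eq_zero.1 h0
      exact isUnit_of_totalDegree_eq_zero hG (by rw [this, totalDegree_C])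
    · right
      have h1 := totalDegree_le_of_dvd_of_isDomain hdvd h0
      rw [prod_totalDegree, Finset.card_univ] at h1
      have h2 := totalDegree_sub_C_le G g
      have h3 := eqn_totalDegree_le A N
      rw [hGH, totalDegree_mul_of_isDomain hG hH] at h3
      exact isUnit_of_totalDegree_eq_zero hH (by omega)


theorem geomIrreducible {d : ℕ} (A : Fam d) (N : ℕ) (hN : 1 ≤ N) : GeomIrreducible A N := by
  have h : MvPolynomial.map (algebraMap ℚ ℂ) (A.eqn N) = GeomIrrAux.eqnC A N := by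
    unfold Fam.eqn GeomIrrAux.eqnC
    rw [map_sub, map_mul, map_prod, map_one, map_natCast]
    congr 2
    refine Finset.prod_congr rfl fun s _ => ?_
    rw [map_prod]
    refine Finset.prod_congr rfl fun i _ => ?_
    rw [map_sub, MvPolynomial.map_X, MvPolynomial.map_C]
    simp
  unfold GeomIrreducible
  rw [h]
  exact GeomIrrAux.irreducible_eqnC A N (by omega)

end P4a177e
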