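import Pool.Agent.Lib.P4a177h.Est
import Pool.Agent.Lib.P4a177h.BLcore

/-!
# MODULE P4a177e.IntT: two integrals over the box (est. 1.4 h; Fubini)

PROOF. Fubini on the box for products of complex functions of one variable each:
`∫ θ in box n, ∏ j, u j (θ j) = ∏ j, ∫ t in Icc 0 (2π), u j t` (`P4a177h.Est_fubini` is the real
version, same proof, `integral_fintype_prod_eq_prod`); everything is continuous, hence integrable on
the compact box (`box_volume`: `P4a177h.Est_box_volume`).
* `integral_T0`. The term `c`: `∫ c (∏ f).re = c Re ∏ ∫ f_j = c (2π)^n ∏ δ_j`. The term `Λ j`: the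
  function `Λ j (θ j) * ∏ f_l (θ l)` is a product of functions of one variable each; real part of
  `(∫ Λ_j f_j) ∏_{l≠j} (2π δ_l)`, the last factor is real. The term `W`: absolute value
  `≤ w ∏ F_j` everywhere, volume `(2π)^n`.
* `integral_TJ`. The term `(c + lam) Re p`: product of functions of one variable each in the
  variables `≤ k`, and of a complex product in the variables `> k`; integral
  `(∫ (c+lam) Re p) ∏_{l<k} Re(2π δ_l) Re ∏_{l>k} 2π δ_l`. The term with `fderiv`: put
  `E θ = (∏ j with j < k, (f j (θ j)).re) * (∏ j with k < j, f j (θ j)).re`, it does not depend on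
  `θ k`, `|E θ| ≤ ∏_{l ≠ k} F_l`. `∫ c * Re(-I ∂_k W) * E = 0`: the integral in the variable `θ k`
  of the derivative of a periodic function is zero (Fubini with respect to the coordinate `k`; see
  how `P4a177h.det_exact` / `P4a177h.integral_top_exact` in BLcore.lean / Exact.lean do this, e.g.
  `P4a177h.det_exact` can be used directly with `ξ = Re (-I W)`, or
  `MeasureTheory.integral_divergence...`; the simplest is the lemma used in BLcore for
  `∫ box, ∂_k (periodic) = 0` applied to the function `Re (-I W θ) * E θ`, whose derivative in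
  `θ k` is `Re(-I ∂_k W) * E`). The rest: `|lam| ≤ G`, `|Re(-I ∂_k W)| ≤ B`.
-/

set_option autoImplicit false

namespace P4a177e

open P4a177h Function MeasureTheory
open scoped Real

namespace IntTAux

lemma box_compact (n : ℕ) : IsCompact (box n) := by
  unfold box
  exact isCompact_Icc

lemma int_box {n : ℕ} {E : Type*} [NormedAddCommGroup E] {g : (Fin n → ℝ) → E}
    (hg : Continuous g) : IntegrableOn g (box n) :=
  hg.continuousOn.integrableOn_compact (box_compact n)

/-- Fubini on the box. -/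
lemma fubini {n : ℕ} (f : Fin n → ℝ → ℂ) :
    ∫ θ in box n, ∏ s, f s (θ s) = ∏ s, ∫ t in Set.Icc (0 : ℝ) (2 * π), f s t := by
  have h1 : box n = Set.univ.pi fun _ : Fin n => Set.Icc (0 : ℝ) (2 * π) := by
    rw [box, ← Set.pi_univ_Icc]
    rfl
  rw [h1, volume_pi, Measure.restrict_pi_pi]
  exact integral_fintype_prod_eq_prod (fun s => f s)

lemma re_int {n : ℕ} {g : (Fin n → ℝ) → ℂ} (hg : Continuous g) :
    ∫ θ in box n, (g θ).re = (∫ θ in box n, g θ).re :=
  Complex.reCLM.integral_comp_comm (int_box hg)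

lemma re_int1 {g : ℝ → ℂ} (hg : Continuous g) :
    ∫ t in Set.Icc (0 : ℝ) (2 * π), (g t).re = (∫ t in Set.Icc (0 : ℝ) (2 * π), g t).re :=
  Complex.reCLM.integral_comp_comm (hg.continuousOn.integrableOn_compact isCompact_Icc)

lemma prod_erase {n : ℕ} (δ : Fin n → ℝ) (j : Fin n) :
    (∏ l ∈ Finset.univ.erase j, (2 * π * δ l)) * (2 * π) =
      (2 * π) ^ n * ∏ l ∈ Finset.univ.erase j, δ l := by
  rw [Finset.prod_mul_distrib, Finset.prod_const, Finset.card_erase_of_mem (Finset.mem_univ j),
    Finset.card_univ, Fintype.card_fin]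
  have hn : n = (n - 1) + 1 := by
    have := j.2
    omega
  have h2 : (2 * π) ^ n = (2 * π) ^ (n - 1) * (2 * π) := by
    conv_lhs => rw [hn, pow_succ]
  rw [h2]
  ring

lemma bound_box {n : ℕ} {g : (Fin n → ℝ) → ℝ} {C : ℝ} (h : ∀ θ, |g θ| ≤ C) :
    |∫ θ in box n, g θ| ≤ C * (2 * π) ^ n := by
  rw [← Est_box_volume n, ← Real.norm_eq_abs]
  exact norm_setIntegral_le_of_norm_le_const (box_compact n).measure_lt_top fun θ _ => h θ

lemma split {n : ℕ} {M : Type*} [CommMonoid M] (k : Fin n) (g : Fin n → M) :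
    ∏ l ∈ Finset.univ.erase k, g l = (∏ j with j < k, g j) * ∏ j with k < j, g j := by
  rw [← Finset.prod_filter_mul_prod_filter_not (Finset.univ.erase k) (fun j => j < k)]
  congr 1
  · apply Finset.prod_congr _ fun _ _ => rfl
    ext j
    simp only [Finset.mem_filter, Finset.mem_erase, Finset.mem_univ, and_true, true_and]
    exact ⟨fun h => h.2, fun h => ⟨h.ne, h⟩⟩
  · apply Finset.prod_congr _ fun _ _ => rfl
    ext j
    simp only [Finset.mem_filter, Finset.mem_erase, Finset.mem_univ, and_true, true_and, not_lt]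
    exact ⟨fun h => lt_of_le_of_ne h.2 h.1.symm, fun h => ⟨h.ne', h.le⟩⟩

end IntTAux

open IntTAux

theorem integral_T0 {n : ℕ} (c w : ℝ) (Λ : Fin n → ℝ → ℝ) (hΛ : ∀ j, Continuous (Λ j))
    (W : (Fin n → ℝ) → ℂ) (hW : Continuous W) (hw : ∀ θ, ‖W θ‖ ≤ w)
    (f : Fin n → ℝ → ℂ) (hf : ∀ j, Continuous (f j))
    (F : Fin n → ℝ) (hF : ∀ j t, ‖f j t‖ ≤ F j)
    (δ : Fin n → ℝ) (hδ : ∀ j, ∫ t in Set.Icc (0 : ℝ) (2 * π), f j t = ((2 * π * δ j : ℝ) : ℂ)) :
    |(∫ θ in box n, (c - ∑ j, Λ j (θ j) + (W θ).re) * (∏ j, f j (θ j)).re) / (2 * π) ^ n -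
      (c * ∏ j, δ j - ∑ j, ((∫ t in Set.Icc (0 : ℝ) (2 * π), Λ j t * (f j t).re) / (2 * π)) *
        ∏ l ∈ Finset.univ.erase j, δ l)| ≤ w * ∏ j, F j := by
  classical
  have hV : (0 : ℝ) < (2 * π) ^ n := by positivity
  have h2π : (0 : ℝ) < 2 * π := by positivity
  set P : (Fin n → ℝ) → ℂ := fun θ => ∏ j, f j (θ j) with hP
  have hPc : Continuous P :=
    continuous_finsetProd _ fun j _ => (hf j).comp (continuous_apply j)
  have hPre : Continuous fun θ => (P θ).re := Complex.continuous_re.comp hPc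
  have hPn : ∀ θ, ‖P θ‖ ≤ ∏ j, F j := by
    intro θ
    rw [hP]
    simp only
    rw [norm_prod]
    exact Finset.prod_le_prod (fun j _ => norm_nonneg _) (fun j _ => hF j _)
  -- the constant term
  have h1 : ∫ θ in box n, (P θ).re = (2 * π) ^ n * ∏ j, δ j := by
    rw [re_int hPc, hP, fubini, Finset.prod_congr rfl fun j _ => hδ j, ← Complex.ofReal_prod,
      Complex.ofReal_re, Finset.prod_mul_distrib, Finset.prod_const, Finset.card_univ,
      Fintype.card_fin]
  -- the terms with `Λ`
  have hΛc : ∀ j, Continuous fun θ : Fin n → ℝ => Λ j (θ j) := fun j =>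
    (hΛ j).comp (continuous_apply j)
  have h2 : ∀ j, ∫ θ in box n, Λ j (θ j) * (P θ).re =
      (2 * π) ^ n * (((∫ t in Set.Icc (0 : ℝ) (2 * π), Λ j t * (f j t).re) / (2 * π)) *
        ∏ l ∈ Finset.univ.erase j, δ l) := by
    intro j
    set u : Fin n → ℝ → ℂ := update f j (fun t => (Λ j t : ℂ) * f j t) with hu
    have huj : u j = fun t => (Λ j t : ℂ) * f j t := update_self _ _ _
    have hul : ∀ l, l ≠ j → u l = f l := fun l hl => update_of_ne hl _ _
    have huc : ∀ l, Continuous (u l) := by
      intro l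
      by_cases hl : l = j
      · rw [hl, huj]
        exact (Complex.continuous_ofReal.comp (hΛ j)).mul (hf j)
      · rw [hul l hl]
        exact hf l
    have e1 : ∀ θ : Fin n → ℝ, Λ j (θ j) * (P θ).re = (∏ l, u l (θ l)).re := by
      intro θ
      rw [← Finset.mul_prod_erase _ _ (Finset.mem_univ j), huj]
      have e2 : ∏ l ∈ Finset.univ.erase j, u l (θ l) = ∏ l ∈ Finset.univ.erase j, f l (θ l) :=
        Finset.prod_congr rfl fun l hl => by rw [hul l (Finset.ne_of_mem_erase hl)]
      rw [e2, mul_assoc, Complex.re_ofReal_mul, Finset.mul_prod_erase _ (fun l => f l (θ l))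
        (Finset.mem_univ j)]
    have hUc : Continuous fun θ : Fin n → ℝ => ∏ l, u l (θ l) :=
      continuous_finsetProd _ fun l _ => (huc l).comp (continuous_apply l)
    simp_rw [e1]
    rw [re_int hUc, fubini, ← Finset.mul_prod_erase _ _ (Finset.mem_univ j)]
    have e3 : ∏ l ∈ Finset.univ.erase j, ∫ t in Set.Icc (0 : ℝ) (2 * π), u l t =
        ((∏ l ∈ Finset.univ.erase j, (2 * π * δ l) : ℝ) : ℂ) := by
      rw [Complex.ofReal_prod]
      exact Finset.prod_congr rfl fun l hl => by rw [hul l (Finset.ne_of_mem_erase hl), hδ l]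
    rw [e3, mul_comm, Complex.re_ofReal_mul, ← re_int1 (huc j), huj]
    have e4 : ∀ t, ((Λ j t : ℂ) * f j t).re = Λ j t * (f j t).re := fun t =>
      Complex.re_ofReal_mul _ _
    simp only [e4]
    have e5 := prod_erase δ j
    field_simp
    linear_combination (∫ t in Set.Icc (0 : ℝ) (2 * π), Λ j t * (f j t).re) * e5
  -- the term with `W`
  have h3 : |∫ θ in box n, (W θ).re * (P θ).re| ≤ (w * ∏ j, F j) * (2 * π) ^ n := by
    refine bound_box fun θ => ?_
    rw [abs_mul]
    exact mul_le_mul ((Complex.abs_re_le_norm _).trans (hw θ))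
      ((Complex.abs_re_le_norm _).trans (hPn θ)) (abs_nonneg _) ((norm_nonneg _).trans (hw θ))
  have h4 : ∫ θ in box n, (c - ∑ j, Λ j (θ j) + (W θ).re) * (∏ j, f j (θ j)).re =
      c * (∫ θ in box n, (P θ).re) - ∑ j, (∫ θ in box n, Λ j (θ j) * (P θ).re) +
        ∫ θ in box n, (W θ).re * (P θ).re := by
    have e1 : ∀ θ : Fin n → ℝ, (c - ∑ j, Λ j (θ j) + (W θ).re) * (∏ j, f j (θ j)).re =
        c * (P θ).re - (∑ j, Λ j (θ j) * (P θ).re) + (W θ).re * (P θ).re := by
      intro θ
      rw [← Finset.sum_mul]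
      ring
    simp_rw [e1]
    have i1 : IntegrableOn (fun θ => c * (P θ).re) (box n) := int_box (hPre.const_mul c)
    have i2 : ∀ j ∈ (Finset.univ : Finset (Fin n)),
        IntegrableOn (fun θ : Fin n → ℝ => Λ j (θ j) * (P θ).re) (box n) := fun j _ =>
      int_box ((hΛc j).mul hPre)
    have i3 : IntegrableOn (fun θ => (W θ).re * (P θ).re) (box n) :=
      int_box ((Complex.continuous_re.comp hW).mul hPre)
    have iS : IntegrableOn (fun θ : Fin n → ℝ => ∑ j, Λ j (θ j) * (P θ).re) (box n) :=
      integrable_finsetSum _ i2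
    have i12 : IntegrableOn (fun θ : Fin n → ℝ => c * (P θ).re - ∑ j, Λ j (θ j) * (P θ).re)
        (box n) := i1.sub iS
    rw [integral_add i12 i3, integral_sub i1 iS, integral_finsetSum _ i2, integral_const_mul]
  rw [h4, h1, Finset.sum_congr rfl fun j _ => h2 j, ← Finset.mul_sum]
  set S : ℝ := ∑ j, ((∫ t in Set.Icc (0 : ℝ) (2 * π), Λ j t * (f j t).re) / (2 * π)) *
        ∏ l ∈ Finset.univ.erase j, δ l with hS
  set R : ℝ := ∫ θ in box n, (W θ).re * (P θ).re with hR
  have e6 : (c * ((2 * π) ^ n * ∏ j, δ j) - (2 * π) ^ n * S + R) / (2 * π) ^ n -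
      (c * ∏ j, δ j - S) = R / (2 * π) ^ n := by
    field_simp
    ring
  rw [e6, abs_div, abs_of_pos hV, div_le_iff₀ hV]
  exact h3

theorem integral_TJ {n : ℕ} (k : Fin n) (c G B : ℝ) (lam : ℝ → ℝ) (hlam : Continuous lam)
    (hG : ∀ t, |lam t| ≤ G) (p : ℝ → ℂ) (hp : Continuous p)
    (W : (Fin n → ℝ) → ℂ) (hW : ContDiff ℝ 2 W)
    (hper : ∀ θ l, W (update θ l (θ l + 2 * π)) = W θ)
    (hB : ∀ θ, ‖fderiv ℝ W θ (Pi.single k 1)‖ ≤ B)
    (f : Fin n → ℝ → ℂ) (hf : ∀ j, Continuous (f j))
    (F : Fin n → ℝ) (hF : ∀ j t, ‖f j t‖ ≤ F j)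
    (δ : Fin n → ℝ) (hδ : ∀ j, ∫ t in Set.Icc (0 : ℝ) (2 * π), f j t = ((2 * π * δ j : ℝ) : ℂ)) :
    |(∫ θ in box n, (c + lam (θ k)) *
        (p (θ k) + -Complex.I * fderiv ℝ W θ (Pi.single k 1)).re *
        ((∏ j with j < k, (f j (θ j)).re) * (∏ j with k < j, f j (θ j)).re)) / (2 * π) ^ n -
      ((∫ t in Set.Icc (0 : ℝ) (2 * π), (c + lam t) * (p t).re) / (2 * π)) *
        ∏ l ∈ Finset.univ.erase k, δ l| ≤ G * B * ∏ l ∈ Finset.univ.erase k, F l := by
  classical
  have hV : (0 : ℝ) < (2 * π) ^ n := by positivity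
  have h2π : (0 : ℝ) < 2 * π := by positivity
  set E : (Fin n → ℝ) → ℝ := fun θ =>
    (∏ j with j < k, (f j (θ j)).re) * (∏ j with k < j, f j (θ j)).re with hE
  have hfc : ∀ j, Continuous fun θ : Fin n → ℝ => f j (θ j) := fun j =>
    (hf j).comp (continuous_apply j)
  have hEc : Continuous E :=
    (continuous_finsetProd _ fun j _ => Complex.continuous_re.comp (hfc j)).mul
      (Complex.continuous_re.comp (continuous_finsetProd _ fun j _ => hfc j))
  have hEn : ∀ θ, |E θ| ≤ ∏ l ∈ Finset.univ.erase k, F l := by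
    intro θ
    rw [split k F, hE]
    simp only
    rw [abs_mul, Finset.abs_prod]
    refine mul_le_mul ?_ ?_ (abs_nonneg _) ?_
    · exact Finset.prod_le_prod (fun j _ => abs_nonneg _)
        (fun j _ => (Complex.abs_re_le_norm _).trans (hF j _))
    · refine (Complex.abs_re_le_norm _).trans ?_
      rw [norm_prod]
      exact Finset.prod_le_prod (fun j _ => norm_nonneg _) (fun j _ => hF j _)
    · exact Finset.prod_nonneg fun j _ => (norm_nonneg _).trans (hF j 0)
  have hEu : ∀ θ s, E (update θ k s) = E θ := by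
    intro θ s
    rw [hE]
    simp only
    congr 1
    · refine Finset.prod_congr rfl fun j hj => ?_
      rw [Finset.mem_filter] at hj
      rw [update_of_ne hj.2.ne]
    · congr 1
      refine Finset.prod_congr rfl fun j hj => ?_
      rw [Finset.mem_filter] at hj
      rw [update_of_ne hj.2.ne']
  set D : (Fin n → ℝ) → ℂ := fun θ => fderiv ℝ W θ (Pi.single k 1) with hD
  have hDc : Continuous D := (hW.continuous_fderiv (by norm_num)).clm_apply continuous_const
  have hDre : Continuous fun θ => (-Complex.I * D θ).re :=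
    Complex.continuous_re.comp (continuous_const.mul hDc)
  have hlc : Continuous fun θ : Fin n → ℝ => lam (θ k) := hlam.comp (continuous_apply k)
  have hpc : Continuous fun θ : Fin n → ℝ => (p (θ k)).re :=
    Complex.continuous_re.comp (hp.comp (continuous_apply k))
  -- the main term
  have h1 : ∫ θ in box n, (c + lam (θ k)) * (p (θ k)).re * E θ =
      (∫ t in Set.Icc (0 : ℝ) (2 * π), (c + lam t) * (p t).re) *
        ∏ l ∈ Finset.univ.erase k, (2 * π * δ l) := by
    set u : Fin n → ℝ → ℂ := fun l t => if l = k then (((c + lam t) * (p t).re : ℝ) : ℂ)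
      else if l < k then ((f l t).re : ℂ) else f l t with hu
    have huk : ∀ t, u k t = (((c + lam t) * (p t).re : ℝ) : ℂ) := fun t => if_pos rfl
    have hul : ∀ l, l < k → ∀ t, u l t = ((f l t).re : ℂ) := fun l hl t => by
      rw [hu]
      simp only
      rw [if_neg hl.ne, if_pos hl]
    have hug : ∀ l, k < l → ∀ t, u l t = f l t := fun l hl t => by
      rw [hu]
      simp only
      rw [if_neg hl.ne', if_neg (not_lt.mpr hl.le)]
    have huc : ∀ l, Continuous (u l) := by
      intro l
      rcases lt_trichotomy l k with hl | hl | hl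
      · have e : u l = fun t => ((f l t).re : ℂ) := funext (hul l hl)
        rw [e]
        exact Complex.continuous_ofReal.comp (Complex.continuous_re.comp (hf l))
      · have e : u l = fun t => (((c + lam t) * (p t).re : ℝ) : ℂ) := by
          rw [hl]
          exact funext huk
        rw [e]
        exact Complex.continuous_ofReal.comp
          ((continuous_const.add hlam).mul (Complex.continuous_re.comp hp))
      · have e : u l = f l := funext (hug l hl)
        rw [e]
        exact hf l
    have e1 : ∀ θ : Fin n → ℝ, (c + lam (θ k)) * (p (θ k)).re * E θ = (∏ l, u l (θ l)).re := by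
      intro θ
      rw [← Finset.mul_prod_erase _ _ (Finset.mem_univ k), split, huk]
      have e2 : ∏ j with j < k, u j (θ j) = ((∏ j with j < k, (f j (θ j)).re : ℝ) : ℂ) := by
        rw [Complex.ofReal_prod]
        refine Finset.prod_congr rfl fun j hj => ?_
        rw [Finset.mem_filter] at hj
        exact hul j hj.2 _
      have e3 : ∏ j with k < j, u j (θ j) = ∏ j with k < j, f j (θ j) := by
        refine Finset.prod_congr rfl fun j hj => ?_
        rw [Finset.mem_filter] at hj
        exact hug j hj.2 _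
      rw [e2, e3, Complex.re_ofReal_mul, Complex.re_ofReal_mul, hE]
    have hUc : Continuous fun θ : Fin n → ℝ => ∏ l, u l (θ l) :=
      continuous_finsetProd _ fun l _ => (huc l).comp (continuous_apply l)
    simp_rw [e1]
    rw [re_int hUc, fubini, ← Finset.mul_prod_erase _ _ (Finset.mem_univ k)]
    have e4 : ∏ l ∈ Finset.univ.erase k, ∫ t in Set.Icc (0 : ℝ) (2 * π), u l t =
        ((∏ l ∈ Finset.univ.erase k, (2 * π * δ l) : ℝ) : ℂ) := by
      rw [Complex.ofReal_prod]
      refine Finset.prod_congr rfl fun l hl => ?_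
      rcases lt_trichotomy l k with h | h | h
      · simp_rw [hul l h]
        rw [integral_complex_ofReal, re_int1 (hf l), hδ l, Complex.ofReal_re]
      · exact absurd h (Finset.ne_of_mem_erase hl)
      · simp_rw [hug l h]
        rw [hδ l]
    rw [e4]
    simp_rw [huk]
    rw [integral_complex_ofReal, ← Complex.ofReal_mul, Complex.ofReal_re]
  -- the derivative term
  have h2 : ∫ θ in box n, (-Complex.I * D θ).re * E θ = 0 := by
    have e1 := integral_partial (fun θ => (((-Complex.I * W θ).re * E θ : ℝ) : ℂ))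
      (fun θ => (((-Complex.I * D θ).re * E θ : ℝ) : ℂ)) k
      (Complex.continuous_ofReal.comp (hDre.mul hEc)) (by
        intro θ
        have g1 : HasFDerivAt W (fderiv ℝ W θ) (update θ k (θ k)) := by
          rw [update_eq_self]
          exact (hW.differentiable (by norm_num) θ).hasFDerivAt
        have g2 : HasDerivAt (fun s => W (update θ k s)) (D θ) (θ k) :=
          g1.comp_hasDerivAt (θ k) (hasDerivAt_update θ k (θ k))
        have g3 : HasDerivAt (fun s => (-Complex.I * W (update θ k s)).re)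
            (-Complex.I * D θ).re (θ k) :=
          Complex.reCLM.hasFDerivAt.comp_hasDerivAt (θ k) (g2.const_mul (-Complex.I))
        have g4 : HasDerivAt (fun s => (((-Complex.I * W (update θ k s)).re * E θ : ℝ) : ℂ))
            (((-Complex.I * D θ).re * E θ : ℝ) : ℂ) (θ k) := (g3.mul_const (E θ)).ofReal_comp
        simp_rw [hEu]
        exact g4) (by
        intro θ
        rw [hper, hEu])
    rw [integral_complex_ofReal] at e1
    exact_mod_cast e1
  have hG0 : 0 ≤ G := (abs_nonneg _).trans (hG 0)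
  have hB0 : 0 ≤ B := (norm_nonneg _).trans (hB 0)
  have hDn : ∀ θ, |(-Complex.I * D θ).re| ≤ B := by
    intro θ
    refine (Complex.abs_re_le_norm _).trans ?_
    rw [norm_mul, norm_neg, Complex.norm_I, one_mul]
    exact hB θ
  have h3 : |∫ θ in box n, lam (θ k) * (-Complex.I * D θ).re * E θ| ≤
      (G * B * ∏ l ∈ Finset.univ.erase k, F l) * (2 * π) ^ n := by
    refine bound_box fun θ => ?_
    rw [abs_mul, abs_mul]
    exact mul_le_mul (mul_le_mul (hG _) (hDn θ) (abs_nonneg _) hG0) (hEn θ) (abs_nonneg _)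
      (by positivity)
  have h4 : ∫ θ in box n, (c + lam (θ k)) *
        (p (θ k) + -Complex.I * fderiv ℝ W θ (Pi.single k 1)).re *
        ((∏ j with j < k, (f j (θ j)).re) * (∏ j with k < j, f j (θ j)).re) =
      (∫ θ in box n, (c + lam (θ k)) * (p (θ k)).re * E θ) +
        c * (∫ θ in box n, (-Complex.I * D θ).re * E θ) +
        ∫ θ in box n, lam (θ k) * (-Complex.I * D θ).re * E θ := by
    have e1 : ∀ θ : Fin n → ℝ, (c + lam (θ k)) *
        (p (θ k) + -Complex.I * fderiv ℝ W θ (Pi.single k 1)).re *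
        ((∏ j with j < k, (f j (θ j)).re) * (∏ j with k < j, f j (θ j)).re) =
        (c + lam (θ k)) * (p (θ k)).re * E θ + c * ((-Complex.I * D θ).re * E θ) +
          lam (θ k) * (-Complex.I * D θ).re * E θ := by
      intro θ
      rw [Complex.add_re]
      simp only [hE, hD]
      ring
    simp_rw [e1]
    have i1 : IntegrableOn (fun θ : Fin n → ℝ => (c + lam (θ k)) * (p (θ k)).re * E θ) (box n) :=
      int_box (((continuous_const.add hlc).mul hpc).mul hEc)
    have i2 : IntegrableOn (fun θ : Fin n → ℝ => c * ((-Complex.I * D θ).re * E θ)) (box n) :=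
      int_box (continuous_const.mul (hDre.mul hEc))
    have i3 : IntegrableOn (fun θ : Fin n → ℝ => lam (θ k) * (-Complex.I * D θ).re * E θ) (box n) :=
      int_box ((hlc.mul hDre).mul hEc)
    have i12 : IntegrableOn (fun θ : Fin n → ℝ => (c + lam (θ k)) * (p (θ k)).re * E θ +
        c * ((-Complex.I * D θ).re * E θ)) (box n) := i1.add i2
    rw [integral_add i12 i3, integral_add i1 i2, integral_const_mul]
  rw [h4, h1, h2, mul_zero, add_zero]
  set S : ℝ := ∫ t in Set.Icc (0 : ℝ) (2 * π), (c + lam t) * (p t).re with hS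
  set R : ℝ := ∫ θ in box n, lam (θ k) * (-Complex.I * D θ).re * E θ with hR
  have e5 := prod_erase δ k
  have e6 : (S * (∏ l ∈ Finset.univ.erase k, (2 * π * δ l)) + R) / (2 * π) ^ n -
      S / (2 * π) * ∏ l ∈ Finset.univ.erase k, δ l = R / (2 * π) ^ n := by
    have e7 : S / (2 * π) * ∏ l ∈ Finset.univ.erase k, δ l =
        S * (∏ l ∈ Finset.univ.erase k, (2 * π * δ l)) / (2 * π) ^ n := by
      rw [div_mul_eq_mul_div, div_eq_div_iff h2π.ne' hV.ne']
      linear_combination (-S) * e5
    rw [e7]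
    ring
  rw [e6, abs_div, abs_of_pos hV, div_le_iff₀ hV]
  exact h3

end P4a177e
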