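import Pool.Agent.Lib.P4a177e.Defs

/-!
# MODULE P4a177e.ListB: bounds for one list of integers (est. 1.0 h; pure inequalities)

PROOF. All the `b i`, `i ≠ q`, satisfy `g ≤ |b i|` (compare with `b q = 0`). AT MOST TWO of them have
`|b i| < 2 g`: two different ones of the same sign in `[g, 2g)` would differ by less than `g`.
Put `ρ = rad g = g / 3`. So `|b i| - ρ ≥ 2g/3` always and `≥ 5g/3` with at most two exceptions
(`#{i ∈ erase q : |b i| < 2g} = c ≤ 2`), hence `S ≤ c / 2 + (k - c) / 5` and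
`∏ (|b i| - ρ) ≥ (2g/3)^c (5g/3)^(k-c)`.
* `k = 1`: `S ≤ 1/2`, `D ≥ 2 g² / 9`, `ν g² ≥ 8` (`g = 1`: `ν ≥ 16`; `g = 2`: `ν ≥ 2`;
  `g = 3`: `ν ≥ 1`), so `1/(νD) ≤ 9/16`, `(1+S)/(νD) ≤ 27/32`, `S/(νD) ≤ 9/32`,
  `S(1+S)/(νD) ≤ 27/64`.
* `k = j + 2`: `S ≤ 1 + j/5`, `D ≥ g^(k+1) (1/3)(2/3)^2 (5/3)^j`, `ν g^(k+1) ≥ ν g^3 ≥ 16`, so
  `1/(νD) ≤ (27/64)(3/5)^j`; finally `1 + j/5 ≤ (6/5)^j`, `1 + j/10 ≤ (11/10)^j` (Bernoulli,
  `one_add_mul_le_pow`) and `(6/5)(11/10)(3/5) ≤ 1`.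
(It is enough to treat both cases with the bounds `S ≤ 1 + j/5`, etc.)
-/

set_option autoImplicit false

namespace P4a177e

namespace ListBAux

theorem card_close {k : ℕ} (g : ℕ) (b : Fin (k + 1) → ℤ) (q : Fin (k + 1)) (hq : b q = 0)
    (hb : ∀ i j, i ≠ j → (g : ℤ) ≤ |b i - b j|) :
    ((Finset.univ.erase q).filter (fun i => |b i| < 2 * (g : ℤ))).card ≤ 2 := by
  have h : ((Finset.univ.erase q).filter (fun i => |b i| < 2 * (g : ℤ))).card ≤
      (Finset.univ : Finset Bool).card := by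
    apply Finset.card_le_card_of_injOn (fun i => decide (0 < b i)) (fun _ _ => Finset.mem_univ _)
    intro i hi j hj hij
    simp only [Finset.coe_filter, Finset.mem_erase, Finset.mem_univ, and_true,
      Set.mem_ofPred_eq] at hi hj
    by_contra hne
    have h1 := hb i j hne
    have h2 := hb i q hi.1
    have h3 := hb j q hj.1
    rw [hq, sub_zero] at h2 h3
    simp only [decide_eq_decide] at hij
    obtain ⟨-, hi⟩ := hi
    obtain ⟨-, hj⟩ := hj
    by_cases hp : 0 < b i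
    · have hp' := hij.mp hp
      rw [abs_of_pos hp] at hi h2
      rw [abs_of_pos hp'] at hj h3
      rcases abs_cases (b i - b j) with h4 | h4 <;> omega
    · have hp' : ¬ 0 < b j := fun h => hp (hij.mpr h)
      rw [abs_of_nonpos (by omega)] at hi h2
      rw [abs_of_nonpos (by omega)] at hj h3
      rcases abs_cases (b i - b j) with h4 | h4 <;> omega
  simpa using h

theorem final {j : ℕ} {T S : ℝ} (hT0 : 0 < T) (hS0 : 0 ≤ S) (hS : S ≤ 1 + j / 5)
    (hT : T ≤ 27 / 64 * (3 / 5) ^ j) :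
    T ≤ 9 / 16 ∧ (1 + S) * T ≤ 27 / 32 ∧ S * T ≤ 27 / 64 ∧ S * (1 + S) * T ≤ 27 / 32 := by
  have hj0 : (0 : ℝ) ≤ j := Nat.cast_nonneg j
  have hF0 : (0 : ℝ) < (3 / 5) ^ j := by positivity
  have b1 : 1 + (j : ℝ) / 5 ≤ (6 / 5) ^ j := by
    have := one_add_mul_le_pow (a := (1 / 5 : ℝ)) (by norm_num) j
    calc 1 + (j : ℝ) / 5 = 1 + j * (1 / 5) := by ring
      _ ≤ (1 + 1 / 5) ^ j := this
      _ = (6 / 5) ^ j := by norm_num
  have b2 : 1 + (j : ℝ) / 10 ≤ (11 / 10) ^ j := by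
    have := one_add_mul_le_pow (a := (1 / 10 : ℝ)) (by norm_num) j
    calc 1 + (j : ℝ) / 10 = 1 + j * (1 / 10) := by ring
      _ ≤ (1 + 1 / 10) ^ j := this
      _ = (11 / 10) ^ j := by norm_num
  have c0 : ((3 : ℝ) / 5) ^ j ≤ 1 := pow_le_one₀ (by norm_num) (by norm_num)
  have c1 : (1 + (j : ℝ) / 5) * (3 / 5) ^ j ≤ 1 := by
    calc (1 + (j : ℝ) / 5) * (3 / 5) ^ j ≤ (6 / 5) ^ j * (3 / 5) ^ j := by gcongr
      _ = (18 / 25) ^ j := by rw [← mul_pow]; norm_num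
      _ ≤ 1 := pow_le_one₀ (by norm_num) (by norm_num)
  have c2 : (1 + (j : ℝ) / 10) * (3 / 5) ^ j ≤ 1 := by
    calc (1 + (j : ℝ) / 10) * (3 / 5) ^ j ≤ (11 / 10) ^ j * (3 / 5) ^ j := by gcongr
      _ = (33 / 50) ^ j := by rw [← mul_pow]; norm_num
      _ ≤ 1 := pow_le_one₀ (by norm_num) (by norm_num)
  have c3 : (1 + (j : ℝ) / 5) * (1 + (j : ℝ) / 10) * (3 / 5) ^ j ≤ 1 := by
    calc (1 + (j : ℝ) / 5) * (1 + (j : ℝ) / 10) * (3 / 5) ^ j
        ≤ (6 / 5) ^ j * (11 / 10) ^ j * (3 / 5) ^ j := by gcongr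
      _ = (99 / 125) ^ j := by rw [← mul_pow, ← mul_pow]; norm_num
      _ ≤ 1 := pow_le_one₀ (by norm_num) (by norm_num)
  refine ⟨by linarith, ?_, ?_, ?_⟩
  · calc (1 + S) * T ≤ (1 + (1 + j / 5)) * (27 / 64 * (3 / 5) ^ j) := by gcongr
      _ = 27 / 32 * ((1 + (j : ℝ) / 10) * (3 / 5) ^ j) := by ring
      _ ≤ 27 / 32 := by linarith
  · calc S * T ≤ (1 + j / 5) * (27 / 64 * (3 / 5) ^ j) := by gcongr
      _ = 27 / 64 * ((1 + (j : ℝ) / 5) * (3 / 5) ^ j) := by ring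
      _ ≤ 27 / 64 := by linarith
  · calc S * (1 + S) * T ≤ (1 + j / 5) * (1 + (1 + j / 5)) * (27 / 64 * (3 / 5) ^ j) := by gcongr
      _ = 27 / 32 * ((1 + (j : ℝ) / 5) * (1 + (j : ℝ) / 10) * (3 / 5) ^ j) := by ring
      _ ≤ 27 / 32 := by linarith

end ListBAux

theorem list_bounds {k : ℕ} (hk : 1 ≤ k) (g : ℕ) (hg1 : 1 ≤ g) (hg3 : g ≤ 3)
    (b : Fin (k + 1) → ℤ) (q : Fin (k + 1)) (hq : b q = 0)
    (hb : ∀ i j, i ≠ j → (g : ℤ) ≤ |b i - b j|) (ν : ℝ) (hν1 : 1 ≤ ν) (hν : 16 ≤ ν * (g : ℝ) ^ 3)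
    (S D : ℝ) (hS : S = ∑ i ∈ Finset.univ.erase q, rad g / (|(b i : ℝ)| - rad g))
    (hD : D = rad g * ∏ i ∈ Finset.univ.erase q, (|(b i : ℝ)| - rad g)) :
    0 < D ∧ 0 ≤ S ∧ 1 / (ν * D) ≤ 9 / 16 ∧ (1 + S) * (1 / (ν * D)) ≤ 27 / 32 ∧
      S * (1 / (ν * D)) ≤ 27 / 64 ∧ S * (1 + S) * (1 / (ν * D)) ≤ 27 / 32 := by
  have hcl := ListBAux.card_close g b q hq hb
  set C := (Finset.univ.erase q).filter (fun i => |b i| < 2 * (g : ℤ)) with hC
  set F := (Finset.univ.erase q).filter (fun i => ¬ |b i| < 2 * (g : ℤ)) with hF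
  have hcard : C.card + F.card = k := by
    have := Finset.card_filter_add_card_filter_not (s := Finset.univ.erase q)
      (fun i => |b i| < 2 * (g : ℤ))
    rw [Finset.card_erase_of_mem (Finset.mem_univ q), Finset.card_univ, Fintype.card_fin,
      Nat.add_sub_cancel] at this
    exact this
  have hG1 : (1 : ℝ) ≤ (g : ℝ) := by exact_mod_cast hg1
  have hG0 : (0 : ℝ) < (g : ℝ) := by linarith
  set G : ℝ := (g : ℝ) with hG
  have hr : rad g = G / 3 := rfl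
  rw [hr] at hS hD
  have hvC : ∀ i ∈ Finset.univ.erase q, 2 * G / 3 ≤ |(b i : ℝ)| - G / 3 := by
    intro i hi
    have h1 := hb i q (Finset.ne_of_mem_erase hi)
    rw [hq, sub_zero] at h1
    have h2 : (g : ℝ) ≤ |(b i : ℝ)| := by exact_mod_cast h1
    rw [hG]
    linarith
  have hvF : ∀ i ∈ F, 5 * G / 3 ≤ |(b i : ℝ)| - G / 3 := by
    intro i hi
    have h1 := (Finset.mem_filter.mp hi).2
    rw [not_lt] at h1
    have h2 : 2 * (g : ℝ) ≤ |(b i : ℝ)| := by exact_mod_cast h1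
    rw [hG]
    linarith
  have hu0 : ∀ i ∈ Finset.univ.erase q, 0 ≤ G / 3 / (|(b i : ℝ)| - G / 3) := by
    intro i hi
    have := hvC i hi
    have h3 : 0 < |(b i : ℝ)| - G / 3 := by linarith
    positivity
  have huC : ∀ i ∈ C, G / 3 / (|(b i : ℝ)| - G / 3) ≤ 1 / 2 := by
    intro i hi
    have := hvC i (Finset.mem_filter.mp hi).1
    have h3 : 0 < |(b i : ℝ)| - G / 3 := by linarith
    rw [div_le_iff₀ h3]
    linarith
  have huF : ∀ i ∈ F, G / 3 / (|(b i : ℝ)| - G / 3) ≤ 1 / 5 := by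
    intro i hi
    have := hvF i hi
    have h3 : 0 < |(b i : ℝ)| - G / 3 := by linarith
    rw [div_le_iff₀ h3]
    linarith
  have hS0 : 0 ≤ S := by rw [hS]; exact Finset.sum_nonneg hu0
  have hSle : S ≤ C.card / 2 + F.card / 5 := by
    rw [hS, ← Finset.sum_filter_add_sum_filter_not (Finset.univ.erase q)
      (fun i => |b i| < 2 * (g : ℤ))]
    have e1 := Finset.sum_le_card_nsmul C _ _ huC
    have e2 := Finset.sum_le_card_nsmul F _ _ huF
    simp only [nsmul_eq_mul] at e1 e2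
    linarith
  have hPle : (2 * G / 3) ^ C.card * (5 * G / 3) ^ F.card ≤
      ∏ i ∈ Finset.univ.erase q, (|(b i : ℝ)| - G / 3) := by
    rw [← Finset.prod_filter_mul_prod_filter_not (Finset.univ.erase q)
      (fun i => |b i| < 2 * (g : ℤ))]
    have e1 : (2 * G / 3) ^ C.card ≤ ∏ i ∈ C, (|(b i : ℝ)| - G / 3) := by
      rw [← Finset.prod_const]
      exact Finset.prod_le_prod (fun _ _ => by positivity)
        (fun i hi => hvC i (Finset.mem_filter.mp hi).1)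
    have e2 : (5 * G / 3) ^ F.card ≤ ∏ i ∈ F, (|(b i : ℝ)| - G / 3) := by
      rw [← Finset.prod_const]
      exact Finset.prod_le_prod (fun _ _ => by positivity) (fun i hi => hvF i hi)
    exact mul_le_mul e1 e2 (by positivity) (le_trans (by positivity) e1)
  have hD0 : 0 < D := by
    rw [hD]
    have : 0 < ∏ i ∈ Finset.univ.erase q, (|(b i : ℝ)| - G / 3) :=
      lt_of_lt_of_le (by positivity) hPle
    positivity
  have hν0 : 0 < ν := by linarith
  have hT0 : 0 < 1 / (ν * D) := by positivity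
  refine ⟨hD0, hS0, ?_⟩
  rcases Nat.lt_or_ge k 2 with hk2 | hk2
  · -- the case `k = 1`
    have hk1 : C.card + F.card = 1 := by omega
    have hνg : 8 ≤ ν * G ^ 2 := by
      have : g = 1 ∨ g = 2 ∨ g = 3 := by omega
      rcases this with h | h | h
      · rw [hG, h] at hν ⊢; norm_num at hν ⊢; linarith
      · rw [hG, h] at hν ⊢; norm_num at hν ⊢; linarith
      · rw [hG, h]; norm_num; linarith
    have hP : 2 * G / 3 ≤ ∏ i ∈ Finset.univ.erase q, (|(b i : ℝ)| - G / 3) := by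
      refine le_trans ?_ hPle
      have : (C.card = 0 ∧ F.card = 1) ∨ (C.card = 1 ∧ F.card = 0) := by omega
      rcases this with ⟨h1, h2⟩ | ⟨h1, h2⟩
      · rw [h1, h2]; norm_num; linarith
      · rw [h1, h2]; norm_num
    have hS2 : S ≤ 1 / 2 := by
      refine hSle.trans ?_
      have h1 : (C.card : ℝ) + F.card = 1 := by exact_mod_cast hk1
      have h2 : (0 : ℝ) ≤ F.card := Nat.cast_nonneg _
      linarith
    have hνD : 16 / 9 ≤ ν * D := by
      rw [hD]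
      calc (16 : ℝ) / 9 ≤ (ν * G ^ 2) * (2 / 9) := by linarith
        _ = ν * (G / 3 * (2 * G / 3)) := by ring
        _ ≤ ν * (G / 3 * ∏ i ∈ Finset.univ.erase q, (|(b i : ℝ)| - G / 3)) := by gcongr
    have hT : 1 / (ν * D) ≤ 9 / 16 := by
      rw [div_le_iff₀ (by positivity)]
      linarith
    refine ⟨hT, ?_, ?_, ?_⟩
    · calc (1 + S) * (1 / (ν * D)) ≤ (1 + 1 / 2) * (9 / 16) := by gcongr
        _ ≤ 27 / 32 := by norm_num
    · calc S * (1 / (ν * D)) ≤ (1 / 2) * (9 / 16) := by gcongr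
        _ ≤ 27 / 64 := by norm_num
    · calc S * (1 + S) * (1 / (ν * D)) ≤ (1 / 2) * (1 + 1 / 2) * (9 / 16) := by gcongr
        _ ≤ 27 / 32 := by norm_num
  · -- the case `k = j + 2`
    obtain ⟨j, rfl⟩ : ∃ j, k = j + 2 := ⟨k - 2, by omega⟩
    refine ListBAux.final (j := j) hT0 hS0 ?_ ?_
    · refine hSle.trans ?_
      have h1 : (C.card : ℝ) + F.card = j + 2 := by exact_mod_cast hcard
      have h2 : (C.card : ℝ) ≤ 2 := by exact_mod_cast hcl
      linarith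
    · have hP : (2 * G / 3) ^ 2 * (5 * G / 3) ^ j ≤
          ∏ i ∈ Finset.univ.erase q, (|(b i : ℝ)| - G / 3) := by
        refine le_trans ?_ hPle
        have hE : (0 : ℝ) < (5 * G / 3) ^ j := by positivity
        have : (C.card = 0 ∧ F.card = j + 2) ∨ (C.card = 1 ∧ F.card = j + 1) ∨
            (C.card = 2 ∧ F.card = j) := by omega
        rcases this with ⟨h1, h2⟩ | ⟨h1, h2⟩ | ⟨h1, h2⟩
        · rw [h1, h2]
          calc (2 * G / 3) ^ 2 * (5 * G / 3) ^ j ≤ (5 * G / 3) ^ 2 * (5 * G / 3) ^ j := by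
                gcongr
                norm_num
            _ = (2 * G / 3) ^ 0 * (5 * G / 3) ^ (j + 2) := by ring
        · rw [h1, h2]
          calc (2 * G / 3) ^ 2 * (5 * G / 3) ^ j =
              (2 * G / 3) * (2 * G / 3) * (5 * G / 3) ^ j := by ring
            _ ≤ (2 * G / 3) * (5 * G / 3) * (5 * G / 3) ^ j := by
                gcongr
                norm_num
            _ = (2 * G / 3) ^ 1 * (5 * G / 3) ^ (j + 1) := by ring
        · rw [h1, h2]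
      have hνD : 64 / 27 * (5 / 3) ^ j ≤ ν * D := by
        rw [hD]
        have hGj : (1 : ℝ) ≤ G ^ j := one_le_pow₀ hG1
        calc (64 : ℝ) / 27 * (5 / 3) ^ j = 16 * (4 / 27 * (5 / 3) ^ j) * 1 := by ring
          _ ≤ (ν * G ^ 3) * (4 / 27 * (5 / 3) ^ j) * G ^ j := by gcongr
          _ = ν * (G / 3 * ((2 * G / 3) ^ 2 * (5 * G / 3) ^ j)) := by
              rw [show 5 * G / 3 = (5 / 3) * G by ring, mul_pow (5 / 3 : ℝ) G j]
              ring
          _ ≤ ν * (G / 3 * ∏ i ∈ Finset.univ.erase q, (|(b i : ℝ)| - G / 3)) := by gcongr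
      rw [div_le_iff₀ (by positivity)]
      have hEF : ((3 : ℝ) / 5) ^ j * (5 / 3) ^ j = 1 := by
        rw [← mul_pow]; norm_num
      have hF0 : (0 : ℝ) < (3 / 5) ^ j := by positivity
      calc (1 : ℝ) = 27 / 64 * (3 / 5) ^ j * (64 / 27 * (5 / 3) ^ j) := by
            linear_combination -hEF
        _ ≤ 27 / 64 * (3 / 5) ^ j * (ν * D) := by gcongr

end P4a177e
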