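import Mathlib

/-!
# The maximum principle for zero-sum tensors

Replace `v` by `-v` if necessary so that `M = max |v|` is attained at a `q` with `v q = M > 0`. If
`∑ i, v i * R q i = 0` then `∑ v i * mm q i = ∑ v i * (mm q i - R q i) ≤ M ∑ E q i` in absolute value, but
`-∑ v i mm q i ≥ M (lN + ∑ (m s + 1) lg)`.
-/

set_option autoImplicit false

namespace P4a177e

open Function

namespace MaxPAux

variable {ι : Type} [Fintype ι] [DecidableEq ι]

lemma sum_delta (m : ι → ℕ) (v : (∀ s, Fin (m s + 1)) → ℝ) (q : ∀ s, Fin (m s + 1)) :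
    ∑ i, v i * ∏ s, (if i s = q s then (1 : ℝ) else 0) = v q := by
  rw [Finset.sum_eq_single q]
  · simp
  · intro i _ hi
    obtain ⟨s, hs⟩ := Function.ne_iff.1 hi
    rw [Finset.prod_eq_zero (Finset.mem_univ s) (by rw [if_neg hs]), mul_zero]
  · intro h
    exact absurd (Finset.mem_univ q) h

lemma sum_line (m : ι → ℕ) (v : (∀ s, Fin (m s + 1)) → ℝ) (q : ∀ s, Fin (m s + 1)) (s : ι)
    (f : Fin (m s + 1) → ℝ) :
    ∑ i, v i * (f (i s) * ∏ t ∈ Finset.univ.erase s, (if i t = q t then (1 : ℝ) else 0)) =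
      ∑ k, v (update q s k) * f k := by
  symm
  refine Fintype.sum_of_injective (fun k => update q s k) (update_injective q s) _ _ ?_ ?_
  · intro i hi
    obtain ⟨t, ht, hts⟩ : ∃ t, t ≠ s ∧ i t ≠ q t := by
      by_contra hc
      push Not at hc
      refine hi ⟨i s, ?_⟩
      funext t
      by_cases h : t = s
      · subst h
        simp
      · simp only [update_of_ne h]
        exact (hc t h).symm
    rw [Finset.prod_eq_zero (Finset.mem_erase.2 ⟨ht, Finset.mem_univ t⟩) (by rw [if_neg hts]),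
      mul_zero, mul_zero]
  · intro k
    rw [update_self]
    rw [Finset.prod_eq_one, mul_one]
    intro t ht
    rw [update_of_ne (Finset.ne_of_mem_erase ht), if_pos rfl]

omit [Fintype ι] in
lemma line_ge (m : ι → ℕ) (v : (∀ s, Fin (m s + 1)) → ℝ) (q : ∀ s, Fin (m s + 1)) (s : ι)
    (hsum : ∀ s i, ∑ k, v (update i s k) = 0)
    (L : Fin (m s + 1) → Fin (m s + 1) → ℝ) (lg : ℝ)
    (hL : ∀ i k, i ≠ k → lg ≤ L i k) (hmax : ∀ i, |v i| ≤ v q) :
    ((m s : ℝ) + 1) * lg * v q ≤ ∑ k, v (update q s k) *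
      (if k = q s then ∑ k ∈ Finset.univ.erase (q s), L (q s) k else -L (q s) k) := by
  have h1 : ∑ k ∈ Finset.univ.erase (q s), v (update q s k) = -v q := by
    have h2 := hsum s q
    rw [← Finset.add_sum_erase _ _ (Finset.mem_univ (q s)), update_eq_self] at h2
    linarith
  rw [← Finset.add_sum_erase _ _ (Finset.mem_univ (q s)), update_eq_self, if_pos rfl]
  have h3 : ∑ k ∈ Finset.univ.erase (q s), v (update q s k) *
      (if k = q s then ∑ k ∈ Finset.univ.erase (q s), L (q s) k else -L (q s) k) =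
      ∑ k ∈ Finset.univ.erase (q s), v (update q s k) * (-L (q s) k) := by
    refine Finset.sum_congr rfl fun k hk => ?_
    rw [if_neg (Finset.ne_of_mem_erase hk)]
  rw [h3, Finset.mul_sum, ← Finset.sum_add_distrib]
  have h4 : ∀ k ∈ Finset.univ.erase (q s), lg * (v q - v (update q s k)) ≤
      v q * L (q s) k + v (update q s k) * (-L (q s) k) := by
    intro k hk
    have h5 := hL (q s) k (Finset.ne_of_mem_erase hk).symm
    have h6 : v (update q s k) ≤ v q := (le_abs_self _).trans (hmax _)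
    nlinarith
  refine le_trans (le_of_eq ?_) (Finset.sum_le_sum h4)
  rw [← Finset.mul_sum, Finset.sum_sub_distrib, h1, Finset.sum_const,
    Finset.card_erase_of_mem (Finset.mem_univ _), Finset.card_univ, Fintype.card_fin,
    Nat.add_sub_cancel, nsmul_eq_mul]
  ring

lemma aux (m : ι → ℕ)
    (v : (∀ s, Fin (m s + 1)) → ℝ) (hsum : ∀ s i, ∑ k, v (update i s k) = 0)
    (L : ∀ s, Fin (m s + 1) → Fin (m s + 1) → ℝ) (lN lg : ℝ)
    (hL : ∀ s i k, i ≠ k → lg ≤ L s i k)
    (R E : (∀ s, Fin (m s + 1)) → (∀ s, Fin (m s + 1)) → ℝ)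
    (hR : ∀ q i, |R q i - -(lN * (∏ s, if i s = q s then 1 else 0) +
      ∑ s, (if i s = q s then ∑ k ∈ Finset.univ.erase (q s), L s (q s) k else -L s (q s) (i s)) *
        ∏ t ∈ Finset.univ.erase s, if i t = q t then 1 else 0)| ≤ E q i)
    (hE : ∀ q, ∑ i, E q i < lN + ∑ s, ((m s : ℝ) + 1) * lg)
    (q : ∀ s, Fin (m s + 1)) (hq : 0 < v q) (hmax : ∀ i, |v i| ≤ v q) :
    ∑ i, v i * R q i ≠ 0 := by
  intro h0
  set D : (∀ s, Fin (m s + 1)) → ℝ := fun i => lN * (∏ s, if i s = q s then 1 else 0) +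
      ∑ s, (if i s = q s then ∑ k ∈ Finset.univ.erase (q s), L s (q s) k else -L s (q s) (i s)) *
        ∏ t ∈ Finset.univ.erase s, if i t = q t then 1 else 0 with hD
  have h1 : ∑ i, v i * D i = lN * v q + ∑ s, ∑ k, v (update q s k) *
      (if k = q s then ∑ k ∈ Finset.univ.erase (q s), L s (q s) k else -L s (q s) k) := by
    have e1 : ∀ i, v i * D i = lN * (v i * ∏ s, (if i s = q s then (1 : ℝ) else 0)) +
        ∑ s, v i * ((if i s = q s then ∑ k ∈ Finset.univ.erase (q s), L s (q s) k else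
          -L s (q s) (i s)) * ∏ t ∈ Finset.univ.erase s, if i t = q t then (1 : ℝ) else 0) := by
      intro i
      simp only [hD]
      rw [mul_add, Finset.mul_sum]
      ring
    rw [Finset.sum_congr rfl (fun i _ => e1 i), Finset.sum_add_distrib, ← Finset.mul_sum,
      sum_delta, Finset.sum_comm]
    congr 1
    refine Finset.sum_congr rfl fun s _ => ?_
    exact sum_line m v q s (fun k => if k = q s then
      ∑ k ∈ Finset.univ.erase (q s), L s (q s) k else -L s (q s) k)
  have h2 : lN * v q + ∑ s, ((m s : ℝ) + 1) * lg * v q ≤ ∑ i, v i * D i := by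
    rw [h1]
    exact add_le_add le_rfl (Finset.sum_le_sum fun s _ => line_ge m v q s hsum (L s) lg (hL s) hmax)
  have h3 : ∑ i, v i * D i = ∑ i, v i * (R q i - -D i) := by
    have : ∀ i, v i * (R q i - -D i) = v i * R q i + v i * D i := fun i => by ring
    rw [Finset.sum_congr rfl (fun i _ => this i), Finset.sum_add_distrib, h0, zero_add]
  have h4 : ∑ i, v i * (R q i - -D i) ≤ ∑ i, v q * E q i := by
    refine Finset.sum_le_sum fun i _ => ?_
    refine (le_abs_self _).trans ?_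
    rw [abs_mul]
    exact mul_le_mul (hmax i) (hR q i) (abs_nonneg _) hq.le
  rw [← Finset.mul_sum] at h4
  have h5 := mul_lt_mul_of_pos_left (hE q) hq
  have h6 : ∑ s, ((m s : ℝ) + 1) * lg * v q = v q * ∑ s, ((m s : ℝ) + 1) * lg := by
    rw [← Finset.sum_mul]
    ring
  rw [h6] at h2
  nlinarith [h2, h3, h4, h5]

end MaxPAux

open MaxPAux

theorem max_principle {ι : Type} [Fintype ι] [DecidableEq ι] (m : ι → ℕ)
    (v : (∀ s, Fin (m s + 1)) → ℝ) (hv : v ≠ 0) (hsum : ∀ s i, ∑ k, v (update i s k) = 0)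
    (L : ∀ s, Fin (m s + 1) → Fin (m s + 1) → ℝ) (lN lg : ℝ) (hlg : 0 ≤ lg)
    (hL : ∀ s i k, i ≠ k → lg ≤ L s i k)
    (R E : (∀ s, Fin (m s + 1)) → (∀ s, Fin (m s + 1)) → ℝ)
    (hR : ∀ q i, |R q i - -(lN * (∏ s, if i s = q s then 1 else 0) +
      ∑ s, (if i s = q s then ∑ k ∈ Finset.univ.erase (q s), L s (q s) k else -L s (q s) (i s)) *
        ∏ t ∈ Finset.univ.erase s, if i t = q t then 1 else 0)| ≤ E q i)
    (hE : ∀ q, ∑ i, E q i < lN + ∑ s, ((m s : ℝ) + 1) * lg) :
    ∃ q, ∑ i, v i * R q i ≠ 0 := by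
  have _ := hlg
  obtain ⟨j, hj⟩ := Function.ne_iff.1 hv
  obtain ⟨q, -, hq⟩ := Finset.exists_max_image Finset.univ (fun i => |v i|) ⟨j, Finset.mem_univ j⟩
  have hq0 : 0 < |v q| := lt_of_lt_of_le (abs_pos.2 hj) (hq j (Finset.mem_univ j))
  refine ⟨q, ?_⟩
  rcases le_total 0 (v q) with h | h
  · rw [abs_of_nonneg h] at hq0
    refine aux m v hsum L lN lg hL R E hR hE q hq0 fun i => ?_
    have := hq i (Finset.mem_univ i)
    rwa [abs_of_nonneg h] at this
  · rw [abs_of_nonpos h] at hq0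
    have h1 := aux m (fun i => -v i) (fun s i => by
      rw [Finset.sum_neg_distrib, hsum s i, neg_zero]) L lN lg hL R E hR hE q hq0 (fun i => by
        have := hq i (Finset.mem_univ i)
        rw [abs_of_nonpos h] at this
        rw [abs_neg]
        exact this)
    intro h2
    apply h1
    have : ∀ i, -v i * R q i = -(v i * R q i) := fun i => by ring
    rw [Finset.sum_congr rfl (fun i _ => this i), Finset.sum_neg_distrib, h2, neg_zero]

end P4a177e
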