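import Pool.Agent.Lib.P4a177h.Defs

/-!
# MODULE P4a177e.Multi: expansion of the symbols (est. 1.1 h; algebra only)

PROOF. `F` is additive in every entry, with values in `ℝ`: so `F (update a s (-b)) = F (update a s b)`
(`2 F(-b) = F((-b)^2) = F(b^2) = 2 F(b)`) and `F (update a s (b / c)) = F (… b) - F (… c)`. For fixed
`p` expand the entries one after the other (induction on a `Finset` of entries, or `F` as a
`MultilinearMap ℤ (fun _ => Additive Rˣ) ℝ` and `MultilinearMap.map_sum`): with
`e s k = (if k = (p s).succ then 1 else 0) - (if k = 0 then 1 else 0)`,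
`F (fun s => -(u s (p s).succ / u s 0)) = ∑_i (∏_s e s (i s)) * F (fun s => u s (i s))`.
`hat_sum_zero`: `∑_k e s k = 0` (`(p s).succ ≠ 0`). `hat_ne_zero`: for `i s = (p' s).succ`:
`hat m v i = v p'`.
-/

set_option autoImplicit false

namespace P4a177e

open Function

/-- The coefficients of the expansion. -/
noncomputable def hat {n : ℕ} (m : Fin n → ℕ) (v : (∀ s, Fin (m s)) → ℝ)
    (i : ∀ s, Fin (m s + 1)) : ℝ :=
  ∑ p : ∀ s, Fin (m s), v p * ∏ s, ((if i s = (p s).succ then 1 else 0) - if i s = 0 then 1 else 0)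

theorem hat_sum_zero {n : ℕ} (m : Fin n → ℕ) (v : (∀ s, Fin (m s)) → ℝ) (s : Fin n)
    (i : ∀ s, Fin (m s + 1)) : ∑ k, hat m v (update i s k) = 0 := by
  unfold hat
  rw [Finset.sum_comm]
  refine Finset.sum_eq_zero fun p _ => ?_
  rw [← Finset.mul_sum]
  have h : ∑ k : Fin (m s + 1), ∏ t, ((if update i s k t = (p t).succ then (1 : ℝ) else 0) -
      if update i s k t = 0 then 1 else 0) = 0 := by
    have h1 : ∀ k : Fin (m s + 1), ∏ t, ((if update i s k t = (p t).succ then (1 : ℝ) else 0) -
        if update i s k t = 0 then 1 else 0) =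
        ((if k = (p s).succ then (1 : ℝ) else 0) - if k = 0 then 1 else 0) *
          ∏ t ∈ Finset.univ.erase s, ((if i t = (p t).succ then (1 : ℝ) else 0) -
            if i t = 0 then 1 else 0) := by
      intro k
      rw [← Finset.mul_prod_erase Finset.univ _ (Finset.mem_univ s)]
      congr 1
      · rw [update_self]
      · refine Finset.prod_congr rfl fun t ht => ?_
        rw [update_of_ne (Finset.ne_of_mem_erase ht)]
    rw [Finset.sum_congr rfl fun k _ => h1 k, ← Finset.sum_mul, Finset.sum_sub_distrib]
    simp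
  rw [h, mul_zero]

theorem hat_ne_zero {n : ℕ} (m : Fin n → ℕ) (v : (∀ s, Fin (m s)) → ℝ) (hv : v ≠ 0) :
    hat m v ≠ 0 := by
  classical
  intro h
  apply hv
  funext p'
  have h1 := congrFun h fun s => (p' s).succ
  unfold hat at h1
  rw [Finset.sum_eq_single p'] at h1
  · simpa using h1
  · intro p _ hp
    obtain ⟨s, hs⟩ := Function.ne_iff.mp hp
    rw [Finset.prod_eq_zero (Finset.mem_univ s), mul_zero]
    have h2 : ¬ (p' s).succ = (p s).succ := by
      intro h3
      exact hs (Fin.succ_injective _ h3).symm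
    rw [if_neg h2, if_neg (Fin.succ_ne_zero _), sub_zero]
  · intro hp
    exact absurd (Finset.mem_univ _) hp

/-- `F` as a multilinear map. -/
private noncomputable def multi {n : ℕ} {R : Type} [CommRing R] (F : (Fin n → Rˣ) → ℝ)
    (hF : ∀ (a : Fin n → Rˣ) (i : Fin n) (b c : Rˣ),
      F (update a i (b * c)) = F (update a i b) + F (update a i c)) :
    MultilinearMap ℤ (fun _ : Fin n => Additive Rˣ) ℝ where
  toFun a := F fun s => (a s).toMul
  map_update_add' := by
    intro inst a i x y
    obtain rfl : inst = instDecidableEqFin n := Subsingleton.elim _ _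
    have e : ∀ z : Additive Rˣ, (fun s => (update a i z s).toMul) =
        update (fun s => (a s).toMul) i z.toMul := by
      intro z
      funext s
      by_cases h : s = i
      · subst h
        simp
      · simp [h]
    rw [e, e, e]
    exact hF _ _ _ _
  map_update_smul' := by
    intro inst a i c x
    obtain rfl : inst = instDecidableEqFin n := Subsingleton.elim _ _
    have e : ∀ z : Additive Rˣ, (fun s => (update a i z s).toMul) =
        update (fun s => (a s).toMul) i z.toMul := by
      intro z
      funext s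
      by_cases h : s = i
      · subst h
        simp
      · simp [h]
    rw [e, e]
    let G : Additive Rˣ →+ ℝ := AddMonoidHom.mk' (fun z => F (update (fun s => (a s).toMul) i z.toMul))
      (fun x y => hF _ _ _ _)
    exact G.map_zsmul c x

theorem sum_multi {n : ℕ} {R : Type} [CommRing R] (F : (Fin n → Rˣ) → ℝ)
    (hF : ∀ (a : Fin n → Rˣ) (i : Fin n) (b c : Rˣ),
      F (update a i (b * c)) = F (update a i b) + F (update a i c))
    (m : Fin n → ℕ) (u : ∀ s, Fin (m s + 1) → Rˣ) (v : (∀ s, Fin (m s)) → ℝ) :
    ∑ p : ∀ s, Fin (m s), v p * F (fun s => -(u s (p s).succ / u s 0)) =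
      ∑ i : ∀ s, Fin (m s + 1), hat m v i * F (fun s => u s (i s)) := by
  classical
  set f := multi F hF with hf
  have hfa : ∀ a : Fin n → Rˣ, F a = f fun s => Additive.ofMul (a s) := fun a => rfl
  -- torsion entries
  have htor : ∀ (τ y : Fin n → Additive Rˣ), (∀ s, (2 : ℤ) • τ s = 0) → f (τ + y) = f y := by
    intro τ y hτ
    rw [f.map_add_univ τ y, Finset.sum_eq_single ∅]
    · rw [Finset.piecewise_empty]
    · intro T _ hT
      obtain ⟨s, hs⟩ := Finset.nonempty_iff_ne_empty.mpr hT
      have h1 : (2 : ℤ) • f (T.piecewise τ y) = 0 := by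
        have h2 := f.map_update_smul (T.piecewise τ y) s (2 : ℤ) (T.piecewise τ y s)
        rw [update_eq_self] at h2
        rw [← h2, Finset.piecewise_eq_of_mem _ _ _ hs, hτ s]
        exact f.map_update_zero _ _
      have h3 : (2 : ℝ) * f (T.piecewise τ y) = 0 := by
        rw [zsmul_eq_mul] at h1
        exact_mod_cast h1
      linarith
    · intro h
      exact absurd (Finset.mem_univ _) h
  have hexp : ∀ p : ∀ s, Fin (m s), F (fun s => -(u s (p s).succ / u s 0)) =
      ∑ i : ∀ s, Fin (m s + 1), (∏ s, ((if i s = (p s).succ then (1 : ℝ) else 0) -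
        if i s = 0 then 1 else 0)) * F (fun s => u s (i s)) := by
    intro p
    let e : ∀ s, Fin (m s + 1) → ℤ := fun s k =>
      (if k = (p s).succ then 1 else 0) - if k = 0 then 1 else 0
    have h1 : (fun s => Additive.ofMul (-(u s (p s).succ / u s 0))) =
        (fun _ => Additive.ofMul (-1 : Rˣ)) +
          fun s => ∑ k, e s k • Additive.ofMul (u s k) := by
      funext s
      have h2 : ∑ k, e s k • Additive.ofMul (u s k) =
          Additive.ofMul (u s (p s).succ) - Additive.ofMul (u s 0) := by
        simp only [e, sub_smul, Finset.sum_sub_distrib, ite_smul, one_smul, zero_smul,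
          Finset.sum_ite_eq', Finset.mem_univ, if_true]
      rw [Pi.add_apply, h2, ← ofMul_div, ← ofMul_mul, neg_one_mul]
    have h3 : ∀ s : Fin n, (2 : ℤ) • (fun _ : Fin n => Additive.ofMul (-1 : Rˣ)) s = 0 := by
      intro s
      show (2 : ℤ) • Additive.ofMul (-1 : Rˣ) = 0
      rw [← ofMul_zpow]
      have : ((-1 : Rˣ) ^ (2 : ℤ)) = 1 := by
        rw [show (2 : ℤ) = ((2 : ℕ) : ℤ) by norm_num, zpow_natCast]
        exact neg_one_sq
      rw [this]
      rfl
    rw [hfa, h1, htor _ _ h3, f.map_sum fun s k => e s k • Additive.ofMul (u s k)]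
    refine Finset.sum_congr rfl fun i _ => ?_
    rw [f.map_smul_univ (fun s => e s (i s)) fun s => Additive.ofMul (u s (i s)), zsmul_eq_mul, hfa]
    congr 1
    rw [Int.cast_prod]
    refine Finset.prod_congr rfl fun s _ => ?_
    simp only [e]
    push_cast
    rfl
  rw [Finset.sum_congr rfl fun p _ => by rw [hexp p]]
  simp only [Finset.mul_sum]
  rw [Finset.sum_comm]
  refine Finset.sum_congr rfl fun i _ => ?_
  unfold hat
  rw [Finset.sum_mul]
  refine Finset.sum_congr rfl fun p _ => ?_
  ring

end P4a177e
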