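import Pool.Agent.Lib.P4a177e.DerivB
import Pool.Agent.Lib.P4a177e.DerivC
import Pool.Agent.Lib.P4a177e.IntT
import Pool.Agent.Lib.P4a177t.RegDiag

/-!
# MODULE P4a177e.RegE: the regulator of the symbol with the entries `x_s - a_{s,i s}` (est. 1.5 h)

PROOF. `regFun_diag` (P4a177t) with `m = d + 1`, `a s = A.linU N s (i s)`,
`f j = ph (rad g) (df A q j.succ (i j.succ))` (`dlogRow_succ`, `ph_continuous`). Put
`δ j = if i j.succ = q j.succ then 1 else 0` (`integral_ph`: `df = 0` iff the indices are equal, `A.inj`),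
`F j = fF A g q j.succ (i j.succ)` (`ph_zero`, `ph_norm_le`, `rad_lt`).
* The first integral is `integral_T0` with (`log_emb_zero`) `W = WW T (i 0)`, `w = wB … (i 0)`, and
  if `i 0 = q 0`: `c = -log N - ∑_{k≠q 0} log |df 0 k| - ∑_j ∑_k cc (df j.succ k)`,
  `Λ j = ∑_k lm (df j.succ k)`; if `i 0 ≠ q 0`: `c = log |df 0 (i 0)|`, `Λ = 0`.
* The integral number `k` is `integral_TJ` with (`log_emb_succ`, `dlogRow_zero`)
  `c = cc (df k.succ (i k.succ))`, `lam = lm (df k.succ (i k.succ))`, `G = fG … (i k.succ)`,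
  `W = WW T (i 0)`, `B = wB * kk * SS k.succ` (`WW_fderiv_le`), and `p = -∑_k' ph (df k.succ k')` if
  `i 0 = q 0`, `p = 0` if `i 0 ≠ q 0`.
The sum of the bounds of the errors is `EB`. The sum of the main terms is `mm`: by `integral_symm`,
`integral_lm`, `integral_ph`, for `i 0 = q 0`
`∫ (c + lam) Re p = -2π c - ∑_k' ∫ lm_{i} Re ph_{k'} = -2π c - ∫ Λ_k Re ph_{i}`; so the integrals of
the `Λ_k Re ph_i` cancel and the main term is
`(-log N - ∑_{k≠q 0} log|df 0 k| - ∑_j ∑_k cc_{j,k}) ∏ δ + ∑_j cc (df j.succ (i j.succ)) ∏_{l≠j} δ_l`;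
if `i j.succ = q j.succ` then `cc = log ρ`, it cancels against the term `k = q` of `∑_k cc_{j,k}`
(if all the other `δ` are `1`, otherwise both are multiplied by `0`), and if not, then
`∏_{l≠j} δ_l * δ_j = 0` and `cc = log |df|`: this is `mm` (definitions `mm`, `lap`; the products over
`Fin (d + 2)` split by `Fin.prod_univ_succ`; for the products over `erase` it helps to write them
as products over all indices with an `if`). For `i 0 ≠ q 0` both are
`log |df 0 (i 0)| * ∏ δ`.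
-/

set_option autoImplicit false

namespace P4a177e

open P4a177h Function MeasureTheory
open scoped Real

variable {d : ℕ} {A : Fam d} {g N : ℕ} {q : ∀ s, Fin (A.m s + 1)}

namespace RegEAux

theorem prod_erase_ite {ι : Type*} [Fintype ι] [DecidableEq ι] (u : ι → ℝ) (a : ι) :
    ∏ t ∈ Finset.univ.erase a, u t = ∏ t, if t = a then 1 else u t := by
  rw [← Finset.prod_erase Finset.univ (f := fun t => if t = a then 1 else u t) (a := a)
    (if_pos rfl)]
  refine Finset.prod_congr rfl fun t ht => ?_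
  rw [if_neg (Finset.ne_of_mem_erase ht)]

theorem prod_erase_zero {n : ℕ} (u : Fin (n + 1) → ℝ) :
    ∏ t ∈ Finset.univ.erase 0, u t = ∏ j : Fin n, u j.succ := by
  rw [prod_erase_ite, Fin.prod_univ_succ, if_pos rfl, one_mul]
  refine Finset.prod_congr rfl fun j _ => ?_
  rw [if_neg (Fin.succ_ne_zero j)]

theorem prod_erase_succ {n : ℕ} (u : Fin (n + 1) → ℝ) (j : Fin n) :
    ∏ t ∈ Finset.univ.erase j.succ, u t = u 0 * ∏ l ∈ Finset.univ.erase j, u (Fin.succ l) := by
  rw [prod_erase_ite, Fin.prod_univ_succ, if_neg (Fin.succ_ne_zero j).symm, prod_erase_ite]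
  congr 1
  refine Finset.prod_congr rfl fun l _ => ?_
  simp only [Fin.succ_inj]

theorem df_eq_zero {s : Fin (d + 2)} {k : Fin (A.m s + 1)} : df A q s k = 0 ↔ k = q s := by
  unfold df
  rw [sub_eq_zero]
  exact ⟨fun h => (A.inj s h).symm, fun h => by rw [h]⟩

theorem dfc_eq_zero {s : Fin (d + 2)} {k : Fin (A.m s + 1)} :
    ((df A q s k : ℤ) : ℂ) = 0 ↔ k = q s := by
  rw [Int.cast_eq_zero]
  exact df_eq_zero

theorem dfc_lt (h : Good A g N) {s : Fin (d + 2)} {k : Fin (A.m s + 1)} (hk : k ≠ q s) :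
    rad g < ‖((df A q s k : ℤ) : ℂ)‖ := by
  rw [Complex.norm_intCast]
  exact rad_lt h q s k hk

theorem dfc_or (h : Good A g N) (s : Fin (d + 2)) (k : Fin (A.m s + 1)) :
    ((df A q s k : ℤ) : ℂ) = 0 ∨ rad g < ‖((df A q s k : ℤ) : ℂ)‖ := by
  by_cases hk : k = q s
  · exact Or.inl (dfc_eq_zero.2 hk)
  · exact Or.inr (dfc_lt h hk)

theorem ph_le (h : Good A g N) (s : Fin (d + 2)) (k : Fin (A.m s + 1)) (t : ℝ) :
    ‖ph (rad g) ((df A q s k : ℤ) : ℂ) t‖ ≤ fF A g q s k := by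
  unfold fF
  by_cases hk : k = q s
  · rw [if_pos hk, dfc_eq_zero.2 hk, ph_zero (rad_pos h)]
    simp
  · rw [if_neg hk]
    refine (ph_norm_le (rad_pos h) (dfc_lt h hk) t).trans (le_of_eq ?_)
    rw [Complex.norm_intCast]
    rfl

theorem lm_le (h : Good A g N) (s : Fin (d + 2)) (k : Fin (A.m s + 1)) (t : ℝ) :
    |lm (rad g) ((df A q s k : ℤ) : ℂ) t| ≤ fG A g q s k := by
  unfold fG
  by_cases hk : k = q s
  · rw [if_pos hk, dfc_eq_zero.2 hk, lm_zero, abs_zero]
  · rw [if_neg hk]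
    refine (lm_abs_le (rad_pos h) (dfc_lt h hk) t).trans (le_of_eq ?_)
    rw [Complex.norm_intCast]
    rfl

theorem int_delta (h : Good A g N) (s : Fin (d + 2)) (k : Fin (A.m s + 1)) :
    ∫ t in Set.Icc (0 : ℝ) (2 * π), ph (rad g) ((df A q s k : ℤ) : ℂ) t =
      ((2 * π * (if k = q s then 1 else 0) : ℝ) : ℂ) := by
  rw [integral_ph (rad_pos h) (dfc_or h s k)]
  by_cases hk : k = q s
  · rw [if_pos (dfc_eq_zero.2 hk), if_pos hk]
    push_cast
    ring
  · rw [if_neg (fun h' => hk (dfc_eq_zero.1 h')), if_neg hk]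
    simp

theorem cc_self {s : Fin (d + 2)} {k : Fin (A.m s + 1)} (hk : k = q s) :
    cc (rad g) ((df A q s k : ℤ) : ℂ) = Real.log (rad g) := by
  unfold cc
  rw [if_pos (dfc_eq_zero.2 hk)]

theorem cc_ne {s : Fin (d + 2)} {k : Fin (A.m s + 1)} (hk : k ≠ q s) :
    cc (rad g) ((df A q s k : ℤ) : ℂ) = Real.log |(df A q s k : ℝ)| := by
  unfold cc
  rw [if_neg (fun h' => hk (dfc_eq_zero.1 h')), Complex.norm_intCast]

theorem sum_cc (s : Fin (d + 2)) : ∑ k, cc (rad g) ((df A q s k : ℤ) : ℂ) =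
    Real.log (rad g) + ∑ k ∈ Finset.univ.erase (q s), Real.log |(df A q s k : ℝ)| := by
  rw [← Finset.add_sum_erase Finset.univ _ (Finset.mem_univ (q s)), cc_self rfl]
  congr 1
  exact Finset.sum_congr rfl fun k hk => cc_ne (Finset.ne_of_mem_erase hk)

/-- the algebraic identity for one index -/
theorem one_index (s : Fin (d + 2)) (k : Fin (A.m s + 1)) :
    -(∑ k', cc (rad g) ((df A q s k' : ℤ) : ℂ)) * (if k = q s then 1 else 0) +
      cc (rad g) ((df A q s k : ℤ) : ℂ) + lap A q s k = 0 := by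
  unfold lap
  by_cases hk : k = q s
  · rw [if_pos hk, if_pos hk, cc_self hk, sum_cc]
    ring
  · rw [if_neg hk, if_neg hk, cc_ne hk]
    ring

theorem int_p {K : Type*} [Fintype K] {ρ : ℝ} (hρ : 0 < ρ) (β : K → ℂ)
    (hβ : ∀ k, β k = 0 ∨ ρ < ‖β k‖) (k0 : K) (h0 : ∀ k, β k = 0 ↔ k = k0) {b : ℂ}
    (hb : b = 0 ∨ ρ < ‖b‖) (c : ℝ) :
    ∫ t in Set.Icc (0 : ℝ) (2 * π), (c + lm ρ b t) * (-∑ k, ph ρ (β k) t).re =
      -(2 * π * c) - ∫ t in Set.Icc (0 : ℝ) (2 * π), (∑ k, lm ρ (β k) t) * (ph ρ b t).re := by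
  classical
  have hint : ∀ {u : ℝ → ℝ}, Continuous u → Integrable u (volume.restrict (Set.Icc 0 (2 * π))) :=
    fun hu => hu.continuousOn.integrableOn_compact isCompact_Icc
  have hintc : ∀ {u : ℝ → ℂ}, Continuous u → Integrable u (volume.restrict (Set.Icc 0 (2 * π))) :=
    fun hu => hu.continuousOn.integrableOn_compact isCompact_Icc
  have cph : ∀ k, Continuous (ph ρ (β k)) := fun k => ph_continuous hρ (hβ k)
  have cre : ∀ k, Continuous fun t => (ph ρ (β k) t).re := fun k =>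
    Complex.continuous_re.comp (cph k)
  have clb : Continuous (lm ρ b) := lm_continuous hρ hb
  have hre : ∀ k, ∫ t in Set.Icc (0 : ℝ) (2 * π), (ph ρ (β k) t).re =
      if k = k0 then 2 * π else 0 := by
    intro k
    have h1 := integral_re (hintc (cph k))
    have h2 : ∫ t in Set.Icc (0 : ℝ) (2 * π), (ph ρ (β k) t).re =
        (∫ t in Set.Icc (0 : ℝ) (2 * π), ph ρ (β k) t).re := h1
    rw [h2, integral_ph hρ (hβ k)]
    by_cases hk : k = k0
    · rw [if_pos ((h0 k).2 hk), if_pos hk]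
      simp
    · rw [if_neg (fun h' => hk ((h0 k).1 h')), if_neg hk]
      simp
  have e1 : ∀ t, (c + lm ρ b t) * (-∑ k, ph ρ (β k) t).re =
      -∑ k, (c * (ph ρ (β k) t).re + lm ρ b t * (ph ρ (β k) t).re) := by
    intro t
    rw [Complex.neg_re, Complex.re_sum, mul_neg, Finset.mul_sum]
    congr 1
    refine Finset.sum_congr rfl fun k _ => ?_
    ring
  have i1 : ∀ k, Integrable (fun t => c * (ph ρ (β k) t).re)
      (volume.restrict (Set.Icc 0 (2 * π))) := fun k => hint (continuous_const.mul (cre k))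
  have i2 : ∀ k, Integrable (fun t => lm ρ b t * (ph ρ (β k) t).re)
      (volume.restrict (Set.Icc 0 (2 * π))) := fun k => hint (clb.mul (cre k))
  have e2 : ∫ t in Set.Icc (0 : ℝ) (2 * π), (c + lm ρ b t) * (-∑ k, ph ρ (β k) t).re =
      -∑ k, (c * (if k = k0 then 2 * π else 0) +
        ∫ t in Set.Icc (0 : ℝ) (2 * π), lm ρ b t * (ph ρ (β k) t).re) := by
    have i3 : ∀ k ∈ (Finset.univ : Finset K), Integrable
        (fun t => c * (ph ρ (β k) t).re + lm ρ b t * (ph ρ (β k) t).re)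
        (volume.restrict (Set.Icc 0 (2 * π))) := fun k _ => (i1 k).add (i2 k)
    simp only [e1]
    rw [integral_neg, integral_finsetSum _ i3]
    congr 1
    refine Finset.sum_congr rfl fun k _ => ?_
    rw [integral_add (i1 k) (i2 k), integral_const_mul, hre k]
  have e3 : ∫ t in Set.Icc (0 : ℝ) (2 * π), (∑ k, lm ρ (β k) t) * (ph ρ b t).re =
      ∑ k, ∫ t in Set.Icc (0 : ℝ) (2 * π), lm ρ b t * (ph ρ (β k) t).re := by
    have i4 : ∀ k ∈ (Finset.univ : Finset K), Integrable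
        (fun t => lm ρ (β k) t * (ph ρ b t).re) (volume.restrict (Set.Icc 0 (2 * π))) :=
      fun k _ => hint ((lm_continuous hρ (hβ k)).mul
        (Complex.continuous_re.comp (ph_continuous hρ hb)))
    simp only [Finset.sum_mul]
    rw [integral_finsetSum _ i4]
    exact Finset.sum_congr rfl fun k _ => integral_symm hρ (hβ k) hb
  rw [e2, e3, Finset.sum_add_distrib]
  simp only [mul_ite, mul_zero, Finset.sum_ite_eq', Finset.mem_univ, if_true]
  ring

theorem combine {n : ℕ} {I0 M0 e0 P : ℝ} {I M e : Fin n → ℝ} (h0 : |I0 / P - M0| ≤ e0)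
    (h : ∀ k, |I k / P - M k| ≤ e k) :
    |(I0 - ∑ k, I k) / P - (M0 - ∑ k, M k)| ≤ e0 + ∑ k, e k := by
  have e1 : (I0 - ∑ k, I k) / P - (M0 - ∑ k, M k) =
      (I0 / P - M0) - ∑ k, (I k / P - M k) := by
    rw [Finset.sum_sub_distrib, sub_div, Finset.sum_div]
    ring
  rw [e1]
  refine (abs_sub _ _).trans (add_le_add h0 ?_)
  exact (Finset.abs_sum_le_sum_abs _ _).trans (Finset.sum_le_sum fun k _ => h k)

theorem reg_core (h : Good A g N) (T : Tor A g N q) (i : ∀ s, Fin (A.m s + 1)) (c : ℝ)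
    (Λ : Fin (d + 1) → ℝ → ℝ) (hΛ : ∀ j, Continuous (Λ j)) (p : Fin (d + 1) → ℝ → ℂ)
    (hp : ∀ j, Continuous (p j))
    (hlog : ∀ θ, Real.log ‖T.γ.emb θ (A.linU N 0 (i 0) : A.CoordRing N)‖ =
      c - ∑ j, Λ j (θ j) + (WW T (i 0) θ).re)
    (hrow : ∀ θ j, dlogRow T.γ (A.linU N 0 (i 0)) θ j =
      p j (θ j) + -Complex.I * fderiv ℝ (WW T (i 0)) θ (Pi.single j 1)) :
    |regFun T.γ (fun s => A.linU N s (i s)) / (2 * π) ^ (d + 1) -
      ((c * (∏ j : Fin (d + 1), if i j.succ = q j.succ then (1 : ℝ) else 0) -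
        ∑ j : Fin (d + 1), ((∫ t in Set.Icc (0 : ℝ) (2 * π),
          Λ j t * (ph (rad g) ((df A q j.succ (i j.succ) : ℤ) : ℂ) t).re) / (2 * π)) *
          ∏ l ∈ Finset.univ.erase j,
            if i (Fin.succ l) = q (Fin.succ l) then (1 : ℝ) else 0) -
      ∑ k : Fin (d + 1), ((∫ t in Set.Icc (0 : ℝ) (2 * π),
        (cc (rad g) ((df A q k.succ (i k.succ) : ℤ) : ℂ) +
          lm (rad g) ((df A q k.succ (i k.succ) : ℤ) : ℂ) t) * (p k t).re) / (2 * π)) *
          ∏ l ∈ Finset.univ.erase k,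
            if i (Fin.succ l) = q (Fin.succ l) then (1 : ℝ) else 0)| ≤ EB A g N q i := by
  have hf : ∀ j : Fin (d + 1), Continuous (ph (rad g) ((df A q j.succ (i j.succ) : ℤ) : ℂ)) :=
    fun j => ph_continuous (rad_pos h) (dfc_or h _ _)
  rw [P4a177t.regFun_diag T.γ (fun s => A.linU N s (i s))
    (fun j => ph (rad g) ((df A q j.succ (i j.succ) : ℤ) : ℂ)) hf
    (fun j θ l => dlogRow_succ h T j (i j.succ) θ l)]
  have hF : ∀ (j : Fin (d + 1)) (t : ℝ), ‖ph (rad g) ((df A q j.succ (i j.succ) : ℤ) : ℂ) t‖ ≤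
      fF A g q j.succ (i j.succ) := fun j t => ph_le h _ _ t
  have hδ : ∀ j : Fin (d + 1), ∫ t in Set.Icc (0 : ℝ) (2 * π),
      ph (rad g) ((df A q j.succ (i j.succ) : ℤ) : ℂ) t =
      ((2 * π * (if i j.succ = q j.succ then 1 else 0) : ℝ) : ℂ) := fun j => int_delta h _ _
  have t0 := integral_T0 c (wB A g N q (i 0)) Λ hΛ (WW T (i 0))
    (WW_contDiff h T (i 0)).continuous (fun θ => WW_norm_le h T (i 0) θ)
    (fun j => ph (rad g) ((df A q j.succ (i j.succ) : ℤ) : ℂ)) hf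
    (fun j => fF A g q j.succ (i j.succ)) hF
    (fun j => if i j.succ = q j.succ then 1 else 0) hδ
  have tk := fun k : Fin (d + 1) => integral_TJ k
    (cc (rad g) ((df A q k.succ (i k.succ) : ℤ) : ℂ)) (fG A g q k.succ (i k.succ))
    (wB A g N q (i 0) * kk A g N q * SS A g q k.succ)
    (lm (rad g) ((df A q k.succ (i k.succ) : ℤ) : ℂ))
    (lm_continuous (rad_pos h) (dfc_or h _ _)) (fun t => lm_le h _ _ t) (p k) (hp k)
    (WW T (i 0)) (WW_contDiff h T (i 0)) (fun θ l => WW_periodic T (i 0) θ l)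
    (fun θ => WW_fderiv_le h T (i 0) θ k)
    (fun j => ph (rad g) ((df A q j.succ (i j.succ) : ℤ) : ℂ)) hf
    (fun j => fF A g q j.succ (i j.succ)) hF
    (fun j => if i j.succ = q j.succ then 1 else 0) hδ
  have hEB : EB A g N q i = wB A g N q (i 0) * ∏ j : Fin (d + 1), fF A g q j.succ (i j.succ) +
      ∑ k : Fin (d + 1), fG A g q k.succ (i k.succ) *
        (wB A g N q (i 0) * kk A g N q * SS A g q k.succ) *
          ∏ l ∈ Finset.univ.erase k, fF A g q (Fin.succ l) (i (Fin.succ l)) := by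
    unfold EB
    congr 1
    refine Finset.sum_congr rfl fun k _ => ?_
    ring
  rw [hEB]
  refine combine ?_ ?_
  · simp only [hlog]
    exact t0
  · intro k
    have := tk k
    simp only [log_emb_succ h T, hrow]
    exact this

end RegEAux

open RegEAux in
theorem reg_entry (h : Good A g N) (T : Tor A g N q) (i : ∀ s, Fin (A.m s + 1)) :
    |regFun T.γ (fun s => A.linU N s (i s)) / (2 * π) ^ (d + 1) - mm A N q i| ≤
      EB A g N q i := by
  have hρ := rad_pos h
  have hπ : (2 * π) ≠ 0 := by positivity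
  have hmm : mm A N q i = -(Real.log N * ((if i 0 = q 0 then 1 else 0) *
      ∏ j : Fin (d + 1), if i j.succ = q j.succ then (1 : ℝ) else 0) +
      (lap A q 0 (i 0) * (∏ j : Fin (d + 1), if i j.succ = q j.succ then (1 : ℝ) else 0) +
      ∑ j : Fin (d + 1), lap A q j.succ (i j.succ) * ((if i 0 = q 0 then 1 else 0) *
        ∏ l ∈ Finset.univ.erase j,
          if i (Fin.succ l) = q (Fin.succ l) then (1 : ℝ) else 0))) := by
    unfold mm
    rw [Fin.prod_univ_succ, Fin.sum_univ_succ,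
      prod_erase_zero (fun t => if i t = q t then (1 : ℝ) else 0)]
    congr 3
    refine Finset.sum_congr rfl fun j _ => ?_
    rw [prod_erase_succ (fun t => if i t = q t then (1 : ℝ) else 0) j]
  have hprod : ∀ j : Fin (d + 1), (∏ j : Fin (d + 1), if i j.succ = q j.succ then (1 : ℝ) else 0) =
      (if i j.succ = q j.succ then (1 : ℝ) else 0) *
        ∏ l ∈ Finset.univ.erase j, if i (Fin.succ l) = q (Fin.succ l) then (1 : ℝ) else 0 :=
    fun j => (Finset.mul_prod_erase Finset.univ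
      (fun l : Fin (d + 1) => if i (Fin.succ l) = q (Fin.succ l) then (1 : ℝ) else 0)
      (Finset.mem_univ j)).symm
  by_cases h0 : i 0 = q 0
  · have hlog : ∀ θ, Real.log ‖T.γ.emb θ (A.linU N 0 (i 0) : A.CoordRing N)‖ =
        (-Real.log N - ∑ k ∈ Finset.univ.erase (q 0), Real.log |(df A q 0 k : ℝ)| -
          ∑ j : Fin (d + 1), ∑ k, cc (rad g) ((df A q j.succ k : ℤ) : ℂ)) -
        ∑ j : Fin (d + 1), (∑ k, lm (rad g) ((df A q j.succ k : ℤ) : ℂ) (θ j)) +
          (WW T (i 0) θ).re := by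
      intro θ
      rw [log_emb_zero h T, if_pos h0]
      congr 1
      simp only [Finset.sum_add_distrib]
      ring
    have hrow : ∀ θ (j : Fin (d + 1)), dlogRow T.γ (A.linU N 0 (i 0)) θ j =
        (-∑ k, ph (rad g) ((df A q j.succ k : ℤ) : ℂ) (θ j)) +
          -Complex.I * fderiv ℝ (WW T (i 0)) θ (Pi.single j 1) := by
      intro θ j
      rw [dlogRow_zero h T, if_pos h0]
    have key := reg_core h T i _
      (fun j t => ∑ k, lm (rad g) ((df A q j.succ k : ℤ) : ℂ) t)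
      (fun j => continuous_finsetSum _ fun k _ => lm_continuous hρ (dfc_or h _ _))
      (fun j t => -∑ k, ph (rad g) ((df A q j.succ k : ℤ) : ℂ) t)
      (fun j => (continuous_finsetSum _ fun k _ => ph_continuous hρ (dfc_or h _ _)).neg)
      hlog hrow
    have hk : ∀ k : Fin (d + 1), (∫ t in Set.Icc (0 : ℝ) (2 * π),
        (cc (rad g) ((df A q k.succ (i k.succ) : ℤ) : ℂ) +
          lm (rad g) ((df A q k.succ (i k.succ) : ℤ) : ℂ) t) *
            (-∑ k', ph (rad g) ((df A q k.succ k' : ℤ) : ℂ) t).re) / (2 * π) =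
        -cc (rad g) ((df A q k.succ (i k.succ) : ℤ) : ℂ) -
          (∫ t in Set.Icc (0 : ℝ) (2 * π), (∑ k', lm (rad g) ((df A q k.succ k' : ℤ) : ℂ) t) *
            (ph (rad g) ((df A q k.succ (i k.succ) : ℤ) : ℂ) t).re) / (2 * π) := by
      intro k
      rw [int_p hρ (fun k' => ((df A q k.succ k' : ℤ) : ℂ)) (fun k' => dfc_or h _ _) (q k.succ)
        (fun k' => dfc_eq_zero) (dfc_or h _ _)]
      field_simp
    simp only [hk] at key
    refine le_trans (le_of_eq ?_) key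
    congr 2
    rw [hmm, if_pos h0]
    have hlap0 : lap A q 0 (i 0) =
        ∑ k ∈ Finset.univ.erase (q 0), Real.log |(df A q 0 k : ℝ)| := by
      unfold lap
      rw [if_pos h0]
    rw [hlap0]
    obtain ⟨P, hP⟩ : ∃ P : ℝ, P = ∏ j : Fin (d + 1),
      if i j.succ = q j.succ then (1 : ℝ) else 0 := ⟨_, rfl⟩
    obtain ⟨E, hE⟩ : ∃ E : Fin (d + 1) → ℝ, E = fun j => ∏ l ∈ Finset.univ.erase j,
      if i (Fin.succ l) = q (Fin.succ l) then (1 : ℝ) else 0 := ⟨_, rfl⟩
    obtain ⟨J, hJ⟩ : ∃ J : Fin (d + 1) → ℝ, J = fun k => (∫ t in Set.Icc (0 : ℝ) (2 * π),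
      (∑ k', lm (rad g) ((df A q k.succ k' : ℤ) : ℂ) t) *
        (ph (rad g) ((df A q k.succ (i k.succ) : ℤ) : ℂ) t).re) / (2 * π) := ⟨_, rfl⟩
    have hPE : ∀ j, P = (if i j.succ = q j.succ then (1 : ℝ) else 0) * E j := by
      intro j
      rw [hP, hE]
      exact hprod j
    have hEj : ∀ j, (∏ l ∈ Finset.univ.erase j,
      if i (Fin.succ l) = q (Fin.succ l) then (1 : ℝ) else 0) = E j := fun j => by rw [hE]
    have hJk : ∀ k, (∫ t in Set.Icc (0 : ℝ) (2 * π),
      (∑ k', lm (rad g) ((df A q k.succ k' : ℤ) : ℂ) t) *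
        (ph (rad g) ((df A q k.succ (i k.succ) : ℤ) : ℂ) t).re) / (2 * π) = J k :=
      fun k => by rw [hJ]
    simp only [← hP, hEj, hJk, one_mul]
    have hone : ∀ j : Fin (d + 1), -(∑ k', cc (rad g) ((df A q j.succ k' : ℤ) : ℂ)) * P +
        cc (rad g) ((df A q j.succ (i j.succ) : ℤ) : ℂ) * E j +
        lap A q j.succ (i j.succ) * E j = 0 := by
      intro j
      have h1 := one_index (g := g) (q := q) j.succ (i j.succ)
      rw [hPE j]
      linear_combination (E j) * h1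
    have hsum := Finset.sum_eq_zero fun j (_ : j ∈ (Finset.univ : Finset (Fin (d + 1)))) => hone j
    simp only [Finset.sum_add_distrib, ← Finset.sum_mul, Finset.sum_neg_distrib] at hsum
    have hs2 : ∑ k, (-cc (rad g) ((df A q k.succ (i k.succ) : ℤ) : ℂ) - J k) * E k =
        -(∑ k : Fin (d + 1), cc (rad g) ((df A q k.succ (i k.succ) : ℤ) : ℂ) * E k) -
          ∑ k, J k * E k := by
      rw [← Finset.sum_neg_distrib, ← Finset.sum_sub_distrib]
      exact Finset.sum_congr rfl fun k _ => by ring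
    rw [hs2]
    linarith
  · have hlog : ∀ θ, Real.log ‖T.γ.emb θ (A.linU N 0 (i 0) : A.CoordRing N)‖ =
        Real.log |(df A q 0 (i 0) : ℝ)| - ∑ j : Fin (d + 1), (0 : ℝ) + (WW T (i 0) θ).re := by
      intro θ
      rw [log_emb_zero h T, if_neg h0, Finset.sum_const_zero, sub_zero]
    have hrow : ∀ θ (j : Fin (d + 1)), dlogRow T.γ (A.linU N 0 (i 0)) θ j =
        0 + -Complex.I * fderiv ℝ (WW T (i 0)) θ (Pi.single j 1) := by
      intro θ j
      rw [dlogRow_zero h T, if_neg h0]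
    have key := reg_core h T i _ (fun j t => 0) (fun j => continuous_const)
      (fun j t => 0) (fun j => continuous_const) hlog hrow
    refine le_trans (le_of_eq ?_) key
    congr 2
    rw [hmm, if_neg h0]
    have hlap0 : lap A q 0 (i 0) = -Real.log |(df A q 0 (i 0) : ℝ)| := by
      unfold lap
      rw [if_neg h0]
    rw [hlap0]
    simp

end P4a177e
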