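import Pool.Agent.Lib.P4a177e.Stmt
import Pool.Agent.Lib.P4a177e.Crit

/-!
# MODULE P4a177e.SmoothE: smoothness (est. 1.3 h)

PROOF. `smooth_of_gap`: as in `P4a177h.Fam.smooth` (Pool/Agent/Lib/P4a177h/Smooth.lean, lemmas
`Fam.aeval_eqn`, `Fam.aeval_pderiv`, `Fam.pol`): at a point with `N ∏_s f_s(x_s) = 1` where all the
partial derivatives vanish, `f_s'(x_s) = 0` and `f_s(x_s) ≠ 0` for all `s`; then
`∑_i 1/(x_s - a_{s,i}) = f_s'/f_s = 0`; this is impossible for `A.m s = 0` (`1/(x-a) ≠ 0`), and for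
`A.m s ≥ 1` gives `‖f_s(x_s)‖ ≥ g^(m_s+1)/4 ≥ g^2/4` (`crit_bound`). So
`1 = N ∏ ‖f_s(x_s)‖ ≥ N (g^2/4)^(d+2)`. But `N (g^2/4)^(d+2) > 1`: `g = 1`: `N ≥ 16^(d+2)`;
`g = 2`: `N * 8^(d+2) ≥ 16^(d+2)`, `N ≥ 2^(d+2) > 1`; `g = 3`: `(9/4)^(d+2) > 1`.
`smoothClosure_of_gap` (`d = 0`, two variables): let `y` be a point of the closure, `f_s` as above,
`F_s = ∏_i (y(s,0) - a_{s,i} y(s,1))`.
* If `y(s,1) ≠ 0` for `s = 0, 1`: `x_s = y(s,0)/y(s,1)` is a point of the affine curve, and the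
  derivative of `homEqn` with respect to `X (s, 0)` at `y` is
  `y(s,1)^(-1) ∏_t y(t,1)^(m_t+1)` times the derivative of `eqn` in `x_s`: nonzero for some `s`.
* If `y(0,1) = 0` (or symmetrically `y(1,1) = 0`): `y(0,0) ≠ 0`, the second product vanishes, so
  `N F_0 F_1 = 0`, `F_0 = y(0,0)^(m_0+1) ≠ 0`, so `y(1,0) = a_{1,j} y(1,1)` for some `j`,
  `y(1,1) ≠ 0`; the derivative with respect to `X (1, 0)` is
  `N F_0 ∏_{i≠j} (a_{1,j} - a_{1,i}) y(1,1) ≠ 0` (`A.inj`; the derivative of the second product with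
  respect to `X (1,0)` is `0`).
-/

set_option autoImplicit false

namespace P4a177e

open P4a177h

namespace SmoothEAux

theorem der_prod {ι R S : Type*} [DecidableEq ι] [CommSemiring R] [CommSemiring S] [Algebra R S]
    (D : Derivation R S S) (f : ι → S) (T : Finset ι) :
    D (∏ i ∈ T, f i) = ∑ i ∈ T, (∏ j ∈ T.erase i, f j) * D (f i) := by
  induction T using Finset.induction_on with
  | empty => rw [Finset.prod_empty, Derivation.map_one_eq_zero, Finset.sum_empty]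
  | insert a T ha ih =>
    rw [Finset.prod_insert ha, Derivation.leibniz, ih, Finset.sum_insert ha,
      Finset.erase_insert ha, smul_eq_mul, smul_eq_mul, Finset.mul_sum, add_comm]
    congr 1
    refine Finset.sum_congr rfl fun i hi => ?_
    have hia : i ≠ a := fun h => ha (h ▸ hi)
    rw [Finset.erase_insert_of_ne (Ne.symm hia),
      Finset.prod_insert (fun h => ha (Finset.mem_of_mem_erase h)), mul_assoc]

variable {d : ℕ} (A : Fam d)

theorem aeval_pol (s : Fin (d + 2)) (c : ℂ) :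
    Polynomial.aeval c (A.pol s) = ∏ i, (c - (A.a s i : ℂ)) := by
  unfold Fam.pol
  rw [map_prod]
  refine Finset.prod_congr rfl fun i _ => ?_
  rw [map_sub, Polynomial.aeval_X, Polynomial.aeval_C]
  simp

theorem aeval_dpol (s : Fin (d + 2)) (c : ℂ) :
    Polynomial.aeval c (Polynomial.derivative (A.pol s)) =
      ∑ i, ∏ j ∈ Finset.univ.erase i, (c - (A.a s j : ℂ)) := by
  unfold Fam.pol
  rw [Polynomial.derivative_prod_finset, map_sum]
  refine Finset.sum_congr rfl fun i _ => ?_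
  rw [map_mul, Polynomial.derivative_X_sub_C, map_one, mul_one, map_prod]
  refine Finset.prod_congr rfl fun j _ => ?_
  rw [map_sub, Polynomial.aeval_X, Polynomial.aeval_C]
  simp

theorem sum_inv_eq (s : Fin (d + 2)) (c : ℂ) (hc : ∀ i, c ≠ (A.a s i : ℂ)) :
    (∑ i, 1 / (c - (A.a s i : ℂ))) * ∏ i, (c - (A.a s i : ℂ)) =
      ∑ i, ∏ j ∈ Finset.univ.erase i, (c - (A.a s j : ℂ)) := by
  rw [Finset.sum_mul]
  refine Finset.sum_congr rfl fun i _ => ?_
  rw [← Finset.mul_prod_erase Finset.univ (fun j => c - (A.a s j : ℂ)) (Finset.mem_univ i),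
    ← mul_assoc, one_div, inv_mul_cancel₀ (sub_ne_zero.2 (hc i)), one_mul]

theorem sum_ne_zero (k : ℕ) (a : Fin (k + 1) → ℤ) (c : ℂ) (hk : k = 0) (hc : ∀ i, c ≠ (a i : ℂ)) :
    ∑ i, 1 / (c - (a i : ℂ)) ≠ 0 := by
  subst hk
  rw [Fin.sum_univ_one]
  exact one_div_ne_zero (sub_ne_zero.2 (hc 0))

theorem num_ineq (n g N : ℕ) (hn : 1 ≤ n) (hg1 : 1 ≤ g) (hg3 : g ≤ 3) (hN : 1 ≤ N)
    (h : 16 ^ n ≤ N * (g ^ 3) ^ n) : 4 ^ n < N * (g ^ 2) ^ n := by
  have hg : g = 1 ∨ g = 2 ∨ g = 3 := by omega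
  rcases hg with rfl | rfl | rfl
  · have h1 : (4 : ℕ) ^ n < 16 ^ n := Nat.pow_lt_pow_left (by norm_num) (by omega)
    norm_num at h ⊢
    omega
  · norm_num at h ⊢
    have h2 : 1 < N := by
      by_contra hc
      have hN1 : N = 1 := by omega
      rw [hN1, one_mul] at h
      have h1 : (8 : ℕ) ^ n < 16 ^ n := Nat.pow_lt_pow_left (by norm_num) (by omega)
      omega
    have h3 : 0 < (4 : ℕ) ^ n := by positivity
    nlinarith
  · norm_num at h ⊢
    have h1 : (4 : ℕ) ^ n < 9 ^ n := Nat.pow_lt_pow_left (by norm_num) (by omega)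
    have h2 : 9 ^ n ≤ N * 9 ^ n := Nat.le_mul_of_pos_left _ (by omega)
    omega

end SmoothEAux

open SmoothEAux

theorem smooth_of_gap {d : ℕ} (A : Fam d) (g N : ℕ) (hg1 : 1 ≤ g) (hg3 : g ≤ 3) (hN : 1 ≤ N)
    (hgap : Gap A g) (hbig : 16 ^ (d + 2) ≤ N * (g ^ 3) ^ (d + 2)) : Smooth A N := by
  intro x hx
  by_contra hcon
  push Not at hcon
  rw [A.aeval_eqn N x, sub_eq_zero] at hx
  have hP0 : ∏ s, Polynomial.aeval (x s) (A.pol s) ≠ 0 := fun h => by
    rw [h, mul_zero] at hx; exact zero_ne_one hx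
  have hN0 : (N : ℂ) ≠ 0 := fun h => by rw [h, zero_mul] at hx; exact zero_ne_one hx
  have hfac : ∀ t, Polynomial.aeval (x t) (A.pol t) ≠ 0 := fun t =>
    (Finset.prod_ne_zero_iff.1 hP0) t (Finset.mem_univ t)
  have hroot : ∀ s, Polynomial.aeval (x s) (Polynomial.derivative (A.pol s)) = 0 := by
    intro s
    have h1 := hcon s
    rw [A.aeval_pderiv N x s] at h1
    rcases mul_eq_zero.1 h1 with h2 | h2
    · exact absurd h2 hN0
    · rcases mul_eq_zero.1 h2 with h3 | h3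
      · exact absurd h3 (Finset.prod_ne_zero_iff.2 (fun t _ => hfac t))
      · exact h3
  have hb : ∀ s, (g : ℝ) ^ 2 / 4 ≤ ‖Polynomial.aeval (x s) (A.pol s)‖ := by
    intro s
    have h1 := hfac s
    rw [aeval_pol] at h1 ⊢
    have h2 : ∀ i, x s ≠ (A.a s i : ℂ) := fun i h =>
      (Finset.prod_ne_zero_iff.1 h1) i (Finset.mem_univ i) (by rw [h, sub_self])
    have h3 := hroot s
    rw [aeval_dpol, ← sum_inv_eq A s (x s) h2] at h3
    have h4 : ∑ i, 1 / (x s - (A.a s i : ℂ)) = 0 := (mul_eq_zero.1 h3).resolve_right h1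
    have hm : 1 ≤ A.m s := by
      by_contra hm
      exact sum_ne_zero (A.m s) (A.a s) (x s) (by omega) h2 h4
    have h5 := crit_bound hm g hg1 (A.a s) (hgap s) (x s) h2 h4
    refine le_trans ?_ h5
    have hg' : (1 : ℝ) ≤ g := by exact_mod_cast hg1
    have h6 : (g : ℝ) ^ 2 ≤ (g : ℝ) ^ (A.m s + 1) := pow_le_pow_right₀ hg' (by omega)
    linarith
  have h1 : (N : ℝ) * ∏ s, ‖Polynomial.aeval (x s) (A.pol s)‖ = 1 := by
    have h2 := congrArg norm hx
    rw [norm_mul, norm_prod, norm_one, Complex.norm_natCast] at h2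
    exact h2
  have h2 : ((g : ℝ) ^ 2 / 4) ^ (d + 2) ≤ ∏ s, ‖Polynomial.aeval (x s) (A.pol s)‖ := by
    have h3 : ∏ _s : Fin (d + 2), ((g : ℝ) ^ 2 / 4) ≤
        ∏ s, ‖Polynomial.aeval (x s) (A.pol s)‖ :=
      Finset.prod_le_prod (fun _ _ => by positivity) (fun s _ => hb s)
    rwa [Finset.prod_const, Finset.card_univ, Fintype.card_fin] at h3
  have h3 : (N : ℝ) * ((g : ℝ) ^ 2 / 4) ^ (d + 2) ≤ 1 := by
    rw [← h1]
    exact mul_le_mul_of_nonneg_left h2 (Nat.cast_nonneg _)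
  have h4 : ((4 ^ (d + 2) : ℕ) : ℝ) < ((N * (g ^ 2) ^ (d + 2) : ℕ) : ℝ) :=
    Nat.cast_lt.2 (num_ineq (d + 2) g N (by omega) hg1 hg3 hN hbig)
  push_cast at h4
  rw [div_pow, ← mul_div_assoc, div_le_one (by positivity)] at h3
  linarith

namespace SmoothEAux

open MvPolynomial

variable {d : ℕ} (A : Fam d)

/-- the linear factors -/
noncomputable def lf (s : Fin (d + 2)) (i : Fin (A.m s + 1)) :
    MvPolynomial (Fin (d + 2) × Fin 2) ℚ := X (s, 0) - C (A.a s i : ℚ) * X (s, 1)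

theorem pderiv_lf (s t : Fin (d + 2)) (i : Fin (A.m t + 1)) :
    pderiv (s, (0 : Fin 2)) (lf A t i) = if t = s then 1 else 0 := by
  unfold lf
  have h1 : pderiv (s, (0 : Fin 2)) (X (t, 1) : MvPolynomial (Fin (d + 2) × Fin 2) ℚ) = 0 :=
    pderiv_X_of_ne (fun h => by simpa using (Prod.ext_iff.1 h).2)
  rw [map_sub, pderiv_C_mul, h1, mul_zero, sub_zero]
  split_ifs with h
  · subst h
    exact pderiv_X_self _
  · exact pderiv_X_of_ne (fun h' => h (Prod.ext_iff.1 h').1)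

theorem pderiv_F (s t : Fin (d + 2)) :
    pderiv (s, (0 : Fin 2)) (∏ i, lf A t i) =
      if t = s then ∑ i, ∏ j ∈ Finset.univ.erase i, lf A t j else 0 := by
  classical
  rw [der_prod]
  split_ifs with h
  · refine Finset.sum_congr rfl fun i _ => ?_
    rw [pderiv_lf, if_pos h, mul_one]
  · refine Finset.sum_eq_zero fun i _ => ?_
    rw [pderiv_lf, if_neg h, mul_zero]

theorem pderiv_second (s : Fin (d + 2)) :
    pderiv (s, (0 : Fin 2)) (∏ t : Fin (d + 2),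
      (X (t, 1) : MvPolynomial (Fin (d + 2) × Fin 2) ℚ) ^ (A.m t + 1)) = 0 := by
  classical
  rw [der_prod]
  refine Finset.sum_eq_zero fun t _ => ?_
  have h1 : pderiv (s, (0 : Fin 2)) (X (t, 1) : MvPolynomial (Fin (d + 2) × Fin 2) ℚ) = 0 :=
    pderiv_X_of_ne (fun h => by simpa using (Prod.ext_iff.1 h).2)
  rw [Derivation.leibniz_pow, h1, smul_zero, smul_zero, mul_zero]

theorem homEqn_eq (N : ℕ) : homEqn A N = (N : MvPolynomial (Fin (d + 2) × Fin 2) ℚ) *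
    ∏ s, ∏ i, lf A s i -
    ∏ s, (X (s, 1) : MvPolynomial (Fin (d + 2) × Fin 2) ℚ) ^ (A.m s + 1) := rfl

theorem aeval_lf (y : Fin (d + 2) × Fin 2 → ℂ) (s : Fin (d + 2)) (i : Fin (A.m s + 1)) :
    aeval y (lf A s i) = y (s, 0) - (A.a s i : ℂ) * y (s, 1) := by
  unfold lf
  rw [map_sub, map_mul, aeval_X, aeval_X, aeval_C]
  simp

theorem aeval_hom (N : ℕ) (y : Fin (d + 2) × Fin 2 → ℂ) :
    aeval y (homEqn A N) = (N : ℂ) * ∏ s, ∏ i, (y (s, 0) - (A.a s i : ℂ) * y (s, 1)) -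
      ∏ s, y (s, 1) ^ (A.m s + 1) := by
  have e1 : aeval y (∏ s, ∏ i, lf A s i) =
      ∏ s, ∏ i, (y (s, 0) - (A.a s i : ℂ) * y (s, 1)) := by
    rw [map_prod]
    refine Finset.prod_congr rfl fun s _ => ?_
    rw [map_prod]
    exact Finset.prod_congr rfl fun i _ => aeval_lf A y s i
  have e2 : aeval y (∏ s : Fin (d + 2),
      (X (s, 1) : MvPolynomial (Fin (d + 2) × Fin 2) ℚ) ^ (A.m s + 1)) =
      ∏ s, y (s, 1) ^ (A.m s + 1) := by
    rw [map_prod]
    refine Finset.prod_congr rfl fun s _ => ?_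
    rw [map_pow, aeval_X]
  rw [homEqn_eq, map_sub, map_mul, map_natCast, e1, e2]

theorem aeval_pderiv_hom (N : ℕ) (y : Fin (d + 2) × Fin 2 → ℂ) (s : Fin (d + 2)) :
    aeval y (pderiv (s, (0 : Fin 2)) (homEqn A N)) =
      (N : ℂ) * ((∏ t ∈ Finset.univ.erase s, ∏ i, (y (t, 0) - (A.a t i : ℂ) * y (t, 1))) *
        ∑ i, ∏ j ∈ Finset.univ.erase i, (y (s, 0) - (A.a s j : ℂ) * y (s, 1))) := by
  have hN : pderiv (s, (0 : Fin 2)) (N : MvPolynomial (Fin (d + 2) × Fin 2) ℚ) = 0 :=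
    Derivation.map_natCast _ _
  rw [homEqn_eq, map_sub, pderiv_second, sub_zero, Derivation.leibniz, hN, smul_zero, add_zero,
    der_prod, Finset.sum_eq_single s]
  · rw [pderiv_F, if_pos rfl, smul_eq_mul, map_mul, map_mul, map_natCast, map_prod, map_sum]
    congr 2
    · refine Finset.prod_congr rfl fun t _ => ?_
      rw [map_prod]
      exact Finset.prod_congr rfl fun i _ => aeval_lf A y t i
    · refine Finset.sum_congr rfl fun i _ => ?_
      rw [map_prod]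
      exact Finset.prod_congr rfl fun j _ => aeval_lf A y s j
  · intro t _ hts
    rw [pderiv_F, if_neg hts, mul_zero]
  · intro h
    exact absurd (Finset.mem_univ s) h

/-- the value of a homogenized factor -/
theorem hom_F (y : Fin (d + 2) × Fin 2 → ℂ) (s : Fin (d + 2)) (hy : y (s, 1) ≠ 0) :
    ∏ i, (y (s, 0) - (A.a s i : ℂ) * y (s, 1)) =
      y (s, 1) ^ (A.m s + 1) * ∏ i, (y (s, 0) / y (s, 1) - (A.a s i : ℂ)) := by
  have h1 : ∀ i, y (s, 0) - (A.a s i : ℂ) * y (s, 1) =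
      y (s, 1) * (y (s, 0) / y (s, 1) - (A.a s i : ℂ)) := by
    intro i
    field_simp
  rw [Finset.prod_congr rfl fun i _ => h1 i, Finset.prod_mul_distrib, Finset.prod_const,
    Finset.card_univ, Fintype.card_fin]

theorem hom_G (y : Fin (d + 2) × Fin 2 → ℂ) (s : Fin (d + 2)) (hy : y (s, 1) ≠ 0) :
    ∑ i, ∏ j ∈ Finset.univ.erase i, (y (s, 0) - (A.a s j : ℂ) * y (s, 1)) =
      y (s, 1) ^ (A.m s) * ∑ i, ∏ j ∈ Finset.univ.erase i,
        (y (s, 0) / y (s, 1) - (A.a s j : ℂ)) := by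
  have h1 : ∀ i, y (s, 0) - (A.a s i : ℂ) * y (s, 1) =
      y (s, 1) * (y (s, 0) / y (s, 1) - (A.a s i : ℂ)) := by
    intro i
    field_simp
  rw [Finset.mul_sum]
  refine Finset.sum_congr rfl fun i _ => ?_
  rw [Finset.prod_congr rfl fun i _ => h1 i, Finset.prod_mul_distrib, Finset.prod_const,
    Finset.card_erase_of_mem (Finset.mem_univ i), Finset.card_univ, Fintype.card_fin,
    Nat.add_sub_cancel]

/-- one coordinate at infinity -/
theorem case_inf (A : Fam 0) (N : ℕ) (hN : 1 ≤ N) (y : Fin (0 + 2) × Fin 2 → ℂ)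
    (hy : ∀ s, y (s, 0) ≠ 0 ∨ y (s, 1) ≠ 0) (h0 : aeval y (homEqn A N) = 0)
    (s t : Fin (0 + 2)) (he : Finset.univ.erase s = {t}) (ht : y (t, 1) = 0) :
    ∃ p, aeval y (pderiv p (homEqn A N)) ≠ 0 := by
  have hN0 : (N : ℂ) ≠ 0 := by
    exact_mod_cast (by omega : N ≠ 0)
  have ht0 : y (t, 0) ≠ 0 := (hy t).resolve_right (fun h => h ht)
  have hF : ∏ i, (y (t, 0) - (A.a t i : ℂ) * y (t, 1)) ≠ 0 := by
    rw [Finset.prod_ne_zero_iff]
    intro i _
    rw [ht, mul_zero, sub_zero]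
    exact ht0
  have hsec : ∏ s : Fin (0 + 2), y (s, 1) ^ (A.m s + 1) = 0 :=
    Finset.prod_eq_zero (Finset.mem_univ t) (by rw [ht]; exact zero_pow (Nat.succ_ne_zero _))
  rw [aeval_hom, hsec, sub_zero] at h0
  have h1 := (mul_eq_zero.1 h0).resolve_left hN0
  rw [← Finset.mul_prod_erase Finset.univ _ (Finset.mem_univ s), he,
    Finset.prod_singleton] at h1
  have h2 := (mul_eq_zero.1 h1).resolve_right hF
  obtain ⟨j, _, hj⟩ := Finset.prod_eq_zero_iff.1 h2
  have hj' : y (s, 0) = (A.a s j : ℂ) * y (s, 1) := sub_eq_zero.1 hj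
  have hs1 : y (s, 1) ≠ 0 := by
    intro h
    rw [h, mul_zero] at hj'
    rcases hy s with h3 | h3
    · exact h3 hj'
    · exact h3 h
  refine ⟨(s, 0), ?_⟩
  rw [aeval_pderiv_hom, he, Finset.prod_singleton]
  refine mul_ne_zero hN0 (mul_ne_zero hF ?_)
  rw [Finset.sum_eq_single j]
  · rw [Finset.prod_ne_zero_iff]
    intro i hi
    rw [hj', ← sub_mul]
    refine mul_ne_zero (sub_ne_zero.2 fun h => ?_) hs1
    have h3 : A.a s j = A.a s i := by exact_mod_cast h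
    exact (Finset.ne_of_mem_erase hi) (A.inj s h3).symm
  · intro i _ hij
    exact Finset.prod_eq_zero (Finset.mem_erase.2 ⟨Ne.symm hij, Finset.mem_univ j⟩) hj
  · intro h
    exact absurd (Finset.mem_univ j) h

end SmoothEAux

theorem smoothClosure_of_gap (A : Fam 0) (N : ℕ) (hN : 1 ≤ N) (h : Smooth A N) :
    SmoothClosure A N := by
  intro y hy h0
  by_cases h1 : y (1, 1) = 0
  · exact case_inf A N hN y hy h0 0 1 (by decide) h1
  by_cases h2 : y (0, 1) = 0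
  · exact case_inf A N hN y hy h0 1 0 (by decide) h2
  have hall : ∀ s, y (s, 1) ≠ 0 := by
    intro s
    fin_cases s
    · exact h2
    · exact h1
  have hN0 : (N : ℂ) ≠ 0 := by
    exact_mod_cast (by omega : N ≠ 0)
  -- the affine point
  have hx : MvPolynomial.aeval (fun s => y (s, 0) / y (s, 1)) (A.eqn N) = 0 := by
    rw [A.aeval_eqn]
    rw [aeval_hom, Finset.prod_congr rfl fun s _ => hom_F A y s (hall s),
      Finset.prod_mul_distrib] at h0
    have h3 : ∏ s : Fin (0 + 2), y (s, 1) ^ (A.m s + 1) ≠ 0 :=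
      Finset.prod_ne_zero_iff.2 fun s _ => pow_ne_zero _ (hall s)
    have h4 : (∏ s : Fin (0 + 2), y (s, 1) ^ (A.m s + 1)) * ((N : ℂ) *
        ∏ s, ∏ i, (y (s, 0) / y (s, 1) - (A.a s i : ℂ)) - 1) = 0 := by
      rw [← h0]; ring
    rw [Finset.prod_congr rfl fun s _ => aeval_pol A s _]
    exact (mul_eq_zero.1 h4).resolve_left h3
  obtain ⟨s, hs⟩ := h _ hx
  refine ⟨(s, 0), ?_⟩
  rw [A.aeval_pderiv, aeval_dpol, Finset.prod_congr rfl fun s _ => aeval_pol A s _] at hs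
  rw [aeval_pderiv_hom, hom_G A y s (hall s),
    Finset.prod_congr rfl fun t _ => hom_F A y t (hall t), Finset.prod_mul_distrib]
  have h5 := (mul_ne_zero_iff.1 hs).2
  obtain ⟨h6, h7⟩ := mul_ne_zero_iff.1 h5
  refine mul_ne_zero hN0 (mul_ne_zero (mul_ne_zero ?_ h6) (mul_ne_zero ?_ h7))
  · exact Finset.prod_ne_zero_iff.2 fun t _ => pow_ne_zero _ (hall t)
  · exact pow_ne_zero _ (hall s)

end P4a177e
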