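import Pool.Agent.Lib.P4a177e.TorusE
import Pool.Agent.Lib.P4a177e.RegE
import Pool.Agent.Lib.P4a177e.MaxP
import Pool.Agent.Lib.P4a177e.Multi
import Pool.Agent.Lib.P4a177e.Minor
import Pool.Agent.Lib.P4a177e.AdmE
import Pool.Agent.Lib.P4a177e.SmoothE
import Pool.Agent.Lib.P4a177e.GeomIrr

/-!
# Assembly
-/

set_option autoImplicit false

namespace P4a177e

open P4a177h P4a177s Function
open scoped Real

variable {d : ℕ}

theorem log_le_of_gap {A : Fam d} {g : ℕ} (hg : 1 ≤ g) (hgap : Gap A g) (s : Fin (d + 2))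
    (i k : Fin (A.m s + 1)) (hik : i ≠ k) :
    Real.log g ≤ Real.log |(A.a s i : ℝ) - A.a s k| := by
  have h1 : ((g : ℤ) : ℝ) ≤ ((|A.a s i - A.a s k| : ℤ) : ℝ) := by exact_mod_cast hgap s i k hik
  have h2 : (0 : ℝ) < g := by exact_mod_cast hg
  refine Real.log_le_log h2 ?_
  push_cast at h1
  exact h1

/-- The regulators of all the symbols on all the tori. -/
theorem exists_tori {A : Fam d} {g N : ℕ} (h : Good A g N) :
    ∃ γ : (∀ s, Fin (A.m s)) → Torus (d + 1) (A.CoordRing N),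
      (regulatorMatrix (xi A N) γ).det ≠ 0 := by
  classical
  let T : ∀ q : (∀ s, Fin (A.m s + 1)), Tor A g N q := fun q => Classical.choice (exists_tor h q)
  have hpi : (0 : ℝ) < (2 * π) ^ (d + 1) := by positivity
  have key : ∀ v : (∀ s, Fin (A.m s)) → ℝ, v ≠ 0 →
      ∃ q, ∑ p, v p * reg (T q).γ (xi A N p) ≠ 0 := by
    intro v hv
    obtain ⟨q, hq⟩ := max_principle A.m (hat A.m v) (hat_ne_zero A.m v hv)
      (fun s i => hat_sum_zero A.m v s i)
      (fun s i k => Real.log |(A.a s i : ℝ) - A.a s k|) (Real.log N) (Real.log g)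
      (Real.log_nonneg (by exact_mod_cast h.one_le_g))
      (fun s i k hik => log_le_of_gap h.one_le_g h.gap s i k hik)
      (fun q i => regFun (T q).γ (fun s => A.linU N s (i s)) / (2 * π) ^ (d + 1))
      (fun q i => EB A g N q i)
      (fun q i => by
        have h1 := reg_entry h (T q) i
        unfold mm lap df at h1
        push_cast at h1
        exact h1)
      (fun q => sum_EB_lt h q)
    refine ⟨q, ?_⟩
    have h2 := sum_multi (regFun (T q).γ) (regFun_mul (T q).γ) A.m (fun s i => A.linU N s i) v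
    have h3 : ∑ p, v p * reg (T q).γ (xi A N p) =
        ∑ p : ∀ s, Fin (A.m s), v p *
          regFun (T q).γ (fun s => -(A.linU N s (p s).succ / A.linU N s 0)) := by
      refine Finset.sum_congr rfl fun p _ => ?_
      unfold xi
      rw [reg_symb]
      rfl
    rw [h3, h2]
    intro h0
    apply hq
    simp only [mul_div_assoc']
    rw [← Finset.sum_div, h0, zero_div]
  obtain ⟨e, he⟩ := exists_minor (fun q p => reg (T q).γ (xi A N p)) key
  exact ⟨fun p => (T (e p)).γ, he⟩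

theorem main_aux {A : Fam d} {g N : ℕ} (hg1 : 1 ≤ g) (hg3 : g ≤ 3) (hN : 1 ≤ N)
    (hgap : Gap A g) (hbig : 16 ^ (d + 2) ≤ N * (g ^ 3) ^ (d + 2)) :
    GeomIrreducible A N ∧ Smooth A N ∧
    ∃ (ξ : (∀ s, Fin (A.m s)) → MilnorK (d + 2) (A.CoordRing N))
      (γ : (∀ s, Fin (A.m s)) → Torus (d + 1) (A.CoordRing N)),
      (∀ p, P4a177s.Admissible (ξ p) ∧ UnramifiedEverywhere (ξ p)) ∧
      (regulatorMatrix ξ γ).det ≠ 0 := by
  refine ⟨geomIrreducible A N hN, smooth_of_gap A g N hg1 hg3 hN hgap hbig, xi A N, ?_⟩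
  by_cases hm : ∀ s, 1 ≤ A.m s
  · obtain ⟨γ, hγ⟩ := exists_tori (⟨hm, hg1, hg3, hN, hgap, hbig⟩ : Good A g N)
    exact ⟨γ, fun p => ⟨admissible_xi A N p, unramified_xi A N p⟩, hγ⟩
  · push Not at hm
    obtain ⟨s, hs⟩ := hm
    have h0 : IsEmpty (∀ s, Fin (A.m s)) := ⟨fun p => by
      have h1 := (p s).2
      omega⟩
    refine ⟨fun p => (h0.false p).elim, fun p => ⟨admissible_xi A N p, unramified_xi A N p⟩, ?_⟩
    rw [Matrix.det_isEmpty]
    exact one_ne_zero

theorem main {A : Fam d} {g N : ℕ} (hg : 1 ≤ g) (hN : 1 ≤ N)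
    (hgap : Gap A g) (hbig : 16 ^ (d + 2) ≤ N * (g ^ 3) ^ (d + 2)) :
    GeomIrreducible A N ∧ Smooth A N ∧
    ∃ (ξ : (∀ s, Fin (A.m s)) → MilnorK (d + 2) (A.CoordRing N))
      (γ : (∀ s, Fin (A.m s)) → Torus (d + 1) (A.CoordRing N)),
      (∀ p, P4a177s.Admissible (ξ p) ∧ UnramifiedEverywhere (ξ p)) ∧
      (regulatorMatrix ξ γ).det ≠ 0 := by
  by_cases hg3 : g ≤ 3
  · exact main_aux hg hg3 hN hgap hbig
  · push Not at hg3
    refine main_aux (g := 3) (by norm_num) le_rfl hN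
      (fun s i j hij => le_trans (by exact_mod_cast hg3.le) (hgap s i j hij)) ?_
    calc 16 ^ (d + 2) ≤ (3 ^ 3) ^ (d + 2) := Nat.pow_le_pow_left (by norm_num) _
      _ ≤ N * (3 ^ 3) ^ (d + 2) := Nat.le_mul_of_pos_left _ hN

end P4a177e
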