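import Pool.Agent.Lib.P4a177e.Defs

/-!
# MODULE P4a177e.SumE: the sum of the error bounds
-/

set_option autoImplicit false

namespace P4a177e

open P4a177h

theorem sum_prod_eq {d : ℕ} (A : Fam d) (F : ∀ s, Fin (A.m s + 1) → ℝ) :
    ∑ i : (∀ s, Fin (A.m s + 1)), ∏ s, F s (i s) = ∏ s, ∑ k, F s k := by
  rw [Finset.prod_univ_sum, Fintype.piFinset_univ]

theorem sum_prod_succ {d : ℕ} (A : Fam d) (w : Fin (A.m 0 + 1) → ℝ)
    (F : ∀ j : Fin (d + 1), Fin (A.m j.succ + 1) → ℝ) :
    ∑ i : (∀ s, Fin (A.m s + 1)), w (i 0) * ∏ j : Fin (d + 1), F j (i j.succ) =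
      (∑ k, w k) * ∏ j : Fin (d + 1), ∑ k, F j k := by
  have h := sum_prod_eq A
    (fun s => Fin.cases (motive := fun s => Fin (A.m s + 1) → ℝ) w F s)
  simp only [Fin.prod_univ_succ, Fin.cases_zero, Fin.cases_succ] at h
  simp only [Fin.prod_univ_succ]
  exact h

theorem sum_fG {d : ℕ} (A : Fam d) (g : ℕ) (q : ∀ s, Fin (A.m s + 1)) (s : Fin (d + 2)) :
    ∑ k, fG A g q s k = SS A g q s - 1 := by
  have h : ∀ k, fG A g q s k = fF A g q s k - if k = q s then 1 else 0 := by
    intro k
    unfold fG fF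
    split_ifs <;> ring
  rw [Finset.sum_congr rfl fun k _ => h k, Finset.sum_sub_distrib]
  simp [SS]

theorem sum_wB {d : ℕ} (A : Fam d) (g N : ℕ) (q : ∀ s, Fin (A.m s + 1)) :
    ∑ k, wB A g N q k = 2 * (rr A g N q * (SS A g q 0 - 1)) := by
  have h : ∀ k, wB A g N q k =
      rr A g N q * ((if k = q 0 then SS A g q 0 - 1 else 0) + fG A g q 0 k) := by
    intro k
    unfold wB fG
    split_ifs <;> ring
  rw [Finset.sum_congr rfl fun k _ => h k, ← Finset.mul_sum, Finset.sum_add_distrib, sum_fG]
  simp only [Finset.sum_ite_eq', Finset.mem_univ, if_true]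
  ring

theorem sum_EB {d : ℕ} (A : Fam d) (g N : ℕ) (q : ∀ s, Fin (A.m s + 1)) :
    ∑ i, EB A g N q i =
      2 * (rr A g N q * (SS A g q 0 - 1)) * ∏ j : Fin (d + 1), SS A g q j.succ +
      ∑ j : Fin (d + 1), 2 * (rr A g N q * (SS A g q 0 - 1)) * kk A g N q *
        SS A g q j.succ * (SS A g q j.succ - 1) *
        ∏ l ∈ Finset.univ.erase j, SS A g q (Fin.succ l) := by
  classical
  unfold EB
  rw [Finset.sum_add_distrib]
  congr 1
  · rw [sum_prod_succ A (wB A g N q) fun j => fF A g q j.succ, sum_wB]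
    rfl
  · rw [Finset.sum_comm]
    refine Finset.sum_congr rfl fun j _ => ?_
    have h : ∀ i : (∀ s, Fin (A.m s + 1)),
        wB A g N q (i 0) * kk A g N q * SS A g q j.succ * fG A g q j.succ (i j.succ) *
          ∏ l ∈ Finset.univ.erase j, fF A g q (Fin.succ l) (i (Fin.succ l)) =
        kk A g N q * SS A g q j.succ * (wB A g N q (i 0) *
          ∏ l : Fin (d + 1), (if l = j then fG A g q l.succ (i l.succ)
            else fF A g q l.succ (i l.succ))) := by
      intro i
      rw [← Finset.mul_prod_erase Finset.univ (fun l : Fin (d + 1) =>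
        if l = j then fG A g q l.succ (i l.succ) else fF A g q l.succ (i l.succ))
        (Finset.mem_univ j), if_pos rfl]
      have h2 : ∏ l ∈ Finset.univ.erase j,
          (if l = j then fG A g q l.succ (i l.succ) else fF A g q l.succ (i l.succ)) =
          ∏ l ∈ Finset.univ.erase j, fF A g q (Fin.succ l) (i (Fin.succ l)) :=
        Finset.prod_congr rfl fun l hl => if_neg (Finset.ne_of_mem_erase hl)
      rw [h2]
      ring
    rw [Finset.sum_congr rfl fun i _ => h i, ← Finset.mul_sum,
      sum_prod_succ A (wB A g N q) (fun (l : Fin (d + 1)) k =>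
        if l = j then fG A g q l.succ k else fF A g q l.succ k), sum_wB]
    have h3 : ∀ l : Fin (d + 1), (∑ k, if l = j then fG A g q l.succ k else fF A g q l.succ k) =
        if l = j then SS A g q l.succ - 1 else SS A g q l.succ := by
      intro l
      split_ifs
      · exact sum_fG A g q l.succ
      · rfl
    rw [Finset.prod_congr rfl fun l _ => h3 l,
      ← Finset.mul_prod_erase Finset.univ (fun l : Fin (d + 1) =>
        if l = j then SS A g q l.succ - 1 else SS A g q l.succ) (Finset.mem_univ j), if_pos rfl]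
    have h4 : ∏ l ∈ Finset.univ.erase j,
        (if l = j then SS A g q l.succ - 1 else SS A g q l.succ) =
        ∏ l ∈ Finset.univ.erase j, SS A g q (Fin.succ l) :=
      Finset.prod_congr rfl fun l hl => if_neg (Finset.ne_of_mem_erase hl)
    rw [h4]
    ring

end P4a177e
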