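import Pool.Agent.Lib.P4a177e.ListB
import Pool.Agent.Lib.P4a177e.SumE

/-!
# MODULE P4a177e.Num: the error is smaller than the main term
-/

set_option autoImplicit false

namespace P4a177e

open P4a177h

variable {d : ℕ} {A : Fam d} {g N : ℕ}

theorem rad_pos (h : Good A g N) : 0 < rad g := by
  have := h.one_le_g
  have h1 : (0 : ℝ) < g := by exact_mod_cast this
  unfold rad
  positivity

theorem NumAux_df_self (q : ∀ s, Fin (A.m s + 1)) (s : Fin (d + 2)) : df A q s (q s) = 0 := by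
  unfold df
  ring

theorem NumAux_g_le_df (h : Good A g N) (q : ∀ s, Fin (A.m s + 1)) (s : Fin (d + 2))
    (i : Fin (A.m s + 1)) (hi : i ≠ q s) : (g : ℝ) ≤ |(df A q s i : ℝ)| := by
  have h1 := h.gap s (q s) i hi.symm
  have h2 : ((g : ℤ) : ℝ) ≤ ((|A.a s (q s) - A.a s i| : ℤ) : ℝ) := by exact_mod_cast h1
  unfold df
  push_cast at h2 ⊢
  exact h2

theorem rad_lt (h : Good A g N) (q : ∀ s, Fin (A.m s + 1)) (s : Fin (d + 2))
    (i : Fin (A.m s + 1)) (hi : i ≠ q s) : rad g < |(df A q s i : ℝ)| := by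
  have h1 := NumAux_g_le_df h q s i hi
  have h2 : (1 : ℝ) ≤ g := by exact_mod_cast h.one_le_g
  unfold rad
  linarith

theorem DD_pos (h : Good A g N) (q : ∀ s, Fin (A.m s + 1)) (s : Fin (d + 2)) :
    0 < DD A g q s := by
  unfold DD
  refine mul_pos (rad_pos h) (Finset.prod_pos fun i hi => ?_)
  have := rad_lt h q s i (Finset.ne_of_mem_erase hi)
  linarith

theorem fb_nonneg (h : Good A g N) (q : ∀ s, Fin (A.m s + 1)) (s : Fin (d + 2))
    (i : Fin (A.m s + 1)) (hi : i ≠ q s) : 0 ≤ fb A g q s i := by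
  unfold fb
  have h1 := rad_lt h q s i hi
  have h2 := rad_pos h
  exact div_nonneg h2.le (by linarith)

theorem NumAux_SS_eq (A : Fam d) (g : ℕ) (q : ∀ s, Fin (A.m s + 1)) (s : Fin (d + 2)) :
    SS A g q s = 1 + ∑ i ∈ Finset.univ.erase (q s), fb A g q s i := by
  unfold SS
  rw [← Finset.add_sum_erase _ _ (Finset.mem_univ (q s))]
  congr 1
  · unfold fF
    rw [if_pos rfl]
  · refine Finset.sum_congr rfl fun i hi => ?_
    unfold fF
    rw [if_neg (Finset.ne_of_mem_erase hi)]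

theorem one_le_SS (h : Good A g N) (q : ∀ s, Fin (A.m s + 1)) (s : Fin (d + 2)) :
    1 ≤ SS A g q s := by
  rw [NumAux_SS_eq]
  have : 0 ≤ ∑ i ∈ Finset.univ.erase (q s), fb A g q s i :=
    Finset.sum_nonneg fun i hi => fb_nonneg h q s i (Finset.ne_of_mem_erase hi)
  linarith

theorem NumAux_N_pos (h : Good A g N) : (0 : ℝ) < N := by
  exact_mod_cast h.one_le_N

theorem rr_pos (h : Good A g N) (q : ∀ s, Fin (A.m s + 1)) : 0 < rr A g N q := by
  unfold rr
  exact one_div_pos.2 (mul_pos (NumAux_N_pos h) (Finset.prod_pos fun s _ => DD_pos h q s))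

/-- The numbers `1 / (ν D_s)`, the product of which is `rr`. -/
theorem NumAux_exists_tau (h : Good A g N) (q : ∀ s, Fin (A.m s + 1)) :
    ∃ τ : Fin (d + 2) → ℝ, rr A g N q = ∏ s, τ s ∧
      ∀ s, 0 < τ s ∧ τ s ≤ 9 / 16 ∧ SS A g q s * τ s ≤ 27 / 32 ∧
        (SS A g q s - 1) * τ s ≤ 27 / 64 ∧ (SS A g q s - 1) * SS A g q s * τ s ≤ 27 / 32 := by
  have hn : (0 : ℝ) < ((d + 2 : ℕ) : ℝ) := by positivity
  set ν : ℝ := (N : ℝ) ^ (1 / ((d + 2 : ℕ) : ℝ)) with hν
  have hν0 : 0 ≤ ν := Real.rpow_nonneg (NumAux_N_pos h).le _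
  have hνn : ν ^ (d + 2) = N := by
    rw [hν, ← Real.rpow_natCast, ← Real.rpow_mul (NumAux_N_pos h).le, one_div,
      inv_mul_cancel₀ hn.ne', Real.rpow_one]
  have hN1 : (1 : ℝ) ≤ N := by exact_mod_cast h.one_le_N
  have hν1 : 1 ≤ ν := by
    by_contra hlt
    push Not at hlt
    have := pow_lt_one₀ hν0 hlt (n := d + 2) (by omega)
    rw [hνn] at this
    linarith
  have hν16 : 16 ≤ ν * (g : ℝ) ^ 3 := by
    have hb : (16 : ℝ) ^ (d + 2) ≤ (ν * (g : ℝ) ^ 3) ^ (d + 2) := by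
      rw [mul_pow, hνn]
      exact_mod_cast h.big
    exact le_of_pow_le_pow_left₀ (by omega) (by positivity) hb
  have key : ∀ s, 0 < DD A g q s ∧ 0 ≤ SS A g q s - 1 ∧ 1 / (ν * DD A g q s) ≤ 9 / 16 ∧
      (1 + (SS A g q s - 1)) * (1 / (ν * DD A g q s)) ≤ 27 / 32 ∧
      (SS A g q s - 1) * (1 / (ν * DD A g q s)) ≤ 27 / 64 ∧
      (SS A g q s - 1) * (1 + (SS A g q s - 1)) * (1 / (ν * DD A g q s)) ≤ 27 / 32 := by
    intro s
    refine list_bounds (h.one_le_m s) g h.one_le_g h.g_le (df A q s) (q s) (NumAux_df_self q s) ?_ ν hν1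
      hν16 (SS A g q s - 1) (DD A g q s) ?_ rfl
    · intro i j hij
      have h1 := h.gap s j i hij.symm
      unfold df
      rw [show A.a s (q s) - A.a s i - (A.a s (q s) - A.a s j) = A.a s j - A.a s i by ring]
      exact h1
    · rw [NumAux_SS_eq]
      simp only [fb]
      ring
  refine ⟨fun s => 1 / (ν * DD A g q s), ?_, fun s => ?_⟩
  · unfold rr
    rw [Finset.prod_div_distrib, Finset.prod_mul_distrib, Finset.prod_const_one,
      Finset.prod_const, Finset.card_univ, Fintype.card_fin, hνn]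
  · obtain ⟨k1, k2, k3, k4, k5, k6⟩ := key s
    have e : 1 + (SS A g q s - 1) = SS A g q s := by ring
    rw [e] at k4 k6
    exact ⟨one_div_pos.2 (mul_pos (by linarith) k1), k3, k4, k5, k6⟩

theorem rr_lt_one (h : Good A g N) (q : ∀ s, Fin (A.m s + 1)) : rr A g N q < 1 := by
  obtain ⟨τ, h1, h2⟩ := NumAux_exists_tau h q
  rw [h1]
  calc ∏ s, τ s ≤ ∏ _s : Fin (d + 2), (9 / 16 : ℝ) :=
        Finset.prod_le_prod (fun s _ => (h2 s).1.le) fun s _ => (h2 s).2.1
    _ = (9 / 16) ^ (d + 2) := by rw [Finset.prod_const, Finset.card_univ, Fintype.card_fin]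
    _ < 1 := pow_lt_one₀ (by norm_num) (by norm_num) (by omega)

theorem NumAux_rr_mul_lt' (h : Good A g N) (q : ∀ s, Fin (A.m s + 1)) :
    rr A g N q * (SS A g q 0 - 1) ≤ 1 / 4 := by
  obtain ⟨τ, h1, h2⟩ := NumAux_exists_tau h q
  rw [h1, Fin.prod_univ_succ]
  have h3 : ∏ j : Fin (d + 1), τ j.succ ≤ 9 / 16 := by
    calc ∏ j : Fin (d + 1), τ j.succ ≤ ∏ _s : Fin (d + 1), (9 / 16 : ℝ) :=
          Finset.prod_le_prod (fun s _ => (h2 _).1.le) fun s _ => (h2 _).2.1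
      _ = (9 / 16) ^ (d + 1) := by rw [Finset.prod_const, Finset.card_univ, Fintype.card_fin]
      _ ≤ (9 / 16) ^ 1 := pow_le_pow_of_le_one (by norm_num) (by norm_num) (by omega)
      _ = 9 / 16 := by norm_num
  have h4 : 0 ≤ ∏ j : Fin (d + 1), τ j.succ := Finset.prod_nonneg fun j _ => (h2 _).1.le
  have h5 := (h2 0).2.2.2.1
  calc τ 0 * (∏ j : Fin (d + 1), τ j.succ) * (SS A g q 0 - 1) =
        ((SS A g q 0 - 1) * τ 0) * ∏ j : Fin (d + 1), τ j.succ := by ring
    _ ≤ (27 / 64) * ∏ j : Fin (d + 1), τ j.succ := mul_le_mul_of_nonneg_right h5 h4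
    _ ≤ (27 / 64) * (9 / 16) := mul_le_mul_of_nonneg_left h3 (by norm_num)
    _ ≤ 1 / 4 := by norm_num

theorem rr_mul_lt (h : Good A g N) (q : ∀ s, Fin (A.m s + 1)) :
    rr A g N q * (SS A g q 0 - 1) < 1 := by
  have := NumAux_rr_mul_lt' h q
  linarith

theorem NumAux_two_le_log_eight : (2 : ℝ) ≤ Real.log 8 := by
  have h1 : Real.log 8 = 3 * Real.log 2 := by
    rw [show (8 : ℝ) = 2 ^ (3 : ℕ) by norm_num, Real.log_pow]
    norm_num
  have := Real.log_two_gt_d9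
  rw [h1]
  linarith

theorem NumAux_main_lower (h : Good A g N) :
    2 * ((d : ℝ) + 2) ≤ Real.log N + ∑ s, ((A.m s : ℝ) + 1) * Real.log g := by
  have hg1 : (1 : ℝ) ≤ g := by exact_mod_cast h.one_le_g
  have hlg : 0 ≤ Real.log g := Real.log_nonneg hg1
  have h1 : ((d : ℝ) + 2) * (2 * Real.log g) ≤ ∑ s, ((A.m s : ℝ) + 1) * Real.log g := by
    have h2 : ∑ _s : Fin (d + 2), 2 * Real.log g = ((d : ℝ) + 2) * (2 * Real.log g) := by
      simp
    rw [← h2]
    refine Finset.sum_le_sum fun s _ => mul_le_mul_of_nonneg_right ?_ hlg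
    have : (1 : ℝ) ≤ A.m s := by exact_mod_cast h.one_le_m s
    linarith
  have h3 : (8 : ℝ) ^ (d + 2) ≤ N * ((g : ℝ) ^ 2) ^ (d + 2) := by
    have hN1 : (1 : ℝ) ≤ N := by exact_mod_cast h.one_le_N
    have hb : (16 : ℝ) ^ (d + 2) ≤ N * ((g : ℝ) ^ 3) ^ (d + 2) := by exact_mod_cast h.big
    have hg3 := h.g_le
    have hg1' := h.one_le_g
    interval_cases g
    · norm_num at hb ⊢
      exact (pow_le_pow_left₀ (by norm_num) (by norm_num) _).trans hb
    · norm_num at hb ⊢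
      have e1 : (16 : ℝ) ^ (d + 2) = 2 ^ (d + 2) * 8 ^ (d + 2) := by
        rw [← mul_pow]; norm_num
      have e2 : (8 : ℝ) ^ (d + 2) = 2 ^ (d + 2) * 4 ^ (d + 2) := by
        rw [← mul_pow]; norm_num
      rw [e1] at hb
      have h5 : (2 : ℝ) ^ (d + 2) ≤ N := le_of_mul_le_mul_right hb (by positivity)
      rw [e2]
      exact mul_le_mul_of_nonneg_right h5 (by positivity)
    · norm_num at hb ⊢
      calc (8 : ℝ) ^ (d + 2) ≤ 9 ^ (d + 2) := pow_le_pow_left₀ (by norm_num) (by norm_num) _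
        _ = 1 * 9 ^ (d + 2) := by ring
        _ ≤ N * 9 ^ (d + 2) := mul_le_mul_of_nonneg_right hN1 (by positivity)
  have h4 : ((d : ℝ) + 2) * Real.log 8 ≤ Real.log N + ((d : ℝ) + 2) * (2 * Real.log g) := by
    have h5 := Real.log_le_log (by positivity) h3
    rw [Real.log_mul (NumAux_N_pos h).ne' (by positivity), Real.log_pow, Real.log_pow, Real.log_pow] at h5
    push_cast at h5
    linarith
  have h6 := NumAux_two_le_log_eight
  have h7 : (0 : ℝ) ≤ (d : ℝ) + 2 := by positivity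
  nlinarith [mul_le_mul_of_nonneg_left h6 h7]

theorem sum_EB_lt (h : Good A g N) (q : ∀ s, Fin (A.m s + 1)) :
    ∑ i, EB A g N q i < Real.log N + ∑ s, ((A.m s : ℝ) + 1) * Real.log g := by
  refine lt_of_lt_of_le ?_ (NumAux_main_lower h)
  obtain ⟨τ, h1, h2⟩ := NumAux_exists_tau h q
  have hS : ∀ s, 1 ≤ SS A g q s := one_le_SS h q
  have hkk0 : 0 < kk A g N q := by
    unfold kk
    have := rr_mul_lt h q
    exact one_div_pos.2 (by linarith)
  have hkk : kk A g N q ≤ 4 / 3 := by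
    unfold kk
    have h3 := NumAux_rr_mul_lt' h q
    rw [div_le_div_iff₀ (by linarith) (by norm_num)]
    linarith
  rw [sum_EB, h1, Fin.prod_univ_succ]
  set P : ℝ := ∏ j : Fin (d + 1), τ j.succ with hP
  have hτ0 : 0 ≤ (SS A g q 0 - 1) * τ 0 :=
    mul_nonneg (by linarith [hS 0]) (h2 0).1.le
  have hτ1 := (h2 0).2.2.2.1
  -- the first term
  have e1 : 2 * (τ 0 * P * (SS A g q 0 - 1)) * ∏ j : Fin (d + 1), SS A g q j.succ =
      2 * ((SS A g q 0 - 1) * τ 0) * ∏ j : Fin (d + 1), (SS A g q j.succ * τ j.succ) := by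
    rw [Finset.prod_mul_distrib, ← hP]
    ring
  have hu0 : ∀ j : Fin (d + 1), 0 ≤ SS A g q j.succ * τ j.succ := fun j =>
    mul_nonneg (by linarith [hS j.succ]) (h2 _).1.le
  have hu1 : ∀ j : Fin (d + 1), SS A g q j.succ * τ j.succ ≤ 27 / 32 := fun j => (h2 _).2.2.1
  have t1 : 2 * ((SS A g q 0 - 1) * τ 0) * ∏ j : Fin (d + 1), (SS A g q j.succ * τ j.succ) ≤
      (27 / 32 : ℝ) ^ (d + 2) := by
    have h3 : ∏ j : Fin (d + 1), (SS A g q j.succ * τ j.succ) ≤ (27 / 32 : ℝ) ^ (d + 1) := by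
      calc ∏ j : Fin (d + 1), (SS A g q j.succ * τ j.succ) ≤ ∏ _j : Fin (d + 1), (27 / 32 : ℝ) :=
            Finset.prod_le_prod (fun j _ => hu0 j) fun j _ => hu1 j
        _ = _ := by rw [Finset.prod_const, Finset.card_univ, Fintype.card_fin]
    have h4 : 0 ≤ ∏ j : Fin (d + 1), (SS A g q j.succ * τ j.succ) :=
      Finset.prod_nonneg fun j _ => hu0 j
    calc 2 * ((SS A g q 0 - 1) * τ 0) * ∏ j : Fin (d + 1), (SS A g q j.succ * τ j.succ) ≤
          2 * (27 / 64) * ∏ j : Fin (d + 1), (SS A g q j.succ * τ j.succ) :=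
          mul_le_mul_of_nonneg_right (by linarith) h4
      _ ≤ 2 * (27 / 64) * (27 / 32 : ℝ) ^ (d + 1) := mul_le_mul_of_nonneg_left h3 (by norm_num)
      _ = (27 / 32 : ℝ) ^ (d + 2) := by ring
  -- the other terms
  have t2 : ∀ j : Fin (d + 1), 2 * (τ 0 * P * (SS A g q 0 - 1)) * kk A g N q *
        SS A g q j.succ * (SS A g q j.succ - 1) *
        ∏ l ∈ Finset.univ.erase j, SS A g q (Fin.succ l) ≤ (4 / 3) * (27 / 32 : ℝ) ^ (d + 2) := by
    intro j
    have e2 : 2 * (τ 0 * P * (SS A g q 0 - 1)) * kk A g N q *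
        SS A g q j.succ * (SS A g q j.succ - 1) *
        ∏ l ∈ Finset.univ.erase j, SS A g q (Fin.succ l) =
        2 * ((SS A g q 0 - 1) * τ 0) * kk A g N q *
          ((SS A g q j.succ - 1) * SS A g q j.succ * τ j.succ) *
          ∏ l ∈ Finset.univ.erase j, (SS A g q (Fin.succ l) * τ (Fin.succ l)) := by
      rw [Finset.prod_mul_distrib, hP, ← Finset.mul_prod_erase Finset.univ
        (fun l : Fin (d + 1) => τ l.succ) (Finset.mem_univ j)]
      ring
    rw [e2]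
    have h3 : ∏ l ∈ Finset.univ.erase j, (SS A g q (Fin.succ l) * τ (Fin.succ l)) ≤
        (27 / 32 : ℝ) ^ d := by
      calc ∏ l ∈ Finset.univ.erase j, (SS A g q (Fin.succ l) * τ (Fin.succ l)) ≤
            ∏ _l ∈ Finset.univ.erase j, (27 / 32 : ℝ) :=
            Finset.prod_le_prod (fun l _ => hu0 l) fun l _ => hu1 l
        _ = _ := by
          rw [Finset.prod_const, Finset.card_erase_of_mem (Finset.mem_univ j), Finset.card_univ,
            Fintype.card_fin, Nat.add_sub_cancel]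
    have h4 : 0 ≤ ∏ l ∈ Finset.univ.erase j, (SS A g q (Fin.succ l) * τ (Fin.succ l)) :=
      Finset.prod_nonneg fun l _ => hu0 l
    have h5 : 0 ≤ (SS A g q j.succ - 1) * SS A g q j.succ * τ j.succ :=
      mul_nonneg (mul_nonneg (by linarith [hS j.succ]) (by linarith [hS j.succ])) (h2 _).1.le
    have h6 := (h2 j.succ).2.2.2.2
    calc 2 * ((SS A g q 0 - 1) * τ 0) * kk A g N q *
          ((SS A g q j.succ - 1) * SS A g q j.succ * τ j.succ) *
          ∏ l ∈ Finset.univ.erase j, (SS A g q (Fin.succ l) * τ (Fin.succ l)) ≤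
          2 * (27 / 64) * (4 / 3) * (27 / 32) * (27 / 32 : ℝ) ^ d := by
          have a1 : 2 * ((SS A g q 0 - 1) * τ 0) * kk A g N q ≤ 2 * (27 / 64) * (4 / 3) := by
            refine mul_le_mul (by linarith) hkk hkk0.le (by norm_num)
          have a2 : 2 * ((SS A g q 0 - 1) * τ 0) * kk A g N q *
              ((SS A g q j.succ - 1) * SS A g q j.succ * τ j.succ) ≤
              2 * (27 / 64) * (4 / 3) * (27 / 32) :=
            mul_le_mul a1 h6 h5 (by norm_num)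
          exact mul_le_mul a2 h3 h4 (by norm_num)
      _ = (4 / 3) * (27 / 32 : ℝ) ^ (d + 2) := by ring
  rw [e1]
  have t3 : ∑ j : Fin (d + 1), 2 * (τ 0 * P * (SS A g q 0 - 1)) * kk A g N q *
        SS A g q j.succ * (SS A g q j.succ - 1) *
        ∏ l ∈ Finset.univ.erase j, SS A g q (Fin.succ l) ≤
        ((d : ℝ) + 1) * ((4 / 3) * (27 / 32 : ℝ) ^ (d + 2)) := by
    refine (Finset.sum_le_sum fun j _ => t2 j).trans ?_
    simp
  have h8 : (27 / 32 : ℝ) ^ (d + 2) ≤ (27 / 32) ^ 2 :=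
    pow_le_pow_of_le_one (by norm_num) (by norm_num) (by omega)
  have h9 : (0 : ℝ) ≤ d := Nat.cast_nonneg d
  have h10 : ((d : ℝ) + 1) * ((4 / 3) * (27 / 32 : ℝ) ^ (d + 2)) ≤
      ((d : ℝ) + 1) * ((4 / 3) * (27 / 32) ^ 2) :=
    mul_le_mul_of_nonneg_left (by linarith) (by linarith)
  refine lt_of_le_of_lt (add_le_add (t1.trans h8) (t3.trans h10)) ?_
  norm_num
  linarith

end P4a177e
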