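import Mathlib

/-!
# MODULE P4a177e.Psi: the inverse function of a polynomial near a simple root, with an explicit
domain (complex analysis, only Mathlib)

PROOF. Put `G z = ∏_{i ≠ q} (z + b i)` and let `B` be the closed ball of radius `ρ` around `0`.
On `B`: `‖z + b i‖ ≥ ‖b i‖ - ρ > 0`, so `‖G z‖ ≥ D / ρ`. Fix `w` as in the statement and put
`t = ‖w‖ / D < 1`, `t * S < 1`. The map `Φ z = w / G z` maps `B` to the closed ball of radius
`ρ t ≤ ρ`, its derivative is `-(w / G) * ∑_{i ≠ q} 1 / (z + b i)`, of norm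
`≤ ρ t * ∑ 1 / (‖b i‖ - ρ) = t S < 1` on `B` (convex), so it is a contraction and has exactly
one fixed point in `B`. `ψ w` is this point (and `0` if the conditions do not hold). `z = Φ z` means
`z * G z = w`, i.e. `∏ i, (z + b i) = w` (`b q = 0`); so `ψ w` is the only point of `B` with this
property, and `‖ψ w‖ = ‖Φ (ψ w)‖ ≤ ρ t`.
SMOOTHNESS. `F z = ∏ i, (z + b i) = z * G z`, `F' z = G z * (1 + ∑_{i≠q} z / (z + b i))`, and at
`z = ψ w` this is nonzero. So `F` has a local inverse `h` at `w`; for `w'` near `w`: `F (h w') = w'`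
and `‖h w'‖ < ρ`; by uniqueness `h w' = ψ w'`. So `ψ` is `C²` at `w` over `ℂ`, hence over `ℝ`.
-/

set_option autoImplicit false

namespace P4a177e

open Filter Topology

private lemma psi_gder {ι : Type*} [DecidableEq ι] (E : Finset ι) (b : ι → ℂ) (z : ℂ)
    (h : ∀ i ∈ E, z + b i ≠ 0) :
    HasDerivAt (fun z => ∏ i ∈ E, (z + b i))
      ((∏ i ∈ E, (z + b i)) * ∑ i ∈ E, (z + b i)⁻¹) z := by
  have h1 := HasDerivAt.fun_finsetProd (u := E) (f := fun i (z : ℂ) => z + b i)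
    (f' := fun _ => 1) (x := z) (fun i _ => (hasDerivAt_id z).add_const (b i))
  have h2 : (∏ i ∈ E, (z + b i)) * ∑ i ∈ E, (z + b i)⁻¹ =
      ∑ i ∈ E, (∏ j ∈ E.erase i, (z + b j)) • (1 : ℂ) := by
    rw [Finset.mul_sum]
    refine Finset.sum_congr rfl fun i hi => ?_
    rw [← Finset.mul_prod_erase E _ hi, smul_eq_mul, mul_one, mul_comm (z + b i), mul_assoc,
      mul_inv_cancel₀ (h i hi), mul_one]
  rw [h2]
  exact h1

theorem exists_psi {n : ℕ} (b : Fin n → ℂ) (q : Fin n) (hq : b q = 0) (ρ : ℝ) (hρ : 0 < ρ)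
    (hb : ∀ i, i ≠ q → ρ < ‖b i‖) (D S : ℝ)
    (hD : D = ρ * ∏ i ∈ Finset.univ.erase q, (‖b i‖ - ρ))
    (hS : S = ∑ i ∈ Finset.univ.erase q, ρ / (‖b i‖ - ρ)) :
    ∃ ψ : ℂ → ℂ, ∀ w : ℂ, ‖w‖ < D → ‖w‖ * S < D →
      ContDiffAt ℝ 2 ψ w ∧ ‖ψ w‖ ≤ ρ * (‖w‖ / D) ∧ ∏ i, (ψ w + b i) = w := by
  classical
  set E : Finset (Fin n) := Finset.univ.erase q with hE
  set G : ℂ → ℂ := fun z => ∏ i ∈ E, (z + b i) with hG
  set P : ℝ := ∏ i ∈ E, (‖b i‖ - ρ) with hP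
  have hbE : ∀ i ∈ E, 0 < ‖b i‖ - ρ := fun i hi => sub_pos.2 (hb i (Finset.ne_of_mem_erase hi))
  have hP0 : 0 < P := Finset.prod_pos hbE
  have hD0 : 0 < D := by
    rw [hD]
    positivity
  have hlow : ∀ z : ℂ, ‖z‖ ≤ ρ → ∀ i ∈ E, ‖b i‖ - ρ ≤ ‖z + b i‖ := by
    intro z hz i _
    have h1 : ‖b i‖ ≤ ‖z + b i‖ + ‖z‖ := by
      have h2 := norm_sub_le (z + b i) z
      rwa [add_sub_cancel_left] at h2
    linarith
  have hne : ∀ z : ℂ, ‖z‖ ≤ ρ → ∀ i ∈ E, z + b i ≠ 0 := by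
    intro z hz i hi h0
    have h1 := hlow z hz i hi
    have h2 := hbE i hi
    rw [h0, norm_zero] at h1
    linarith
  have hGP : ∀ z : ℂ, ‖z‖ ≤ ρ → P ≤ ‖G z‖ := by
    intro z hz
    simp only [hG, norm_prod]
    exact Finset.prod_le_prod (fun i hi => (hbE i hi).le) fun i hi => hlow z hz i hi
  have hGne : ∀ z : ℂ, ‖z‖ ≤ ρ → G z ≠ 0 := by
    intro z hz h0
    have h1 := hGP z hz
    rw [h0, norm_zero] at h1
    linarith
  have hFG : ∀ z : ℂ, ∏ i, (z + b i) = z * G z := by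
    intro z
    rw [← Finset.mul_prod_erase _ _ (Finset.mem_univ q), hq, add_zero]
  have hGder : ∀ z : ℂ, ‖z‖ ≤ ρ → HasDerivAt G (G z * ∑ i ∈ E, (z + b i)⁻¹) z :=
    fun z hz => psi_gder E b z (hne z hz)
  have hsum : ∀ z : ℂ, ‖z‖ ≤ ρ → ρ * ‖∑ i ∈ E, (z + b i)⁻¹‖ ≤ S := by
    intro z hz
    calc ρ * ‖∑ i ∈ E, (z + b i)⁻¹‖ ≤ ρ * ∑ i ∈ E, (‖b i‖ - ρ)⁻¹ := by
          refine mul_le_mul_of_nonneg_left ((norm_sum_le _ _).trans ?_) hρ.le
          refine Finset.sum_le_sum fun i hi => ?_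
          rw [norm_inv]
          exact inv_anti₀ (hbE i hi) (hlow z hz i hi)
      _ = S := by
          rw [hS, Finset.mul_sum]
          exact Finset.sum_congr rfl fun i _ => (div_eq_mul_inv _ _).symm
  have hS0 : 0 ≤ S := by
    rw [hS]
    exact Finset.sum_nonneg fun i hi => div_nonneg hρ.le (hbE i hi).le
  -- estimate of `w / G z`
  have hΦ : ∀ w z : ℂ, ‖z‖ ≤ ρ → ‖w * (G z)⁻¹‖ ≤ ρ * (‖w‖ / D) := by
    intro w z hz
    have h1 : ρ * (‖w‖ / D) = ‖w‖ * P⁻¹ := by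
      rw [hD]
      field_simp
    rw [norm_mul, norm_inv, h1]
    exact mul_le_mul_of_nonneg_left (inv_anti₀ hP0 (hGP z hz)) (norm_nonneg _)
  have hcontr : ∀ w z z' : ℂ, ‖z‖ ≤ ρ → ‖z'‖ ≤ ρ →
      ‖w * (G z')⁻¹ - w * (G z)⁻¹‖ ≤ (‖w‖ / D * S) * ‖z' - z‖ := by
    intro w z z' hz hz'
    have h1 : ∀ x ∈ Metric.closedBall (0 : ℂ) ρ, HasDerivWithinAt (fun z => w * (G z)⁻¹)
        (w * (-(G x * ∑ i ∈ E, (x + b i)⁻¹) / (G x) ^ 2)) (Metric.closedBall (0 : ℂ) ρ) x := by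
      intro x hx
      rw [mem_closedBall_zero_iff] at hx
      exact (((hGder x hx).fun_inv (hGne x hx)).const_mul w).hasDerivWithinAt
    refine Convex.norm_image_sub_le_of_norm_hasDerivWithin_le h1 ?_ (convex_closedBall _ _)
      (by rwa [mem_closedBall_zero_iff]) (by rwa [mem_closedBall_zero_iff])
    intro x hx
    rw [mem_closedBall_zero_iff] at hx
    have h2 : w * (-(G x * ∑ i ∈ E, (x + b i)⁻¹) / (G x) ^ 2) =
        -((w * (G x)⁻¹) * ∑ i ∈ E, (x + b i)⁻¹) := by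
      have := hGne x hx
      field_simp
    rw [h2, norm_neg, norm_mul]
    calc ‖w * (G x)⁻¹‖ * ‖∑ i ∈ E, (x + b i)⁻¹‖
        ≤ (ρ * (‖w‖ / D)) * ‖∑ i ∈ E, (x + b i)⁻¹‖ :=
          mul_le_mul_of_nonneg_right (hΦ w x hx) (norm_nonneg _)
      _ = ‖w‖ / D * (ρ * ‖∑ i ∈ E, (x + b i)⁻¹‖) := by ring
      _ ≤ ‖w‖ / D * S := mul_le_mul_of_nonneg_left (hsum x hx) (by positivity)
  -- uniqueness
  have huniq : ∀ w z z' : ℂ, ‖w‖ * S < D → ‖z‖ ≤ ρ → ‖z'‖ ≤ ρ → z * G z = w → z' * G z' = w →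
      z = z' := by
    intro w z z' hw hz hz' h1 h2
    have e1 : w * (G z)⁻¹ = z := by
      rw [← h1, mul_assoc, mul_inv_cancel₀ (hGne z hz), mul_one]
    have e2 : w * (G z')⁻¹ = z' := by
      rw [← h2, mul_assoc, mul_inv_cancel₀ (hGne z' hz'), mul_one]
    have h3 := hcontr w z' z hz' hz
    rw [e1, e2] at h3
    have hK : ‖w‖ / D * S < 1 := by
      rw [div_mul_eq_mul_div, div_lt_one hD0]
      exact hw
    have h4 : ‖z - z'‖ = 0 := by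
      have := norm_nonneg (z - z')
      by_contra hcon
      have h5 : 0 < ‖z - z'‖ := lt_of_le_of_ne this (Ne.symm hcon)
      nlinarith
    exact sub_eq_zero.1 (norm_eq_zero.1 h4)
  -- existence
  have hexist : ∀ w : ℂ, ‖w‖ < D → ‖w‖ * S < D → ∃ z, ‖z‖ ≤ ρ ∧ z * G z = w := by
    intro w hw1 hw2
    have hK : ‖w‖ / D * S < 1 := by
      rw [div_mul_eq_mul_div, div_lt_one hD0]
      exact hw2
    have ht : ρ * (‖w‖ / D) ≤ ρ := by
      have : ‖w‖ / D ≤ 1 := (div_le_one hD0).2 hw1.le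
      nlinarith
    have hcont : ContinuousOn (fun z => ‖w * (G z)⁻¹ - z‖) (Metric.closedBall (0 : ℂ) ρ) := by
      intro x hx
      rw [mem_closedBall_zero_iff] at hx
      have h1 := (((hGder x hx).fun_inv (hGne x hx)).const_mul w).continuousAt
      exact ((h1.sub continuousAt_id).norm).continuousWithinAt
    obtain ⟨z, hz, hmin⟩ := (isCompact_closedBall (0 : ℂ) ρ).exists_isMinOn
      ⟨0, by simp [hρ.le]⟩ hcont
    rw [mem_closedBall_zero_iff] at hz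
    have hz' : ‖w * (G z)⁻¹‖ ≤ ρ := (hΦ w z hz).trans ht
    have h1 := hmin (show w * (G z)⁻¹ ∈ Metric.closedBall (0 : ℂ) ρ by
      rwa [mem_closedBall_zero_iff])
    simp only [Set.mem_ofPred_eq] at h1
    have h2 := hcontr w z (w * (G z)⁻¹) hz hz'
    have h3 : ‖w * (G z)⁻¹ - z‖ = 0 := by
      by_contra hcon
      have h5 : 0 < ‖w * (G z)⁻¹ - z‖ := lt_of_le_of_ne (norm_nonneg _) (Ne.symm hcon)
      nlinarith
    have h4 : w * (G z)⁻¹ = z := sub_eq_zero.1 (norm_eq_zero.1 h3)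
    refine ⟨z, hz, ?_⟩
    have h6 : w = (w * (G z)⁻¹) * G z := by
      rw [mul_assoc, inv_mul_cancel₀ (hGne z hz), mul_one]
    rw [h4] at h6
    exact h6.symm
  set ψ : ℂ → ℂ := fun w => if h : ∃ z, ‖z‖ ≤ ρ ∧ z * G z = w then h.choose else 0 with hψ
  have hψ1 : ∀ w : ℂ, ‖w‖ < D → ‖w‖ * S < D → ‖ψ w‖ ≤ ρ ∧ ψ w * G (ψ w) = w := by
    intro w hw1 hw2
    have h := hexist w hw1 hw2
    simp only [hψ]
    rw [dif_pos h]
    exact h.choose_spec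
  have hψ2 : ∀ w : ℂ, ‖w‖ < D → ‖w‖ * S < D → ‖ψ w‖ ≤ ρ * (‖w‖ / D) := by
    intro w hw1 hw2
    obtain ⟨h1, h2⟩ := hψ1 w hw1 hw2
    have h3 := hΦ w (ψ w) h1
    have h4 : w * (G (ψ w))⁻¹ = ψ w := by
      rw [mul_inv_eq_iff_eq_mul₀ (hGne _ h1)]
      exact h2.symm
    rwa [h4] at h3
  refine ⟨ψ, fun w hw1 hw2 => ⟨?_, hψ2 w hw1 hw2, ?_⟩⟩
  swap
  · rw [hFG]
    exact (hψ1 w hw1 hw2).2
  obtain ⟨hz, hzw⟩ := hψ1 w hw1 hw2
  set z₀ : ℂ := ψ w with hz₀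
  set F : ℂ → ℂ := fun z => ∏ i, (z + b i) with hF
  have hFw : F z₀ = w := by
    simp only [hF]
    rw [hFG]
    exact hzw
  have hF' : F = fun z => z * G z := funext hFG
  have ht : ‖w‖ / D < 1 := (div_lt_one hD0).2 hw1
  have hz2 : ‖z₀‖ ≤ ρ * (‖w‖ / D) := hψ2 w hw1 hw2
  have hzρ : ‖z₀‖ < ρ := by
    have : ρ * (‖w‖ / D) < ρ * 1 := mul_lt_mul_of_pos_left ht hρ
    linarith
  set c : ℂ := G z₀ * (1 + z₀ * ∑ i ∈ E, (z₀ + b i)⁻¹) with hc
  have hc0 : c ≠ 0 := by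
    rw [hc]
    refine mul_ne_zero (hGne z₀ hz) fun h0 => ?_
    have h1 : ‖z₀ * ∑ i ∈ E, (z₀ + b i)⁻¹‖ < 1 := by
      rw [norm_mul]
      calc ‖z₀‖ * ‖∑ i ∈ E, (z₀ + b i)⁻¹‖ ≤ (ρ * (‖w‖ / D)) * ‖∑ i ∈ E, (z₀ + b i)⁻¹‖ :=
            mul_le_mul_of_nonneg_right hz2 (norm_nonneg _)
        _ = ‖w‖ / D * (ρ * ‖∑ i ∈ E, (z₀ + b i)⁻¹‖) := by ring
        _ ≤ ‖w‖ / D * S := mul_le_mul_of_nonneg_left (hsum z₀ hz) (by positivity)
        _ < 1 := by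
            rw [div_mul_eq_mul_div, div_lt_one hD0]
            exact hw2
    have h2 : z₀ * ∑ i ∈ E, (z₀ + b i)⁻¹ = -1 := by linear_combination h0
    rw [h2, norm_neg, norm_one] at h1
    exact lt_irrefl _ h1
  have hder : HasDerivAt F c z₀ := by
    rw [hF']
    have h1 := (hasDerivAt_id z₀).fun_mul (hGder z₀ hz)
    have h2 : (1 : ℂ) * G z₀ + id z₀ * (G z₀ * ∑ i ∈ E, (z₀ + b i)⁻¹) = c := by
      rw [hc]
      simp only [id]
      ring
    rw [h2] at h1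
    exact h1
  have hFsm : ContDiff ℂ 2 F := by
    rw [hF]
    exact contDiff_prod fun i _ => contDiff_id.add contDiff_const
  have hder' : HasFDerivAt F
      ((ContinuousLinearEquiv.unitsEquivAut ℂ (Units.mk0 c hc0) : ℂ ≃L[ℂ] ℂ) : ℂ →L[ℂ] ℂ) z₀ :=
    hder.hasFDerivAt_equiv hc0
  have hcd : ContDiffAt ℂ 2 F z₀ := hFsm.contDiffAt
  set h := hcd.localInverse hder' (by norm_num) with hh
  have h1 : ContDiffAt ℂ 2 h w := by
    have := hcd.to_localInverse hder' (by norm_num)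
    rwa [hFw] at this
  have h3 : h w = z₀ := by
    have := hcd.localInverse_apply_image hder' (by norm_num)
    rwa [hFw] at this
  have h4 : ∀ᶠ w' in 𝓝 w, F (h w') = w' := by
    have := HasStrictFDerivAt.eventually_right_inverse
      (hcd.hasStrictFDerivAt' hder' (by norm_num))
    rwa [hFw] at this
  have h5 : ∀ᶠ w' in 𝓝 w, ‖h w'‖ < ρ := by
    have hcont : ContinuousAt h w := h1.continuousAt
    have : Tendsto (fun w' => ‖h w'‖) (𝓝 w) (𝓝 ‖h w‖) := hcont.norm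
    rw [h3] at this
    exact this.eventually (gt_mem_nhds hzρ)
  have h6 : ∀ᶠ w' in 𝓝 w, ‖w'‖ < D := continuous_norm.continuousAt (gt_mem_nhds hw1)
  have h7 : ∀ᶠ w' in 𝓝 w, ‖w'‖ * S < D :=
    (by fun_prop : Continuous fun w' : ℂ => ‖w'‖ * S).continuousAt (gt_mem_nhds hw2)
  have h8 : ψ =ᶠ[𝓝 w] h := by
    filter_upwards [h4, h5, h6, h7] with w' g4 g5 g6 g7
    obtain ⟨a1, a2⟩ := hψ1 w' g6 g7
    refine huniq w' (ψ w') (h w') g7 a1 g5.le a2 ?_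
    rw [← hFG]
    exact g4
  exact (h1.congr_of_eventuallyEq h8).restrict_scalars ℝ

end P4a177e
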