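import Pool.Agent.Lib.P4a177e.Defs

/-!
# The notions used in the statement of the theorem
-/

set_option autoImplicit false

namespace P4a177e

open P4a177h MvPolynomial

noncomputable section

variable {d : ℕ} (A : Fam d) (N : ℕ)

/-- The hypersurface `N * ∏_s ∏_i (x_s - a_{s,i}) = 1` is irreducible over the complex numbers. -/
def GeomIrreducible : Prop := Irreducible (MvPolynomial.map (algebraMap ℚ ℂ) (A.eqn N))

/-- The affine hypersurface `N * ∏_s ∏_i (x_s - a_{s,i}) = 1` is smooth: at none of its complex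
points all the partial derivatives of the equation vanish. -/
def Smooth : Prop :=
  ∀ x : Fin (d + 2) → ℂ, aeval x (A.eqn N) = 0 → ∃ s, aeval x (pderiv s (A.eqn N)) ≠ 0

/-- The multihomogeneous equation of the closure of the hypersurface in the product of `d + 2`
projective lines with the homogeneous coordinates `X (s, 0)`, `X (s, 1)`. -/
def homEqn : MvPolynomial (Fin (d + 2) × Fin 2) ℚ :=
  (N : MvPolynomial (Fin (d + 2) × Fin 2) ℚ) *
    ∏ s, ∏ i, (X (s, 0) - C (A.a s i : ℚ) * X (s, 1)) - ∏ s, X (s, 1) ^ (A.m s + 1)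

/-- The closure of the hypersurface in the product of `d + 2` projective lines is smooth. -/
def SmoothClosure : Prop :=
  ∀ y : Fin (d + 2) × Fin 2 → ℂ, (∀ s, y (s, 0) ≠ 0 ∨ y (s, 1) ≠ 0) →
    aeval y (homEqn A N) = 0 → ∃ p, aeval y (pderiv p (homEqn A N)) ≠ 0

/-- The symbol with the entries `-(x_s - a_{s,p s + 1}) / (x_s - a_{s,0})`. -/
def xi (p : ∀ s, Fin (A.m s)) : MilnorK (d + 2) (A.CoordRing N) :=
  symb fun s => -A.gU N s (p s)

end

end P4a177e
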