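import Pool.Agent.Lib.P4a177e.Num
import Pool.Agent.Lib.P4a177e.Psi

/-!
# MODULE P4a177e.TorusE: the tori (est. 1.0 h)

PROOF. Let `P j t = ∏ i, (ρ e^{it} + df A q j.succ i)`, `ρ = rad g`; the factor `i = q` has absolute
value `ρ`, the others at least `|df| - ρ > 0` (`rad_lt`), so `‖P j t‖ ≥ DD A g q j.succ > 0`.
`w θ = 1 / (N * ∏ j, P j (θ j))` is `C²`, periodic, and
`‖w θ‖ ≤ 1 / (N ∏_j DD j.succ) = rr * DD 0` (`Fin.prod_univ_succ`). With `ψ` from `exists_psi`
(`b i = (df A q 0 i : ℂ)`, `D = DD A g q 0`, `S = SS A g q 0 - 1`: `SS = 1 + ∑_{i≠q} fb`), since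
`rr < 1` and `rr * (SS 0 - 1) < 1`, put `z θ = ψ (w θ)`: `C²`, periodic,
`‖z‖ ≤ ρ ‖w‖ / DD 0 ≤ ρ rr`, and `N * ∏_i (z + df 0 i) * ∏_j P j (θ j) = 1`.
The point `x_0 = a_{0,q} + z`, `x_{j+1} = a_{j+1,q} + ρ e^{iθ_j}` satisfies the equation
(`Fam.eqn`, `Fin.prod_univ_succ`; compare `P4a177h.Est_eqn`), the torus is
`emb θ = P4a177h.Est_hom A N (x θ) _` (`Est_hom_lin`; smoothness and periodicity as in
`P4a177h.Est_torus` in Pool/Agent/Lib/P4a177h/Est.lean).
-/

set_option autoImplicit false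

namespace P4a177e

open P4a177h

variable {d : ℕ} {A : Fam d} {g N : ℕ}

namespace TorusEAux

open Function
open scoped Real

variable {d : ℕ} {A : Fam d} {g N : ℕ}

noncomputable section

theorem df_self (q : ∀ s, Fin (A.m s + 1)) (s : Fin (d + 2)) : df A q s (q s) = 0 := sub_self _

/-- The value of the polynomial in the variable `x_{j+1}` on the circle. -/
def PP (A : Fam d) (g : ℕ) (q : ∀ s, Fin (A.m s + 1)) (j : Fin (d + 1)) (t : ℝ) : ℂ :=
  ∏ i, ((rad g : ℂ) * Complex.exp (t * Complex.I) + (df A q j.succ i : ℂ))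

theorem norm_circ (h : Good A g N) (t : ℝ) :
    ‖(rad g : ℂ) * Complex.exp (t * Complex.I)‖ = rad g := by
  rw [norm_mul, Complex.norm_exp_ofReal_mul_I, mul_one, Complex.norm_real,
    Real.norm_of_nonneg (rad_pos h).le]

theorem DD_le_PP (h : Good A g N) (q : ∀ s, Fin (A.m s + 1)) (j : Fin (d + 1)) (t : ℝ) :
    DD A g q j.succ ≤ ‖PP A g q j t‖ := by
  have hr := rad_pos h
  unfold DD PP
  rw [← Finset.mul_prod_erase Finset.univ _ (Finset.mem_univ (q j.succ)), norm_mul, norm_prod,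
    df_self, Int.cast_zero, add_zero, norm_circ h]
  apply mul_le_mul_of_nonneg_left _ hr.le
  apply Finset.prod_le_prod
  · intro i hi
    have := rad_lt h q j.succ i (Finset.ne_of_mem_erase hi)
    linarith
  · intro i hi
    have h1 : ‖((df A q j.succ i : ℤ) : ℂ)‖ = |(df A q j.succ i : ℝ)| := by
      rw [Complex.norm_intCast]
    have h2 := norm_sub_norm_le ((df A q j.succ i : ℤ) : ℂ)
      (-((rad g : ℂ) * Complex.exp (t * Complex.I)))
    rw [norm_neg, norm_circ h, h1, sub_neg_eq_add] at h2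
    have h3 : (rad g : ℂ) * Complex.exp (t * Complex.I) + ((df A q j.succ i : ℤ) : ℂ) =
        ((df A q j.succ i : ℤ) : ℂ) + (rad g : ℂ) * Complex.exp (t * Complex.I) := by ring
    rw [h3]
    exact h2

theorem PP_ne (h : Good A g N) (q : ∀ s, Fin (A.m s + 1)) (j : Fin (d + 1)) (t : ℝ) :
    PP A g q j t ≠ 0 := by
  intro h0
  have h1 := DD_le_PP h q j t
  have h2 := DD_pos h q j.succ
  rw [h0, norm_zero] at h1
  linarith

/-- The right-hand side of the equation for `z`. -/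
def wF (A : Fam d) (g N : ℕ) (q : ∀ s, Fin (A.m s + 1)) (θ : Fin (d + 1) → ℝ) : ℂ :=
  ((N : ℂ) * ∏ j, PP A g q j (θ j))⁻¹

theorem N_pos (h : Good A g N) : (0 : ℝ) < N := by
  have := h.one_le_N
  exact_mod_cast this

theorem wF_ne (h : Good A g N) (q : ∀ s, Fin (A.m s + 1)) (θ : Fin (d + 1) → ℝ) :
    (N : ℂ) * ∏ j, PP A g q j (θ j) ≠ 0 := by
  apply mul_ne_zero
  · have := (N_pos h).ne'
    exact_mod_cast this
  · exact Finset.prod_ne_zero_iff.2 fun j _ => PP_ne h q j (θ j)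

theorem circ_contDiff (c : ℝ) (j : Fin (d + 1)) :
    ContDiff ℝ 2 fun θ : Fin (d + 1) → ℝ => (c : ℂ) * Complex.exp (θ j * Complex.I) := by
  have h1 : ContDiff ℝ 2 fun θ : Fin (d + 1) → ℝ => ((θ j : ℝ) : ℂ) :=
    Complex.ofRealCLM.contDiff.comp (contDiff_apply ℝ ℝ j)
  exact contDiff_const.mul (h1.mul contDiff_const).cexp

theorem circ_periodic (c : ℝ) (j l : Fin (d + 1)) (θ : Fin (d + 1) → ℝ) :
    (c : ℂ) * Complex.exp ((update θ l (θ l + 2 * π)) j * Complex.I) =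
      (c : ℂ) * Complex.exp (θ j * Complex.I) := by
  by_cases h : j = l
  · subst h
    rw [update_self]
    have : (((θ j + 2 * π : ℝ)) : ℂ) * Complex.I = θ j * Complex.I + 2 * π * Complex.I := by
      push_cast; ring
    rw [this, Complex.exp_add, Complex.exp_two_pi_mul_I, mul_one]
  · rw [update_of_ne h]

theorem wF_contDiff (h : Good A g N) (q : ∀ s, Fin (A.m s + 1)) :
    ContDiff ℝ 2 (wF A g N q) := by
  unfold wF
  apply ContDiff.inv _ (wF_ne h q)
  apply contDiff_const.mul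
  apply contDiff_prod
  intro j _
  unfold PP
  apply contDiff_prod
  intro i _
  exact (circ_contDiff (rad g) j).add contDiff_const

theorem PP_periodic (q : ∀ s, Fin (A.m s + 1)) (θ : Fin (d + 1) → ℝ) (j l : Fin (d + 1)) :
    PP A g q j ((update θ l (θ l + 2 * π)) j) = PP A g q j (θ j) := by
  unfold PP
  simp only [circ_periodic]

theorem wF_periodic (q : ∀ s, Fin (A.m s + 1)) (θ : Fin (d + 1) → ℝ) (l : Fin (d + 1)) :
    wF A g N q (update θ l (θ l + 2 * π)) = wF A g N q θ := by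
  unfold wF
  simp only [PP_periodic]

theorem wF_norm_le (h : Good A g N) (q : ∀ s, Fin (A.m s + 1)) (θ : Fin (d + 1) → ℝ) :
    ‖wF A g N q θ‖ ≤ rr A g N q * DD A g q 0 := by
  have hN := N_pos h
  have h0 := DD_pos h q 0
  have hD : 0 < ∏ j : Fin (d + 1), DD A g q j.succ := Finset.prod_pos fun j _ => DD_pos h q _
  have e : rr A g N q * DD A g q 0 = ((N : ℝ) * ∏ j : Fin (d + 1), DD A g q j.succ)⁻¹ := by
    unfold rr
    rw [Fin.prod_univ_succ]
    field_simp
  rw [e]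
  unfold wF
  rw [norm_inv, norm_mul, norm_prod, Complex.norm_natCast]
  apply inv_anti₀ (by positivity)
  apply mul_le_mul_of_nonneg_left _ hN.le
  exact Finset.prod_le_prod (fun j _ => (DD_pos h q _).le) fun j _ => DD_le_PP h q j (θ j)

/-- The point of the torus. -/
def pt (A : Fam d) (g : ℕ) (q : ∀ s, Fin (A.m s + 1)) (z : (Fin (d + 1) → ℝ) → ℂ)
    (θ : Fin (d + 1) → ℝ) : Fin (d + 2) → ℂ :=
  Fin.cons (α := fun _ => ℂ) ((A.a 0 (q 0) : ℂ) + z θ)
    (fun j : Fin (d + 1) => (A.a j.succ (q j.succ) : ℂ) + rad g * Complex.exp (θ j * Complex.I))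

theorem pt_zero (q : ∀ s, Fin (A.m s + 1)) (z : (Fin (d + 1) → ℝ) → ℂ) (θ : Fin (d + 1) → ℝ) :
    pt A g q z θ 0 = (A.a 0 (q 0) : ℂ) + z θ := rfl

theorem pt_succ (q : ∀ s, Fin (A.m s + 1)) (z : (Fin (d + 1) → ℝ) → ℂ) (θ : Fin (d + 1) → ℝ)
    (j : Fin (d + 1)) : pt A g q z θ j.succ =
      (A.a j.succ (q j.succ) : ℂ) + rad g * Complex.exp (θ j * Complex.I) := rfl

theorem pt_contDiff (q : ∀ s, Fin (A.m s + 1)) {z : (Fin (d + 1) → ℝ) → ℂ}
    (hz : ContDiff ℝ 2 z) (s : Fin (d + 2)) : ContDiff ℝ 2 fun θ => pt A g q z θ s := by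
  refine Fin.cases ?_ (fun j => ?_) s
  · simp only [pt_zero]
    exact contDiff_const.add hz
  · simp only [pt_succ]
    exact contDiff_const.add (circ_contDiff (rad g) j)

theorem pt_periodic (q : ∀ s, Fin (A.m s + 1)) {z : (Fin (d + 1) → ℝ) → ℂ}
    (hz : ∀ θ l, z (update θ l (θ l + 2 * π)) = z θ) (θ : Fin (d + 1) → ℝ) (l : Fin (d + 1)) :
    pt A g q z (update θ l (θ l + 2 * π)) = pt A g q z θ := by
  funext s
  refine Fin.cases ?_ (fun j => ?_) s
  · rw [pt_zero, pt_zero, hz]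
  · rw [pt_succ, pt_succ, circ_periodic]

theorem eqn_eval (A : Fam d) (N : ℕ) (x : Fin (d + 2) → ℂ) : MvPolynomial.aeval x (A.eqn N) =
    (N : ℂ) * ∏ s, ∏ i, (x s - (A.a s i : ℂ)) - 1 := by
  have h : ∀ r : ℤ, MvPolynomial.aeval x (MvPolynomial.C (r : ℚ) : MvPolynomial (Fin (d + 2)) ℚ) =
      (r : ℂ) := by
    intro r
    rw [MvPolynomial.aeval_C]
    simp
  unfold Fam.eqn
  rw [map_sub, map_mul, map_one, map_natCast, map_prod]
  congr 2
  refine Finset.prod_congr rfl fun s _ => ?_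
  rw [map_prod]
  refine Finset.prod_congr rfl fun i _ => ?_
  rw [map_sub, MvPolynomial.aeval_X, h]

theorem pt_eqn (h : Good A g N) (q : ∀ s, Fin (A.m s + 1)) {z : (Fin (d + 1) → ℝ) → ℂ}
    (hz : ∀ θ, ∏ i, (z θ + (df A q 0 i : ℂ)) = wF A g N q θ) (θ : Fin (d + 1) → ℝ) :
    MvPolynomial.aeval (pt A g q z θ) (A.eqn N) = 0 := by
  rw [eqn_eval, Fin.prod_univ_succ]
  have e0 : ∏ i, (pt A g q z θ 0 - (A.a 0 i : ℂ)) = wF A g N q θ := by
    rw [← hz θ]
    refine Finset.prod_congr rfl fun i _ => ?_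
    rw [pt_zero]
    unfold df
    push_cast
    ring
  have e1 : ∀ j : Fin (d + 1), ∏ i, (pt A g q z θ j.succ - (A.a j.succ i : ℂ)) =
      PP A g q j (θ j) := by
    intro j
    unfold PP
    refine Finset.prod_congr rfl fun i _ => ?_
    rw [pt_succ]
    unfold df
    push_cast
    ring
  rw [e0]
  simp only [e1]
  have h1 := wF_ne h q θ
  unfold wF
  rw [show (N : ℂ) * (((N : ℂ) * ∏ j, PP A g q j (θ j))⁻¹ * ∏ j, PP A g q j (θ j)) =
    ((N : ℂ) * ∏ j, PP A g q j (θ j)) * ((N : ℂ) * ∏ j, PP A g q j (θ j))⁻¹ by ring,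
    mul_inv_cancel₀ h1, sub_self]

/-- The torus. -/
def tor (A : Fam d) (g N : ℕ) (q : ∀ s, Fin (A.m s + 1)) (z : (Fin (d + 1) → ℝ) → ℂ)
    (hz : ContDiff ℝ 2 z) (hp : ∀ θ l, z (update θ l (θ l + 2 * π)) = z θ)
    (hx : ∀ θ, MvPolynomial.aeval (pt A g q z θ) (A.eqn N) = 0) :
    Torus (d + 1) (A.CoordRing N) where
  emb θ := Est_hom A N (pt A g q z θ) (hx θ)
  contDiff f := by
    obtain ⟨P, rfl⟩ := Ideal.Quotient.mk_surjective f
    simp only [Est_hom_mk]
    induction P using MvPolynomial.induction_on with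
    | C a => simp only [MvPolynomial.aeval_C]; exact contDiff_const
    | add P Q hP hQ => simp only [map_add]; exact hP.add hQ
    | mul_X P s hP =>
      simp only [map_mul, MvPolynomial.aeval_X]
      exact hP.mul (pt_contDiff q hz s)
  periodic f θ l := by
    obtain ⟨P, rfl⟩ := Ideal.Quotient.mk_surjective f
    rw [Est_hom_mk, Est_hom_mk, pt_periodic q hp]

end

end TorusEAux

open TorusEAux

theorem exists_tor (h : Good A g N) (q : ∀ s, Fin (A.m s + 1)) : Nonempty (Tor A g N q) := by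
  have hr := rad_pos h
  have hD0 := DD_pos h q 0
  have hnorm : ∀ i, ‖((df A q 0 i : ℤ) : ℂ)‖ = |(df A q 0 i : ℝ)| := fun i => by
    rw [Complex.norm_intCast]
  have hD : DD A g q 0 = rad g * ∏ i ∈ Finset.univ.erase (q 0), (‖((df A q 0 i : ℤ) : ℂ)‖ - rad g) := by
    unfold DD
    simp only [hnorm]
  have hS : SS A g q 0 - 1 = ∑ i ∈ Finset.univ.erase (q 0), rad g / (‖((df A q 0 i : ℤ) : ℂ)‖ - rad g) := by
    unfold SS
    rw [← Finset.add_sum_erase Finset.univ _ (Finset.mem_univ (q 0))]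
    have e1 : fF A g q 0 (q 0) = 1 := by
      unfold fF
      rw [if_pos rfl]
    rw [e1, add_sub_cancel_left]
    refine Finset.sum_congr rfl fun i hi => ?_
    unfold fF
    rw [if_neg (Finset.ne_of_mem_erase hi), hnorm]
    rfl
  obtain ⟨ψ, hψ⟩ := exists_psi (fun i => ((df A q 0 i : ℤ) : ℂ)) (q 0) (by
      show ((df A q 0 (q 0) : ℤ) : ℂ) = 0
      rw [df_self, Int.cast_zero]) (rad g) hr (fun i hi => by
      show rad g < ‖((df A q 0 i : ℤ) : ℂ)‖
      rw [hnorm]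
      exact rad_lt h q 0 i hi) (DD A g q 0) (SS A g q 0 - 1) hD hS
  have hrr := rr_lt_one h q
  have hrS := rr_mul_lt h q
  have hS1 := one_le_SS h q 0
  have hw : ∀ θ, ‖wF A g N q θ‖ < DD A g q 0 ∧ ‖wF A g N q θ‖ * (SS A g q 0 - 1) < DD A g q 0 := by
    intro θ
    have h1 := wF_norm_le h q θ
    constructor
    · refine h1.trans_lt ?_
      nlinarith
    · calc ‖wF A g N q θ‖ * (SS A g q 0 - 1)
          ≤ rr A g N q * DD A g q 0 * (SS A g q 0 - 1) :=
            mul_le_mul_of_nonneg_right h1 (by linarith)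
        _ = (rr A g N q * (SS A g q 0 - 1)) * DD A g q 0 := by ring
        _ < 1 * DD A g q 0 := mul_lt_mul_of_pos_right hrS hD0
        _ = DD A g q 0 := one_mul _
  have hz : ContDiff ℝ 2 (fun θ => ψ (wF A g N q θ)) := by
    rw [contDiff_iff_contDiffAt]
    intro θ
    exact ContDiffAt.comp θ (hψ _ (hw θ).1 (hw θ).2).1 (wF_contDiff h q).contDiffAt
  have hp : ∀ (θ : Fin (d + 1) → ℝ) (l : Fin (d + 1)),
      ψ (wF A g N q (Function.update θ l (θ l + 2 * Real.pi))) = ψ (wF A g N q θ) := by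
    intro θ l
    rw [wF_periodic]
  have hx := pt_eqn h q (z := fun θ => ψ (wF A g N q θ)) fun θ => (hψ _ (hw θ).1 (hw θ).2).2.2
  refine ⟨⟨tor A g N q (fun θ => ψ (wF A g N q θ)) hz hp hx, fun θ => ψ (wF A g N q θ), ?_, ?_, ?_⟩⟩
  · intro θ
    refine (hψ _ (hw θ).1 (hw θ).2).2.1.trans ?_
    apply mul_le_mul_of_nonneg_left _ hr.le
    rw [div_le_iff₀ hD0]
    exact wF_norm_le h q θ
  · intro θ i
    show Est_hom A N (pt A g q (fun θ => ψ (wF A g N q θ)) θ) (hx θ) (A.lin N 0 i) = _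
    rw [Est_hom_lin, pt_zero]
    unfold df
    push_cast
    ring
  · intro θ j i
    show Est_hom A N (pt A g q (fun θ => ψ (wF A g N q θ)) θ) (hx θ) (A.lin N j.succ i) = _
    rw [Est_hom_lin, pt_succ]
    unfold df
    push_cast
    ring

end P4a177e
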